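import Mathlib
import Pool.Agent.H476R2.Pal.Defs

/-! # Palindromes divisible by squares of large integers: one block -/

set_option autoImplicit false

namespace Pool.Agent.H985R2.Pal

open Finset Pool.Agent.Helper112 Pool.Agent.H476R2.Pal

/-- orthogonality -/
lemma orth (M : ℕ) (hM : 0 < M) (k : ℤ) :
    ∑ a ∈ range M, ee ((k : ℝ) * ((a : ℝ) / M)) = if (M : ℤ) ∣ k then (M : ℂ) else 0 := by
  have hM0 : (M : ℝ) ≠ 0 := by exact_mod_cast hM.ne'
  have h1 : ∀ a : ℕ, ee ((k : ℝ) * ((a : ℝ) / M)) = ee ((k : ℝ) / M) ^ a := by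
    intro a
    rw [← ls_ee_nat_mul]
    congr 1
    field_simp
  simp only [h1]
  split_ifs with h
  · obtain ⟨l, rfl⟩ := h
    have : ((((M : ℤ) * l : ℤ) : ℝ) / M) = ((l : ℤ) : ℝ) := by
      push_cast; field_simp
    rw [this, ls_ee_int]
    simp
  · have hne : ee ((k : ℝ) / M) ≠ 1 := by
      intro he
      obtain ⟨n, hn⟩ := ls_ee_eq_one he
      apply h
      rw [div_eq_iff hM0] at hn
      refine ⟨n, ?_⟩
      have : (k : ℝ) = ((n * M : ℤ) : ℝ) := by push_cast; exact hn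
      have h3 : k = n * M := by exact_mod_cast this
      rw [h3]; ring
    have hp : ee ((k : ℝ) / M) ^ M = 1 := by
      rw [← ls_ee_nat_mul]
      have : (M : ℝ) * ((k : ℝ) / M) = ((k : ℤ) : ℝ) := by field_simp
      rw [this, ls_ee_int]
    have := geom_sum_mul (ee ((k : ℝ) / M)) M
    rw [hp, sub_self] at this
    rcases mul_eq_zero.1 this with h4 | h4
    · exact h4
    · exact absurd (sub_eq_zero.1 h4) hne

open Classical in
/-- Parseval modulo `M` -/
lemma pars {ι : Type} [Fintype ι] (M : ℕ) (hM : 0 < M) (W : ι → ℝ) (n : ι → ℕ) :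
    ∑ a ∈ range M, ‖∑ i, (W i : ℂ) * ee ((n i : ℝ) * ((a : ℝ) / M))‖ ^ 2 =
      M * ∑ i, ∑ j, if (M : ℤ) ∣ (n i : ℤ) - n j then W i * W j else 0 := by
  have key : ∀ a : ℕ, ((‖∑ i, (W i : ℂ) * ee ((n i : ℝ) * ((a : ℝ) / M))‖ ^ 2 : ℝ) : ℂ) =
      ∑ i, ∑ j, (W i * W j : ℂ) * ee ((((n i : ℤ) - n j : ℤ) : ℝ) * ((a : ℝ) / M)) := by
    intro a
    have h1 := Complex.mul_conj (∑ i, (W i : ℂ) * ee ((n i : ℝ) * ((a : ℝ) / M)))
    rw [Complex.normSq_eq_norm_sq] at h1
    rw [← h1, map_sum, Finset.sum_mul_sum]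
    refine Finset.sum_congr rfl fun i _ => Finset.sum_congr rfl fun j _ => ?_
    rw [map_mul, ls_conj_ee, Complex.conj_ofReal]
    have h2 : (((n i : ℤ) - n j : ℤ) : ℝ) * ((a : ℝ) / M) =
        (n i : ℝ) * ((a : ℝ) / M) + -((n j : ℝ) * ((a : ℝ) / M)) := by push_cast; ring
    rw [h2, ls_ee_add]
    ring
  have h3 : ((∑ a ∈ range M, ‖∑ i, (W i : ℂ) * ee ((n i : ℝ) * ((a : ℝ) / M))‖ ^ 2 : ℝ) : ℂ) =
      ((M * ∑ i, ∑ j, if (M : ℤ) ∣ (n i : ℤ) - n j then W i * W j else 0 : ℝ) : ℂ) := by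
    push_cast
    push_cast at key
    rw [Finset.sum_congr rfl fun a _ => key a]
    rw [Finset.sum_comm]
    rw [Finset.mul_sum]
    refine Finset.sum_congr rfl fun i _ => ?_
    rw [Finset.sum_comm, Finset.mul_sum]
    refine Finset.sum_congr rfl fun j _ => ?_
    rw [← Finset.mul_sum]
    have h4 := orth M hM ((n i : ℤ) - n j)
    push_cast at h4
    rw [h4]
    split_ifs
    · push_cast; ring
    · push_cast; ring
  exact_mod_cast h3

/-- expansion of a product of trigonometric polynomials -/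
lemma expand (J R : ℕ) (w : Fin J → Fin R → ℝ) (f : Fin J → ℕ) (α : ℝ) :
    ∏ j : Fin J, ∑ i : Fin R, (w j i : ℂ) * ee (((i : ℕ) : ℝ) * (f j * α)) =
      ∑ x : Fin J → Fin R, ((∏ j, w j (x j) : ℝ) : ℂ) *
        ee (((∑ j, (x j : ℕ) * f j : ℕ) : ℝ) * α) := by
  rw [Finset.prod_univ_sum]
  rw [Fintype.piFinset_univ]
  refine Finset.sum_congr rfl fun x _ => ?_
  rw [Finset.prod_mul_distrib]
  congr 1
  · push_cast; rfl
  · push_cast
    rw [Finset.sum_mul]
    have : ∀ s : Finset (Fin J), ∏ j ∈ s, ee (((x j : ℕ) : ℝ) * (f j * α)) =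
        ee (∑ j ∈ s, ((x j : ℕ) : ℝ) * (f j : ℝ) * α) := by
      intro s
      induction s using Finset.induction_on with
      | empty => simp [ls_ee_zero]
      | insert a s ha ih =>
        rw [Finset.prod_insert ha, Finset.sum_insert ha, ls_ee_add, ih]
        congr 2
        ring
    exact this _

/-- digit differences of size at most nine are determined by the value -/
lemma inj9 (L A : ℕ) : ∀ J : ℕ, A + J ≤ L → ∀ z : ℕ → ℤ, (∀ c < J, |z c| ≤ 9) →
    ∑ c ∈ range J, z c * (fr L (A + c) : ℤ) = 0 → ∀ c < J, z c = 0 := by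
  intro J
  induction J with
  | zero => intro _ z _ _ c hc; omega
  | succ J ih =>
    intro hAJ z hz h0
    rw [Finset.sum_range_succ] at h0
    have hzJ : z J = 0 := by
      rcases Nat.eq_zero_or_pos (A + J) with h1 | h1
      · have hA : A = 0 := by omega
        have hJ : J = 0 := by omega
        subst hA hJ
        simp only [Finset.range_zero, Finset.sum_empty, zero_add, fr, if_true] at h0
        rcases mul_eq_zero.1 h0 with h2 | h2
        · exact h2
        · exfalso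
          have : (0 : ℤ) < ((10 ^ L : ℕ) : ℤ) := by positivity
          omega
      · -- everything is divisible by `10 ^ (L - (A+J) + 1)` except the last term
        have hdvd : ((10 ^ (L - (A + J) + 1) : ℕ) : ℤ) ∣
            ∑ c ∈ range J, z c * (fr L (A + c) : ℤ) := by
          refine Finset.dvd_sum fun c hc => ?_
          rw [Finset.mem_range] at hc
          refine Dvd.dvd.mul_left ?_ _
          rw [Int.natCast_dvd_natCast]
          unfold fr
          split_ifs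
          · exact pow_dvd_pow _ (by omega)
          · exact dvd_add (pow_dvd_pow _ (by omega)) (pow_dvd_pow _ (by omega))
        have hfr : (fr L (A + J) : ℤ) = 10 ^ (L + (A + J)) + 10 ^ (L - (A + J)) := by
          unfold fr
          rw [if_neg (by omega)]
          push_cast; rfl
        have h2 : ((10 ^ (L - (A + J) + 1) : ℕ) : ℤ) ∣ z J * (10 : ℤ) ^ (L - (A + J)) := by
          have e1 : z J * (10 : ℤ) ^ (L - (A + J)) =
              -(∑ c ∈ range J, z c * (fr L (A + c) : ℤ)) - z J * 10 ^ (L + (A + J)) := by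
            rw [hfr] at h0
            linear_combination h0
          rw [e1]
          refine dvd_sub (dvd_neg.2 hdvd) (Dvd.dvd.mul_left ?_ _)
          push_cast
          exact pow_dvd_pow _ (by omega)
        have h3 : (10 : ℤ) ∣ z J := by
          push_cast at h2
          rw [pow_succ, mul_comm (z J)] at h2
          exact (mul_dvd_mul_iff_left (by positivity)).1 h2
        have h4 := hz J (by omega)
        rw [abs_le] at h4
        omega
    rw [hzJ, zero_mul, add_zero] at h0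
    intro c hc
    rcases Nat.lt_succ_iff_lt_or_eq.1 hc with h | h
    · exact ih (by omega) z (fun c hc => hz c (by omega)) h0 c h
    · rw [h]; exact hzJ

/-- sum of the frequencies -/
lemma sum_fr (J : ℕ) : 9 * ∑ c ∈ range (J + 1), fr J c + 1 = 10 ^ (2 * J + 1) := by
  induction J with
  | zero => simp [fr]
  | succ J ih =>
    rw [Finset.sum_range_succ]
    have h1 : ∑ c ∈ range (J + 1), fr (J + 1) c = 10 * ∑ c ∈ range (J + 1), fr J c := by
      rw [Finset.mul_sum]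
      refine Finset.sum_congr rfl fun c hc => ?_
      rw [Finset.mem_range] at hc
      rw [fr_scale (show J ≤ J + 1 by omega) (show c ≤ J by omega)]
      congr 1
      rw [Nat.add_sub_cancel_left, pow_one]
    have h2 : fr (J + 1) (J + 1) = 10 * 10 ^ (2 * J + 1) + 1 := by
      unfold fr
      rw [if_neg (by omega), Nat.sub_self, pow_zero]
      congr 1
      rw [← pow_succ']
      congr 1
      omega
    have h3 : (10 : ℕ) ^ (2 * (J + 1) + 1) = 100 * 10 ^ (2 * J + 1) := by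
      rw [show 2 * (J + 1) + 1 = (2 * J + 1) + 2 by ring, pow_add]; ring
    rw [h1, h2, h3]
    omega

/-- differences of size at most eighteen at the tight scale -/
lemma inj18 : ∀ J : ℕ, ∀ z : ℕ → ℤ, (∀ c < J + 1, |z c| ≤ 18) →
    ∑ c ∈ range (J + 1), z c * (fr J c : ℤ) = 0 → ∀ c < J + 1, z c = 0 := by
  intro J
  induction J with
  | zero =>
    intro z _ h0 c hc
    have hc0 : c = 0 := by omega
    subst hc0
    simpa [fr] using h0
  | succ J ih =>
    intro z hz h0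
    rw [Finset.sum_range_succ] at h0
    have h1 : ∑ c ∈ range (J + 1), z c * (fr (J + 1) c : ℤ) =
        10 * ∑ c ∈ range (J + 1), z c * (fr J c : ℤ) := by
      rw [Finset.mul_sum]
      refine Finset.sum_congr rfl fun c hc => ?_
      rw [Finset.mem_range] at hc
      rw [fr_scale (show J ≤ J + 1 by omega) (show c ≤ J by omega)]
      rw [Nat.add_sub_cancel_left, pow_one]
      push_cast
      ring
    have h2 : (fr (J + 1) (J + 1) : ℤ) = 10 * 10 ^ (2 * J + 1) + 1 := by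
      unfold fr
      rw [if_neg (by omega), Nat.sub_self, pow_zero]
      push_cast
      congr 1
      rw [← pow_succ']
      congr 1
      omega
    have hbound : |∑ c ∈ range (J + 1), z c * (fr J c : ℤ)| ≤
        18 * ∑ c ∈ range (J + 1), (fr J c : ℤ) := by
      rw [Finset.mul_sum]
      refine (Finset.abs_sum_le_sum_abs _ _).trans (Finset.sum_le_sum fun c hc => ?_)
      rw [Finset.mem_range] at hc
      rw [abs_mul, abs_of_nonneg (Int.natCast_nonneg (fr J c))]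
      exact mul_le_mul_of_nonneg_right (hz c (by omega)) (Int.natCast_nonneg _)
    have hs : 9 * ∑ c ∈ range (J + 1), (fr J c : ℤ) + 1 = 10 ^ (2 * J + 1) := by
      exact_mod_cast sum_fr J
    rw [h1, h2] at h0
    obtain ⟨Z, hZ⟩ : ∃ Z, ∑ c ∈ range (J + 1), z c * (fr J c : ℤ) = Z := ⟨_, rfl⟩
    obtain ⟨S, hS⟩ : ∃ S, ∑ c ∈ range (J + 1), (fr J c : ℤ) = S := ⟨_, rfl⟩
    obtain ⟨p, hp'⟩ : ∃ p, (10 : ℤ) ^ (2 * J + 1) = p := ⟨_, rfl⟩
    have hp : (0 : ℤ) < p := by rw [← hp']; positivity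
    rw [hZ] at h0 hbound
    rw [hS] at hs hbound
    rw [hp'] at h0 hs
    have hz1 : z (J + 1) = 0 := by
      have h3 : (10 : ℤ) ∣ z (J + 1) := by
        refine ⟨-Z - p * z (J + 1), ?_⟩
        linear_combination h0
      obtain ⟨y, hy⟩ := h3
      rw [abs_le] at hbound
      rw [hy] at h0 ⊢
      have h4 : Z = - y * (10 * p + 1) := by linarith
      have h5 : y = 0 := by
        by_contra hne
        rcases lt_or_gt_of_ne hne with h6 | h6
        · have : y ≤ -1 := by omega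
          nlinarith
        · have : 1 ≤ y := by omega
          nlinarith
      rw [h5]; ring
    rw [hz1] at h0
    have hZ0 : Z = 0 := by linarith
    rw [hZ0] at hZ
    intro c hc
    rcases Nat.lt_succ_iff_lt_or_eq.1 hc with h | h
    · exact ih z (fun c hc => hz c (by omega)) hZ c h
    · rw [h]; exact hz1


/-- average over the fractions with denominator `M` -/
noncomputable def EM (M : ℕ) (f : ℝ → ℝ) : ℝ := (∑ a ∈ range M, f ((a : ℝ) / M)) / M

/-- coefficients -/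
noncomputable def wt (K c i : ℕ) : ℝ :=
  if c < K then ((min (i + 1) (19 - i) : ℕ) : ℝ) else if i < 10 then 1 else 0

lemma norm_wt (K c : ℕ) (β : ℝ) :
    ‖∑ i : Fin 19, ((wt K c i : ℝ) : ℂ) * ee (((i : ℕ) : ℝ) * β)‖ =
      if c < K then 100 * ph β ^ 2 else 10 * ph β := by
  have hz : ∀ n : ℕ, ee ((n : ℝ) * β) = ee β ^ n := fun n => ls_ee_nat_mul n β
  have hph : ‖∑ m ∈ range 10, ee β ^ m‖ = 10 * ph β := by
    unfold ph
    simp only [hz]
    ring
  simp only [hz]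
  split_ifs with h
  · have : ∑ i : Fin 19, ((wt K c i : ℝ) : ℂ) * ee β ^ (i : ℕ) =
        (∑ m ∈ range 10, ee β ^ m) ^ 2 := by
      rw [← Fin.sum_univ_eq_sum_range (fun m => ee β ^ m) 10]
      simp only [wt, if_pos h, Fin.sum_univ_succ, Fin.sum_univ_zero]
      norm_num [Fin.val_succ]
      ring
    rw [this, norm_pow, hph]
    ring
  · have : ∑ i : Fin 19, ((wt K c i : ℝ) : ℂ) * ee β ^ (i : ℕ) =
        ∑ m ∈ range 10, ee β ^ m := by
      rw [← Fin.sum_univ_eq_sum_range (fun m => ee β ^ m) 10]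
      simp only [wt, if_neg h, Fin.sum_univ_succ, Fin.sum_univ_zero]
      norm_num [Fin.val_succ]
    rw [this, hph]

lemma sq_wt (K c : ℕ) : ∑ i : Fin 19, wt K c i ^ 2 = if c < K then 670 else 10 := by
  split_ifs with h
  · simp only [wt, if_pos h, Fin.sum_univ_succ, Fin.sum_univ_zero]
    norm_num [Fin.val_succ]
  · simp only [wt, if_neg h, Fin.sum_univ_succ, Fin.sum_univ_zero]
    norm_num [Fin.val_succ]

/-- the product over `J` digit positions as a trigonometric polynomial -/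
lemma Ps_prod (L K J : ℕ) (hK : K ≤ J) (x : ℝ) :
    ∏ c : Fin J, (if (c : ℕ) < K then 100 * ph (fr L c * x) ^ 2 else 10 * ph (fr L c * x)) =
      100 ^ K * Ps L 0 K x ^ 2 * (10 ^ (J - K) * Ps L K (J - K) x) := by
  rw [Fin.prod_univ_eq_prod_range
    (fun c => if c < K then 100 * ph (fr L c * x) ^ 2 else 10 * ph (fr L c * x)) J]
  obtain ⟨R, rfl⟩ := Nat.exists_eq_add_of_le hK
  rw [Finset.prod_range_add, Nat.add_sub_cancel_left]
  congr 1
  · have : ∀ c ∈ range K, (if c < K then 100 * ph (fr L c * x) ^ 2 else 10 * ph (fr L c * x)) =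
        100 * ph (fr L (0 + c) * x) ^ 2 := by
      intro c hc
      rw [if_pos (Finset.mem_range.1 hc), Nat.zero_add]
    rw [Finset.prod_congr rfl this, Finset.prod_mul_distrib, Finset.prod_const, Finset.card_range,
      Finset.prod_pow]
    rfl
  · have : ∀ c ∈ range R, (if K + c < K then 100 * ph (fr L (K + c) * x) ^ 2 else
        10 * ph (fr L (K + c) * x)) = 10 * ph (fr L (K + c) * x) := by
      intro c _
      rw [if_neg (by omega)]
    rw [Finset.prod_congr rfl this, Finset.prod_mul_distrib, Finset.prod_const, Finset.card_range]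
    rfl

lemma sqA (L K J M : ℕ) (hK : K ≤ J) (hJ : 1 ≤ J) (hJL : J ≤ L) (hM : 10 ^ (2 * J) ≤ M)
    (hc : M.Coprime 10) :
    EM M (fun α => Ps L 0 K α ^ 4 * Ps L K (J - K) α ^ 2) = (67 / 100) ^ K / 10 ^ J := by
  classical
  have hM0 : 0 < M := lt_of_lt_of_le (by positivity) hM
  obtain ⟨J', rfl⟩ : ∃ J', J = J' + 1 := ⟨J - 1, by omega⟩
  unfold EM
  have h1 : ∑ a ∈ range M, (Ps L 0 K ((a : ℝ) / M) ^ 4 * Ps L K (J' + 1 - K) ((a : ℝ) / M) ^ 2) =
      ∑ a ∈ range M, (Ps J' 0 K ((a : ℝ) / M) ^ 4 * Ps J' K (J' + 1 - K) ((a : ℝ) / M) ^ 2) := by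
    rw [← dilate_all hc (L - J') (fun x => Ps J' 0 K x ^ 4 * Ps J' K (J' + 1 - K) x ^ 2)
      (fun x n => by simp only [Ps_add_int])]
    refine Finset.sum_congr rfl fun a _ => ?_
    rw [Ps_scale (L := L) (M := J') (A := 0) (J := K) (by omega) (by omega),
      Ps_scale (L := L) (M := J') (A := K) (J := J' + 1 - K) (by omega) (by omega)]
  rw [h1]
  have h2 : ∀ x : ℝ, Ps J' 0 K x ^ 4 * Ps J' K (J' + 1 - K) x ^ 2 =
      ‖∑ t : Fin (J' + 1) → Fin 19, ((∏ c : Fin (J' + 1), wt K c (t c) : ℝ) : ℂ) *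
        ee (((∑ c : Fin (J' + 1), (t c : ℕ) * fr J' c : ℕ) : ℝ) * x)‖ ^ 2 /
        ((100 ^ K) ^ 2 * (10 ^ (J' + 1 - K)) ^ 2) := by
    intro x
    rw [← expand (J' + 1) 19 (fun c i => wt K c i) (fun c => fr J' c) x, norm_prod]
    rw [Finset.prod_congr rfl fun (c : Fin (J' + 1)) _ => norm_wt K (c : ℕ) (fr J' c * x)]
    rw [Ps_prod J' K (J' + 1) hK x]
    field_simp
  rw [Finset.sum_congr rfl fun (a : ℕ) _ => h2 ((a : ℝ) / M), ← Finset.sum_div,
    pars M hM0 (fun t : Fin (J' + 1) → Fin 19 => ∏ c : Fin (J' + 1), wt K c (t c))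
      (fun t => ∑ c : Fin (J' + 1), (t c : ℕ) * fr J' c)]
  have h3 : ∀ t t' : Fin (J' + 1) → Fin 19,
      ((M : ℤ) ∣ ((∑ c : Fin (J' + 1), (t c : ℕ) * fr J' c : ℕ) : ℤ) - ((∑ c : Fin (J' + 1), (t' c : ℕ) * fr J' c : ℕ) : ℤ)) ↔
        t = t' := by
    intro t t'
    constructor
    · intro hdvd
      -- extend the difference to the naturals
      let z : ℕ → ℤ := fun c => if h : c < J' + 1 then ((t ⟨c, h⟩ : ℕ) : ℤ) - ((t' ⟨c, h⟩ : ℕ) : ℤ)
        else 0
      have hz : ∀ c : Fin (J' + 1), z c = ((t c : ℕ) : ℤ) - ((t' c : ℕ) : ℤ) := by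
        intro c
        simp only [z, dif_pos c.2]
      have hz18 : ∀ c < J' + 1, |z c| ≤ 18 := by
        intro c hc
        have := hz ⟨c, hc⟩
        simp only at this
        rw [this, abs_le]
        have h1 := (t ⟨c, hc⟩).2
        have h2 := (t' ⟨c, hc⟩).2
        constructor <;> omega
      have hsum : ((∑ c : Fin (J' + 1), (t c : ℕ) * fr J' c : ℕ) : ℤ) - ((∑ c : Fin (J' + 1), (t' c : ℕ) * fr J' c : ℕ) : ℤ) =
          ∑ c ∈ range (J' + 1), z c * (fr J' c : ℤ) := by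
        rw [← Fin.sum_univ_eq_sum_range (fun c => z c * (fr J' c : ℤ)) (J' + 1)]
        push_cast
        rw [← Finset.sum_sub_distrib]
        refine Finset.sum_congr rfl fun c _ => ?_
        rw [hz c]; ring
      have hbound : |∑ c ∈ range (J' + 1), z c * (fr J' c : ℤ)| ≤
          18 * ∑ c ∈ range (J' + 1), (fr J' c : ℤ) := by
        rw [Finset.mul_sum]
        refine (Finset.abs_sum_le_sum_abs _ _).trans (Finset.sum_le_sum fun c hc => ?_)
        rw [Finset.mem_range] at hc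
        rw [abs_mul, abs_of_nonneg (Int.natCast_nonneg (fr J' c))]
        exact mul_le_mul_of_nonneg_right (hz18 c hc) (Int.natCast_nonneg _)
      have hs : 9 * ∑ c ∈ range (J' + 1), (fr J' c : ℤ) + 1 = 10 ^ (2 * J' + 1) := by
        exact_mod_cast sum_fr J'
      have hM' : (10 : ℤ) * 10 ^ (2 * J' + 1) ≤ M := by
        have : (10 : ℕ) * 10 ^ (2 * J' + 1) ≤ M := by
          rw [← pow_succ']
          exact hM
        exact_mod_cast this
      rw [hsum] at hdvd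
      have h0 : ∑ c ∈ range (J' + 1), z c * (fr J' c : ℤ) = 0 := by
        refine Int.eq_zero_of_abs_lt_dvd hdvd ?_
        have hp : (0 : ℤ) < 10 ^ (2 * J' + 1) := by positivity
        linarith
      have hall := inj18 J' z hz18 h0
      funext c
      have := hall c c.2
      rw [hz c] at this
      apply Fin.ext
      omega
    · rintro rfl
      simp
  have h4 : ∑ t : Fin (J' + 1) → Fin 19, ∑ t' : Fin (J' + 1) → Fin 19,
      (if (M : ℤ) ∣ ((∑ c : Fin (J' + 1), (t c : ℕ) * fr J' c : ℕ) : ℤ) - ((∑ c : Fin (J' + 1), (t' c : ℕ) * fr J' c : ℕ) : ℤ)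
        then (∏ c : Fin (J' + 1), wt K c (t c)) * (∏ c : Fin (J' + 1), wt K c (t' c)) else 0) =
      670 ^ K * 10 ^ (J' + 1 - K) := by
    have e1 : ∀ t : Fin (J' + 1) → Fin 19, ∑ t' : Fin (J' + 1) → Fin 19,
      (if (M : ℤ) ∣ ((∑ c : Fin (J' + 1), (t c : ℕ) * fr J' c : ℕ) : ℤ) - ((∑ c : Fin (J' + 1), (t' c : ℕ) * fr J' c : ℕ) : ℤ)
        then (∏ c : Fin (J' + 1), wt K c (t c)) * (∏ c : Fin (J' + 1), wt K c (t' c)) else 0) = ∏ c : Fin (J' + 1), wt K c (t c) ^ 2 := by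
      intro t
      simp only [h3]
      rw [Finset.sum_ite_eq]
      simp only [Finset.mem_univ, if_true]
      rw [Finset.prod_pow]
      ring
    rw [Finset.sum_congr rfl fun t _ => e1 t]
    have e2 := Finset.prod_univ_sum (fun _ : Fin (J' + 1) => (univ : Finset (Fin 19)))
      (fun c i => wt K c i ^ 2)
    rw [Fintype.piFinset_univ] at e2
    rw [← e2, Finset.prod_congr rfl fun (c : Fin (J' + 1)) _ => sq_wt K (c : ℕ)]
    rw [Fin.prod_univ_eq_prod_range (fun c => if c < K then (670 : ℝ) else 10) (J' + 1)]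
    obtain ⟨R, hR⟩ := Nat.exists_eq_add_of_le hK
    rw [hR, Finset.prod_range_add, Nat.add_sub_cancel_left]
    congr 1
    · rw [Finset.prod_congr rfl (g := fun _ => (670 : ℝ))
        (fun c hc => if_pos (Finset.mem_range.1 hc)), Finset.prod_const, Finset.card_range]
    · rw [Finset.prod_congr rfl (g := fun _ => (10 : ℝ))
        (fun c _ => if_neg (by omega)), Finset.prod_const, Finset.card_range]
  rw [h4]
  obtain ⟨R, hR⟩ := Nat.exists_eq_add_of_le hK
  rw [hR, Nat.add_sub_cancel_left]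
  have hM1 : (M : ℝ) ≠ 0 := by exact_mod_cast hM0.ne'
  rw [div_pow, pow_add]
  have e3 : (670 : ℝ) ^ K = 67 ^ K * 10 ^ K := by rw [← mul_pow]; norm_num
  have e4 : (100 : ℝ) ^ K = 10 ^ K * 10 ^ K := by rw [← mul_pow]; norm_num
  rw [e3, e4]
  field_simp

/-- the value of a block of digits -/
def NN (L A J : ℕ) (x : Fin J → Fin 10) : ℕ := ∑ j : Fin J, (x j : ℕ) * fr L (A + j)

lemma norm_one (β : ℝ) :
    ‖∑ i : Fin 10, (((fun _ : ℕ => (1 : ℝ)) i : ℝ) : ℂ) * ee (((i : ℕ) : ℝ) * β)‖ = 10 * ph β := by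
  unfold ph
  simp only [Complex.ofReal_one, one_mul]
  rw [Fin.sum_univ_eq_sum_range (fun m => ee ((m : ℝ) * β)) 10]
  ring

lemma Ps_expand (L A J : ℕ) (x : ℝ) :
    ‖∑ t : Fin J → Fin 10, (((1 : ℝ) : ℝ) : ℂ) * ee (((NN L A J t : ℕ) : ℝ) * x)‖ =
      10 ^ J * Ps L A J x := by
  have h := expand J 10 (fun _ _ => (1 : ℝ)) (fun j => fr L (A + j)) x
  simp only [Finset.prod_const_one] at h
  unfold NN
  rw [← h, norm_prod]
  have : ∀ c : Fin J, ‖∑ i : Fin 10, ((1 : ℝ) : ℂ) * ee (((i : ℕ) : ℝ) * (fr L (A + c) * x))‖ =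
      10 * ph (fr L (A + (c : ℕ)) * x) := fun c => norm_one _
  rw [Finset.prod_congr rfl fun c _ => this c]
  rw [Fin.prod_univ_eq_prod_range (fun c => 10 * ph (fr L (A + c) * x)) J,
    Finset.prod_mul_distrib, Finset.prod_const, Finset.card_range]
  rfl

open Classical in
lemma EM_block (L A J M : ℕ) (hM : 0 < M) :
    EM M (fun α => Ps L A J α ^ 2) =
      (∑ x : Fin J → Fin 10, ∑ y : Fin J → Fin 10,
        if (M : ℤ) ∣ (NN L A J x : ℤ) - NN L A J y then (1 : ℝ) else 0) / 10 ^ (2 * J) := by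
  unfold EM
  have h2 : ∀ x : ℝ, Ps L A J x ^ 2 =
      ‖∑ t : Fin J → Fin 10, (((1 : ℝ) : ℝ) : ℂ) * ee (((NN L A J t : ℕ) : ℝ) * x)‖ ^ 2 /
        10 ^ (2 * J) := by
    intro x
    rw [Ps_expand, mul_pow, ← pow_mul, mul_comm J 2]
    field_simp
  rw [Finset.sum_congr rfl fun (a : ℕ) _ => h2 ((a : ℝ) / M), ← Finset.sum_div,
    pars M hM (fun _ => (1 : ℝ)) (fun t => NN L A J t)]
  have hM1 : (M : ℝ) ≠ 0 := by exact_mod_cast hM.ne'
  simp only [mul_one]
  field_simp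

lemma NN_sub (L A J : ℕ) (x y : Fin J → Fin 10) (z : ℕ → ℤ)
    (hz : ∀ c : Fin J, z c = ((x c : ℕ) : ℤ) - ((y c : ℕ) : ℤ)) :
    (NN L A J x : ℤ) - NN L A J y = ∑ c ∈ range J, z c * (fr L (A + c) : ℤ) := by
  rw [← Fin.sum_univ_eq_sum_range (fun c => z c * (fr L (A + c) : ℤ)) J]
  unfold NN
  push_cast
  rw [← Finset.sum_sub_distrib]
  refine Finset.sum_congr rfl fun c _ => ?_
  rw [hz c]; ring

lemma NN_inj (L A J : ℕ) (hA : A + J ≤ L) (x y : Fin J → Fin 10)
    (h : (NN L A J x : ℤ) - NN L A J y = 0) : x = y := by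
  let z : ℕ → ℤ := fun c => if h : c < J then ((x ⟨c, h⟩ : ℕ) : ℤ) - ((y ⟨c, h⟩ : ℕ) : ℤ) else 0
  have hz : ∀ c : Fin J, z c = ((x c : ℕ) : ℤ) - ((y c : ℕ) : ℤ) := by
    intro c
    simp only [z, dif_pos c.2]
  rw [NN_sub L A J x y z hz] at h
  have hz9 : ∀ c < J, |z c| ≤ 9 := by
    intro c hc
    have := hz ⟨c, hc⟩
    simp only at this
    rw [this, abs_le]
    have h1 := (x ⟨c, hc⟩).2
    have h2 := (y ⟨c, hc⟩).2
    constructor <;> omega
  have hall := inj9 L A J hA z hz9 h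
  funext c
  have := hall c c.2
  rw [hz c] at this
  apply Fin.ext
  omega

lemma NN_le (L A J : ℕ) (hA : A + J ≤ L) (x : Fin J → Fin 10) :
    NN L A J x ≤ 10 ^ (2 * L + 1) := by
  have h1 : NN L A J x ≤ 9 * ∑ c ∈ range J, fr L (A + c) := by
    unfold NN
    rw [Finset.mul_sum, ← Fin.sum_univ_eq_sum_range (fun c => 9 * fr L (A + c)) J]
    refine Finset.sum_le_sum fun j _ => Nat.mul_le_mul_right _ ?_
    have := (x j).2
    omega
  have h2 : ∑ c ∈ range J, fr L (A + c) ≤ ∑ c ∈ range (L + 1), fr L c := by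
    have e : ∑ c ∈ range J, fr L (A + c) = ∑ c ∈ (range J).image (fun c => A + c), fr L c := by
      rw [Finset.sum_image]
      intro a _ b _ h
      exact Nat.add_left_cancel h
    rw [e]
    refine Finset.sum_le_sum_of_subset ?_
    intro c hc
    obtain ⟨d, hd, rfl⟩ := Finset.mem_image.1 hc
    rw [Finset.mem_range] at hd ⊢
    omega
  have h3 := sum_fr L
  omega

lemma sqB (L A J P : ℕ) (T : ℝ) (hA : A + J ≤ L)
    (hT : ∀ n : ℕ, 1 ≤ n → n ≤ 10 ^ (2 * L + 1) → (n.divisors.card : ℝ) ≤ T)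
    (hP : P ≤ 10 * 10 ^ J) (hP1 : 1 ≤ P) :
    ∑ m ∈ (Ico P (2 * P)).filter (fun m => m.Coprime 10),
      EM (m ^ 2) (fun α => Ps L A J α ^ 2) ≤ 10 + T := by
  classical
  have hT1 : 0 ≤ T := by
    have := hT 1 le_rfl (Nat.one_le_pow _ _ (by norm_num))
    exact (Nat.cast_nonneg _).trans this
  have h1 : ∑ m ∈ (Ico P (2 * P)).filter (fun m => m.Coprime 10),
      EM (m ^ 2) (fun α => Ps L A J α ^ 2) =
      (∑ x : Fin J → Fin 10, ∑ y : Fin J → Fin 10,
        ∑ m ∈ (Ico P (2 * P)).filter (fun m => m.Coprime 10),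
          if ((m ^ 2 : ℕ) : ℤ) ∣ (NN L A J x : ℤ) - NN L A J y then (1 : ℝ) else 0) /
        10 ^ (2 * J) := by
    have : ∀ m ∈ (Ico P (2 * P)).filter (fun m => m.Coprime 10),
        EM (m ^ 2) (fun α => Ps L A J α ^ 2) =
        (∑ x : Fin J → Fin 10, ∑ y : Fin J → Fin 10,
          if ((m ^ 2 : ℕ) : ℤ) ∣ (NN L A J x : ℤ) - NN L A J y then (1 : ℝ) else 0) /
          10 ^ (2 * J) := by
      intro m hm
      rw [Finset.mem_filter, Finset.mem_Ico] at hm
      exact EM_block L A J (m ^ 2) (pow_pos (by omega) 2)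
    rw [Finset.sum_congr rfl this, ← Finset.sum_div, Finset.sum_comm]
    congr 1
    refine Finset.sum_congr rfl fun x _ => ?_
    rw [Finset.sum_comm]
  rw [h1, div_le_iff₀ (by positivity)]
  have h2 : ∀ x y : Fin J → Fin 10,
      (∑ m ∈ (Ico P (2 * P)).filter (fun m => m.Coprime 10),
          if ((m ^ 2 : ℕ) : ℤ) ∣ (NN L A J x : ℤ) - NN L A J y then (1 : ℝ) else 0) ≤
        (if x = y then (P : ℝ) else 0) + T := by
    intro x y
    rw [← Finset.sum_filter, Finset.sum_const, nsmul_eq_mul, mul_one]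
    split_ifs with hxy
    · have : (((Ico P (2 * P)).filter (fun m => m.Coprime 10)).filter
          (fun m => ((m ^ 2 : ℕ) : ℤ) ∣ (NN L A J x : ℤ) - NN L A J y)).card ≤ P := by
        refine (Finset.card_filter_le _ _).trans ((Finset.card_filter_le _ _).trans ?_)
        rw [Nat.card_Ico]; omega
      have : ((((Ico P (2 * P)).filter (fun m => m.Coprime 10)).filter
          (fun m => ((m ^ 2 : ℕ) : ℤ) ∣ (NN L A J x : ℤ) - NN L A J y)).card : ℝ) ≤ P := by
        exact_mod_cast this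
      linarith
    · rw [zero_add]
      have hne : (NN L A J x : ℤ) - NN L A J y ≠ 0 := fun h => hxy (NN_inj L A J hA x y h)
      have hx := NN_le L A J hA x
      have hy := NN_le L A J hA y
      refine le_trans ?_ (hT ((NN L A J x : ℤ) - NN L A J y).natAbs (by omega) (by omega))
      have : (((Ico P (2 * P)).filter (fun m => m.Coprime 10)).filter
          (fun m => ((m ^ 2 : ℕ) : ℤ) ∣ (NN L A J x : ℤ) - NN L A J y)) ⊆
          ((NN L A J x : ℤ) - NN L A J y).natAbs.divisors := by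
        intro m hm
        rw [Finset.mem_filter] at hm
        rw [Nat.mem_divisors]
        refine ⟨?_, by omega⟩
        have h3 : (m ^ 2) ∣ ((NN L A J x : ℤ) - NN L A J y).natAbs := by
          have := Int.natAbs_dvd_natAbs.2 hm.2
          rwa [Int.natAbs_natCast] at this
        exact (dvd_pow_self m (by norm_num)).trans h3
      exact_mod_cast Finset.card_le_card this
  have h3 : (∑ x : Fin J → Fin 10, ∑ y : Fin J → Fin 10,
        ∑ m ∈ (Ico P (2 * P)).filter (fun m => m.Coprime 10),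
          if ((m ^ 2 : ℕ) : ℤ) ∣ (NN L A J x : ℤ) - NN L A J y then (1 : ℝ) else 0) ≤
      ∑ x : Fin J → Fin 10, ∑ y : Fin J → Fin 10, ((if x = y then (P : ℝ) else 0) + T) :=
    Finset.sum_le_sum fun x _ => Finset.sum_le_sum fun y _ => h2 x y
  refine h3.trans ?_
  have h4 : ∑ x : Fin J → Fin 10, ∑ y : Fin J → Fin 10, ((if x = y then (P : ℝ) else 0) + T) =
      10 ^ J * P + 10 ^ J * 10 ^ J * T := by
    simp only [Finset.sum_add_distrib, Finset.sum_ite_eq, Finset.mem_univ, if_true,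
      Finset.sum_const, Finset.card_univ, Fintype.card_pi, Fintype.card_fin, Finset.prod_const,
      nsmul_eq_mul]
    push_cast
    ring
  rw [h4]
  have h5 : (P : ℝ) ≤ 10 * 10 ^ J := by exact_mod_cast hP
  have h6 : (10 : ℝ) ^ (2 * J) = 10 ^ J * 10 ^ J := by rw [two_mul, pow_add]
  rw [h6]
  have h7 : (0 : ℝ) < 10 ^ J := by positivity
  nlinarith [mul_le_mul_of_nonneg_left h5 h7.le]

lemma pv_eq (L : ℕ) (m : Fin L → Fin 10) : pv L m = 10 ^ (2 * L) + 1 + NN L 0 L m := by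
  unfold pv NN
  simp only [Nat.zero_add]

lemma norm_pv (L : ℕ) (x : ℝ) :
    ‖∑ m : Fin L → Fin 10, ee ((pv L m : ℝ) * x)‖ = 10 ^ L * Ps L 0 L x := by
  rw [← Ps_expand]
  have : ∀ m : Fin L → Fin 10, ee ((pv L m : ℝ) * x) =
      ee (((10 ^ (2 * L) + 1 : ℕ) : ℝ) * x) * ((((1 : ℝ) : ℝ) : ℂ) *
        ee (((NN L 0 L m : ℕ) : ℝ) * x)) := by
    intro m
    rw [pv_eq, Complex.ofReal_one, one_mul, ← ls_ee_add]
    congr 1
    push_cast; ring
  rw [Finset.sum_congr rfl fun m _ => this m, ← Finset.mul_sum, norm_mul, ls_norm_ee, one_mul]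

lemma cnt_le (L M : ℕ) (hM : 0 < M) : cnt L M 0 ≤ 10 ^ L * EM M (Ps L 0 L) := by
  classical
  have hM1 : (0 : ℝ) < M := by exact_mod_cast hM
  have h1 : ((M * cnt L M 0 : ℝ) : ℂ) =
      ∑ a ∈ range M, ∑ m : Fin L → Fin 10, ee ((pv L m : ℝ) * ((a : ℝ) / M)) := by
    rw [Finset.sum_comm]
    have h2 : ∀ m : Fin L → Fin 10, ∑ a ∈ range M, ee ((pv L m : ℝ) * ((a : ℝ) / M)) =
        if pv L m ≡ 0 [MOD M] then (M : ℂ) else 0 := by
      intro m
      have h3 := orth M hM (pv L m : ℤ)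
      rw [Int.cast_natCast] at h3
      rw [h3]
      have h4 : ((M : ℤ) ∣ (pv L m : ℤ)) ↔ pv L m ≡ 0 [MOD M] := by
        rw [Int.natCast_dvd_natCast, Nat.modEq_zero_iff_dvd]
      simp only [h4]
    rw [Finset.sum_congr rfl fun m _ => h2 m, ← Finset.sum_filter, Finset.sum_const, nsmul_eq_mul]
    unfold cnt
    push_cast
    ring
  have h2 : (M : ℝ) * cnt L M 0 ≤ ∑ a ∈ range M, 10 ^ L * Ps L 0 L ((a : ℝ) / M) := by
    have h3 : (0 : ℝ) ≤ M * cnt L M 0 := by
      unfold cnt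
      positivity
    have h4 : ‖((M * cnt L M 0 : ℝ) : ℂ)‖ = M * cnt L M 0 := by
      rw [Complex.norm_real, Real.norm_of_nonneg h3]
    rw [← h4, h1]
    refine (norm_sum_le _ _).trans (le_of_eq ?_)
    refine Finset.sum_congr rfl fun a _ => norm_pv L _
  unfold EM
  rw [← Finset.mul_sum] at h2
  rw [← mul_div_assoc, le_div_iff₀ hM1]
  linarith

lemma Ps_split (L K J : ℕ) (hK : K ≤ J) (hKJ : K + 2 * J ≤ L) (lam : ℝ) (hl : 0 < lam) (x : ℝ) :
    Ps L 0 L x ≤ lam * (Ps L K J x * Ps L (J + K) J x) +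
      lam⁻¹ * ((Ps L 0 K x ^ 2 * Ps L K (J - K) x) * Ps L (J + K) J x) := by
  have h1 : Ps L 0 L x ≤ Ps L 0 (2 * J + K) x := by
    obtain ⟨R, hR⟩ := Nat.exists_eq_add_of_le (show 2 * J + K ≤ L by omega)
    have e : Ps L 0 L x = Ps L 0 (2 * J + K) x * Ps L (0 + (2 * J + K)) R x := by
      rw [← Ps_add, ← hR]
    rw [e]
    exact mul_le_of_le_one_right (Ps_nonneg _ _ _ _) (Ps_le_one _ _ _ _)
  have h2 : Ps L 0 (2 * J + K) x = Ps L 0 K x * Ps L K (J - K) x * Ps L J K x *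
      Ps L (J + K) J x := by
    have e1 : 2 * J + K = ((K + (J - K)) + K) + J := by omega
    rw [e1, Ps_add, Ps_add, Ps_add]
    have e2 : 0 + (K + (J - K)) = J := by omega
    have e3 : 0 + (K + (J - K) + K) = J + K := by omega
    have e4 : 0 + K = K := by omega
    rw [e2, e3, e4]
  have h3 : Ps L K J x = Ps L K (J - K) x * Ps L J K x := by
    have e1 : J = (J - K) + K := by omega
    conv_lhs => rw [e1, Ps_add]
    have e2 : K + (J - K) = J := by omega
    rw [e2]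
  have ha0 := Ps_nonneg L 0 K x
  have hb0 := Ps_nonneg L K (J - K) x
  have hc0 := Ps_nonneg L J K x
  have hc1 := Ps_le_one L J K x
  have hd0 := Ps_nonneg L (J + K) J x
  rw [h3]
  refine h1.trans ?_
  rw [h2]
  generalize Ps L 0 K x = a at *
  generalize Ps L K (J - K) x = b at *
  generalize Ps L J K x = c at *
  generalize Ps L (J + K) J x = d at *
  have key : a ≤ lam + lam⁻¹ * a ^ 2 := by
    rcases le_total a lam with h | h
    · have : 0 ≤ lam⁻¹ * a ^ 2 := by positivity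
      linarith
    · have h5 : 1 ≤ lam⁻¹ * a := by
        rw [inv_mul_eq_div, le_div_iff₀ hl]; linarith
      have h6 : a ≤ (lam⁻¹ * a) * a := le_mul_of_one_le_left ha0 h5
      have h7 : (lam⁻¹ * a) * a = lam⁻¹ * a ^ 2 := by ring
      linarith
  have hbcd : 0 ≤ b * c * d := by positivity
  calc a * b * c * d = a * (b * c * d) := by ring
    _ ≤ (lam + lam⁻¹ * a ^ 2) * (b * c * d) := mul_le_mul_of_nonneg_right key hbcd
    _ = lam * (b * c * d) + (lam⁻¹ * (a ^ 2 * b * d)) * c := by ring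
    _ ≤ lam * (b * c * d) + (lam⁻¹ * (a ^ 2 * b * d)) * 1 := by
        refine add_le_add le_rfl (mul_le_mul_of_nonneg_left hc1 (by positivity))
    _ = _ := by ring

/-- Cauchy-Schwarz for averages over several moduli -/
lemma cs (s : Finset ℕ) (F G : ℝ → ℝ) (X Y : ℝ) (hX : ∑ m ∈ s, EM (m ^ 2) (fun x => F x ^ 2) ≤ X)
    (hY : ∑ m ∈ s, EM (m ^ 2) (fun x => G x ^ 2) ≤ Y) :
    ∑ m ∈ s, EM (m ^ 2) (fun x => F x * G x) ≤ Real.sqrt X * Real.sqrt Y := by
  have hsig : ∀ H : ℝ → ℝ, ∑ m ∈ s, EM (m ^ 2) H =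
      ∑ p ∈ s.sigma (fun m => range (m ^ 2)), H ((p.2 : ℝ) / ((p.1 ^ 2 : ℕ) : ℝ)) /
        ((p.1 ^ 2 : ℕ) : ℝ) := by
    intro H
    rw [Finset.sum_sigma]
    refine Finset.sum_congr rfl fun m _ => ?_
    unfold EM
    rw [Finset.sum_div]
  rw [hsig] at hX hY ⊢
  have h1 := Finset.sum_mul_sq_le_sq_mul_sq (s.sigma (fun m => range (m ^ 2)))
    (fun p => F ((p.2 : ℝ) / ((p.1 ^ 2 : ℕ) : ℝ)) / Real.sqrt ((p.1 ^ 2 : ℕ) : ℝ))
    (fun p => G ((p.2 : ℝ) / ((p.1 ^ 2 : ℕ) : ℝ)) / Real.sqrt ((p.1 ^ 2 : ℕ) : ℝ))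
  have hs : ∀ n : ℕ, Real.sqrt (n : ℝ) ^ 2 = n := fun n => Real.sq_sqrt (Nat.cast_nonneg _)
  have e1 : ∀ p : (_ : ℕ) × ℕ, F ((p.2 : ℝ) / ((p.1 ^ 2 : ℕ) : ℝ)) / Real.sqrt ((p.1 ^ 2 : ℕ) : ℝ) *
      (G ((p.2 : ℝ) / ((p.1 ^ 2 : ℕ) : ℝ)) / Real.sqrt ((p.1 ^ 2 : ℕ) : ℝ)) =
      F ((p.2 : ℝ) / ((p.1 ^ 2 : ℕ) : ℝ)) * G ((p.2 : ℝ) / ((p.1 ^ 2 : ℕ) : ℝ)) /
        ((p.1 ^ 2 : ℕ) : ℝ) := by
    intro p
    rw [div_mul_div_comm, ← pow_two, hs]
  have e2 : ∀ (H : ℝ → ℝ) (p : (_ : ℕ) × ℕ),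
      (H ((p.2 : ℝ) / ((p.1 ^ 2 : ℕ) : ℝ)) / Real.sqrt ((p.1 ^ 2 : ℕ) : ℝ)) ^ 2 =
      H ((p.2 : ℝ) / ((p.1 ^ 2 : ℕ) : ℝ)) ^ 2 / ((p.1 ^ 2 : ℕ) : ℝ) := by
    intro H p
    rw [div_pow, hs]
  rw [Finset.sum_congr rfl fun p _ => e1 p, Finset.sum_congr rfl fun p _ => e2 F p,
    Finset.sum_congr rfl fun p _ => e2 G p] at h1
  have hX0 : 0 ≤ ∑ p ∈ s.sigma (fun m => range (m ^ 2)),
      F ((p.2 : ℝ) / ((p.1 ^ 2 : ℕ) : ℝ)) ^ 2 / ((p.1 ^ 2 : ℕ) : ℝ) :=
    Finset.sum_nonneg fun p _ => by positivity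
  have hY0 : 0 ≤ ∑ p ∈ s.sigma (fun m => range (m ^ 2)),
      G ((p.2 : ℝ) / ((p.1 ^ 2 : ℕ) : ℝ)) ^ 2 / ((p.1 ^ 2 : ℕ) : ℝ) :=
    Finset.sum_nonneg fun p _ => by positivity
  rw [← Real.sqrt_mul (hX0.trans hX)]
  refine Real.le_sqrt_of_sq_le (h1.trans ?_)
  exact mul_le_mul hX hY hY0 (hX0.trans hX)

lemma EM_mono (M : ℕ) (F G : ℝ → ℝ) (h : ∀ x, F x ≤ G x) : EM M F ≤ EM M G := by
  unfold EM
  exact div_le_div_of_nonneg_right (Finset.sum_le_sum fun a _ => h _) (Nat.cast_nonneg _)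

lemma EM_lin (M : ℕ) (F G : ℝ → ℝ) (a b : ℝ) :
    EM M (fun x => a * F x + b * G x) = a * EM M F + b * EM M G := by
  unfold EM
  rw [Finset.sum_add_distrib, ← Finset.mul_sum, ← Finset.mul_sum]
  ring

/-- T9a (file T9.lean): squares -/
theorem sq_block (L k J P : ℕ) (T : ℝ)
    (hT : ∀ n : ℕ, 1 ≤ n → n ≤ 10 ^ (2 * L + 1) → (n.divisors.card : ℝ) ≤ T)
    (hk : 4 * k ≤ J) (hJ : 1 ≤ J) (hkJ : 4 * k + 2 * J ≤ L) (h1 : 10 ^ J ≤ P) (h2 : P ≤ 10 * 10 ^ J) :
    ∑ m ∈ (Ico P (2 * P)).filter (fun m => m.Coprime 10), cnt L (m ^ 2) 0 ≤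
      100 * 10 ^ L * T * (67 / 100) ^ k := by
  have hP1 : 1 ≤ P := (Nat.one_le_pow _ _ (by norm_num)).trans h1
  have hT1 : 1 ≤ T := by
    have := hT 1 le_rfl (Nat.one_le_pow _ _ (by norm_num))
    simpa using this
  obtain ⟨lam, hlam⟩ : ∃ lam : ℝ, ((67 : ℝ) / 100) ^ k = lam := ⟨_, rfl⟩
  have hl : 0 < lam := by rw [← hlam]; positivity
  obtain ⟨s, hs⟩ : ∃ s, (Ico P (2 * P)).filter (fun m => m.Coprime 10) = s := ⟨_, rfl⟩
  have hB1 := sqB L (4 * k) J P T (by omega) hT h2 hP1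
  have hB2 := sqB L (J + 4 * k) J P T (by omega) hT h2 hP1
  have hA : ∑ m ∈ s, EM (m ^ 2)
      (fun x => (Ps L 0 (4 * k) x ^ 2 * Ps L (4 * k) (J - 4 * k) x) ^ 2) ≤ 10 * lam ^ 4 := by
    have e1 : ∀ m ∈ s, EM (m ^ 2)
        (fun x => (Ps L 0 (4 * k) x ^ 2 * Ps L (4 * k) (J - 4 * k) x) ^ 2) =
        lam ^ 4 / 10 ^ J := by
      intro m hm
      rw [← hs, Finset.mem_filter, Finset.mem_Ico] at hm
      have e2 := sqA L (4 * k) J (m ^ 2) hk hJ (by omega) (by
        calc 10 ^ (2 * J) = (10 ^ J) ^ 2 := by rw [← pow_mul, mul_comm]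
          _ ≤ m ^ 2 := Nat.pow_le_pow_left (h1.trans hm.1.1) 2) (hm.2.pow_left 2)
      rw [← hlam, ← pow_mul, mul_comm k 4, ← e2]
      congr 1
      funext x
      ring
    rw [Finset.sum_congr rfl e1, Finset.sum_const, nsmul_eq_mul]
    have e3 : (s.card : ℝ) ≤ 10 * 10 ^ J := by
      have : s.card ≤ 10 * 10 ^ J := by
        rw [← hs]
        refine (Finset.card_filter_le _ _).trans ?_
        rw [Nat.card_Ico]; omega
      exact_mod_cast this
    have e4 : (0 : ℝ) < 10 ^ J := by positivity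
    rw [← mul_div_assoc, div_le_iff₀ e4]
    have e5 : (0 : ℝ) ≤ lam ^ 4 := by positivity
    nlinarith [mul_le_mul_of_nonneg_right e3 e5]
  rw [hs] at hB1 hB2 ⊢
  have hC1 := cs s _ _ _ _ hB1 hB2
  have hC2 := cs s _ _ _ _ hA hB2
  have hmain : ∑ m ∈ s, cnt L (m ^ 2) 0 ≤ 10 ^ L *
      (lam * (Real.sqrt (10 + T) * Real.sqrt (10 + T)) +
        lam⁻¹ * (Real.sqrt (10 * lam ^ 4) * Real.sqrt (10 + T))) := by
    calc ∑ m ∈ s, cnt L (m ^ 2) 0 ≤ ∑ m ∈ s, 10 ^ L * (lam * EM (m ^ 2)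
          (fun x => Ps L (4 * k) J x * Ps L (J + 4 * k) J x) + lam⁻¹ * EM (m ^ 2)
          (fun x => (Ps L 0 (4 * k) x ^ 2 * Ps L (4 * k) (J - 4 * k) x) *
            Ps L (J + 4 * k) J x)) := by
          refine Finset.sum_le_sum fun m hm => ?_
          rw [← hs, Finset.mem_filter, Finset.mem_Ico] at hm
          refine (cnt_le L (m ^ 2) (pow_pos (by omega) 2)).trans ?_
          refine mul_le_mul_of_nonneg_left ?_ (by positivity)
          rw [← EM_lin]
          exact EM_mono _ _ _ fun x => Ps_split L (4 * k) J hk (by omega) lam hl x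
      _ = 10 ^ L * (lam * ∑ m ∈ s, EM (m ^ 2)
          (fun x => Ps L (4 * k) J x * Ps L (J + 4 * k) J x) + lam⁻¹ * ∑ m ∈ s, EM (m ^ 2)
          (fun x => (Ps L 0 (4 * k) x ^ 2 * Ps L (4 * k) (J - 4 * k) x) *
            Ps L (J + 4 * k) J x)) := by
          rw [← Finset.mul_sum, Finset.sum_add_distrib, ← Finset.mul_sum, ← Finset.mul_sum]
      _ ≤ _ := by
          refine mul_le_mul_of_nonneg_left ?_ (by positivity)
          exact add_le_add (mul_le_mul_of_nonneg_left hC1 hl.le)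
            (mul_le_mul_of_nonneg_left hC2 (inv_nonneg.2 hl.le))
  refine hmain.trans ?_
  rw [hlam]
  have f1 : Real.sqrt (10 + T) * Real.sqrt (10 + T) ≤ 11 * T := by
    rw [Real.mul_self_sqrt (by linarith)]; linarith
  have f2 : Real.sqrt (10 * lam ^ 4) ≤ 4 * lam ^ 2 := by
    rw [Real.sqrt_le_left (by positivity)]
    nlinarith [sq_nonneg (lam ^ 2)]
  have f3 : Real.sqrt (10 + T) ≤ 4 * T := by
    rw [Real.sqrt_le_left (by positivity)]
    nlinarith
  have f4 : lam⁻¹ * (Real.sqrt (10 * lam ^ 4) * Real.sqrt (10 + T)) ≤ 16 * T * lam := by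
    have g1 : Real.sqrt (10 * lam ^ 4) * Real.sqrt (10 + T) ≤ (4 * lam ^ 2) * (4 * T) :=
      mul_le_mul f2 f3 (Real.sqrt_nonneg _) (by positivity)
    calc lam⁻¹ * (Real.sqrt (10 * lam ^ 4) * Real.sqrt (10 + T)) ≤
        lam⁻¹ * ((4 * lam ^ 2) * (4 * T)) :=
          mul_le_mul_of_nonneg_left g1 (inv_nonneg.2 hl.le)
      _ = 16 * T * lam := by field_simp; ring
  have f5 : lam * (Real.sqrt (10 + T) * Real.sqrt (10 + T)) ≤ lam * (11 * T) :=
    mul_le_mul_of_nonneg_left f1 hl.le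
  calc 10 ^ L * (lam * (Real.sqrt (10 + T) * Real.sqrt (10 + T)) +
        lam⁻¹ * (Real.sqrt (10 * lam ^ 4) * Real.sqrt (10 + T))) ≤
      10 ^ L * (lam * (11 * T) + 16 * T * lam) :=
        mul_le_mul_of_nonneg_left (add_le_add f5 f4) (by positivity)
    _ ≤ 100 * 10 ^ L * T * lam := by
        have : (0 : ℝ) ≤ 10 ^ L * (T * lam) := by positivity
        nlinarith

end Pool.Agent.H985R2.Pal
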