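import Pool.Agent.H973R2.Exp3

/-!
# Half-plane arms of critical bond percolation on `ℤ²` at all scales (geometry)

The half-plane is `{x ≤ p}` and boxes are centred at the boundary vertex `(p, j)`.
-/

set_option autoImplicit false
set_option maxHeartbeats 400000

namespace H985BT

open H974 H973 Finset

/-- the left, lower and upper sides of the half box of radius `n` -/
def onH (p j n : ℤ) (v : Vtx) : Prop := v.1 = p - n ∨ v.2 = j - n ∨ v.2 = j + n

/-- the half box as a set of edges -/
noncomputable def HE (p j n : ℤ) : Finset Edg := RE (p - n) p (j - n) (j + n)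

/-- `u` lies in the half box -/
def inH (p j n : ℤ) (u : Vtx) : Prop := inR (p - n) p (j - n) (j + n) u

/-- arm from `(p, j)` to distance `n` -/
def Arm (p j n : ℤ) (F : Finset Edg) : Prop :=
  ∃ v, onH p j n v ∧ Reach (↑F ∩ ↑(HE p j n)) (p, j) v

/-- crossing of the half annulus, from distance at most `r` to distance `n` -/
def Crs (p j r n : ℤ) (F : Finset Edg) : Prop :=
  ∃ u v, inH p j r u ∧ onH p j n v ∧ Reach (↑F ∩ ↑(HE p j n)) u v

/-- half circuit in the half annulus -/
def SC (p j r1 r2 : ℤ) (F : Finset Edg) : Prop :=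
  LRc (p - r2) p (j + r1) (j + r2) F ∧ LRc (p - r2) p (j - r2) (j - r1) F ∧
    TBc (p - r2) (p - r1) (j - r2) (j + r2) F

theorem HE_mono {p j r n : ℤ} (h : r ≤ n) : HE p j r ⊆ HE p j n := by
  unfold HE
  exact RE_subset (by omega) le_rfl (by omega) (by omega)

/-- A path in the half-plane which leaves a half box visits its left, lower or upper side. -/
theorem hexit {G : Set Edg} {p j r : ℤ} (hG : ∀ e ∈ G, (src e).1 ≤ p ∧ (tgt e).1 ≤ p)
    {u v : Vtx} (hu : inH p j r u) (h : Reach G u v)
    (hv : v.1 ≤ p - r ∨ v.2 ≤ j - r ∨ j + r ≤ v.2) :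
    ∃ w, inH p j r w ∧ onH p j r w ∧ Reach (G ∩ ↑(HE p j r)) u w := by
  have hu' : inR (p - r) (p + 1) (j - r) (j + r) u := by
    unfold inH inR at hu
    unfold inR
    omega
  obtain ⟨w, h1, h2, h3⟩ := first_exit (a := p - r) (b := p + 1) (c := j - r) (d := j + r) hu' h
    (by omega)
  have hle : ∀ w : Vtx, Reach (G ∩ ↑(RE (p - r) (p + 1) (j - r) (j + r))) u w → w.1 ≤ p := by
    intro w hw
    induction hw with
    | refl => unfold inH inR at hu; omega
    | tail _ hs _ =>
      obtain ⟨e, ⟨he, _⟩, hc⟩ := hs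
      have := hG e he
      rcases hc with ⟨k1, k2⟩ | ⟨k1, k2⟩
      · rw [← k2]; exact this.2
      · rw [← k1]; exact this.1
  have hwp := hle w h3
  have hin : inH p j r w := by
    unfold inH inR
    unfold inR at h1
    omega
  refine ⟨w, hin, ?_, ?_⟩
  · unfold onH
    omega
  · refine h3.mono ?_
    rintro e ⟨he1, he2⟩
    refine ⟨he1, ?_⟩
    rw [Finset.mem_coe] at he2 ⊢
    have h4 := mem_RE_ends he2
    have h5 := hG e he1
    unfold HE
    unfold inR at h4
    exact mem_RE_of_ends (by unfold inR; omega) (by unfold inR; omega)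

theorem HE_ends {p j n : ℤ} {e : Edg} (he : e ∈ HE p j n) :
    (src e).1 ≤ p ∧ (tgt e).1 ≤ p := by
  have := mem_RE_ends he
  unfold inR at this
  omega

/-- A half circuit is connected to every crossing of the half annulus. -/
theorem semi_meet {F : Finset Edg} {p j r1 r2 : ℤ} (h1 : 0 ≤ r1) (h2 : r1 < r2)
    (h : SC p j r1 r2 F) : ∃ z : Vtx, ∀ u v : Vtx, inH p j r1 u → onH p j r2 v →
      Reach (↑F ∩ ↑(HE p j r2)) u v → Reach (↑F ∩ ↑(HE p j r2)) u z := by
  obtain ⟨⟨t, t', ht, ht', hT⟩, ⟨b, b', hb, hb', hB⟩, ⟨l, l', hl, hl', hL⟩⟩ := h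
  have hT' := hT.mono (Set.inter_subset_inter_right (↑F)
    (by exact_mod_cast LRE_subset_RE : (↑(LRE (p - r2) p (j + r1) (j + r2)) : Set Edg) ⊆ _))
  have hB' := hB.mono (Set.inter_subset_inter_right (↑F)
    (by exact_mod_cast LRE_subset_RE : (↑(LRE (p - r2) p (j - r2) (j - r1)) : Set Edg) ⊆ _))
  have hL' := hL.mono (Set.inter_subset_inter_right (↑F)
    (by exact_mod_cast TBE_subset_RE : (↑(TBE (p - r2) (p - r1) (j - r2) (j + r2)) : Set Edg) ⊆ _))
  -- the upper path meets the left path
  have mT : Reach (↑F ∩ ↑(HE p j r2)) (p - r2, t) (l, j - r2) :=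
    cross_meet (A := p - r2) (a := p - r2) (b := p - r1) (B := p) (C := j - r2) (c := j + r1)
      (d := j + r2) (D := j + r2) le_rfl (by omega) (by omega) (by omega) (by omega) le_rfl
      hT' (by simp) (by simp only; omega) hL' (by simp only; omega) (by simp)
  have mB : Reach (↑F ∩ ↑(HE p j r2)) (p - r2, b) (l, j - r2) :=
    cross_meet (A := p - r2) (a := p - r2) (b := p - r1) (B := p) (C := j - r2) (c := j - r2)
      (d := j - r1) (D := j + r2) le_rfl (by omega) (by omega) le_rfl (by omega) (by omega)
      hB' (by simp) (by simp only; omega) hL' (by simp) (by simp only; omega)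
  refine ⟨(l, j - r2), ?_⟩
  intro u v hu hv hR
  unfold inH inR at hu
  rcases hv with hv | hv | hv
  · -- exit through the left side
    have m := cross_meet (F := ↑F) (A := p - r2) (a := p - r2) (b := p - r1) (B := p)
      (C := j - r2) (c := j - r2) (d := j + r2) (D := j + r2) le_rfl (by omega) (by omega) le_rfl
      (by omega) le_rfl (u := v) (v := u) hR.symm (by omega) (by omega) hL' (by simp) (by simp)
    exact hR.trans m
  · -- exit through the lower side
    have m := cross_meet (F := ↑F) (A := p - r2) (a := p - r2) (b := p) (B := p)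
      (C := j - r2) (c := j - r2) (d := j - r1) (D := j + r2) le_rfl (by omega) le_rfl le_rfl
      (by omega) (by omega) hB' (by simp) (by simp) (u' := v) (v' := u) hR.symm (by omega)
      (by omega)
    exact hR.trans (m.symm.trans mB)
  · -- exit through the upper side
    have m := cross_meet (F := ↑F) (A := p - r2) (a := p - r2) (b := p) (B := p)
      (C := j - r2) (c := j + r1) (d := j + r2) (D := j + r2) le_rfl (by omega) le_rfl (by omega)
      (by omega) le_rfl hT' (by simp) (by simp) (u' := u) (v' := v) hR (by omega) (by omega)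
    exact m.symm.trans mT

end H985BT
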