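import Pool.Agent.H985R2.BT1

/-!
# Half-plane arms of critical bond percolation on `ℤ²` at all scales (probabilities)
-/

set_option autoImplicit false
set_option maxHeartbeats 400000

namespace H985BT

open H974 H973 Finset

/-- probability for fair edges -/
noncomputable abbrev P2 (S : Finset Edg) (A : Finset Edg → Prop) : ℝ :=
  Pr (fun _ => (1/2 : ℝ)) S A

/-- the half-plane one-arm probability -/
noncomputable def HH (n : ℤ) : ℝ := armP (HB 1 0 n) n

theorem HH_nonneg (n : ℤ) : 0 ≤ HH n := armP_nonneg _ _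

theorem ES_HB (p j n : ℤ) : ES (shift (p, j) (HB 1 0 n)) = HE p j n := by
  ext e
  rw [mem_ES, mem_shift, mem_shift, mem_HB, mem_HB]
  simp only [one_mul, zero_mul, add_zero, Int.cast_nonpos]
  constructor
  · rintro ⟨h1, h2⟩
    exact mem_RE_of_ends (by unfold inR; omega) (by unfold inR; omega)
  · intro h
    have := mem_RE_ends h
    unfold inR at this
    omega

theorem Arm_local {p j n : ℤ} {F S : Finset Edg} (hS : HE p j n ⊆ S) :
    Arm p j n F ↔ Arm p j n (F ∩ S) := by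
  unfold Arm
  rw [coe_inter_eq hS]

theorem Crs_local {p j r n : ℤ} {F S : Finset Edg} (hS : HE p j n ⊆ S) :
    Crs p j r n F ↔ Crs p j r n (F ∩ S) := by
  unfold Crs
  rw [coe_inter_eq hS]

theorem Arm_incr (S : Finset Edg) (p j n : ℤ) : IncrE S (Arm p j n) := by
  rintro F G h _ ⟨v, h1, h2⟩
  exact ⟨v, h1, h2.mono (Set.inter_subset_inter_left _ (by exact_mod_cast h))⟩

theorem Crs_incr (S : Finset Edg) (p j r n : ℤ) : IncrE S (Crs p j r n) := by
  rintro F G h _ ⟨u, v, h1, h2, h3⟩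
  exact ⟨u, v, h1, h2, h3.mono (Set.inter_subset_inter_left _ (by exact_mod_cast h))⟩

theorem SC_incr (S : Finset Edg) (p j r1 r2 : ℤ) : IncrE S (SC p j r1 r2) := by
  rintro F G h _ ⟨h1, h2, h3⟩
  exact ⟨h1.mono h, h2.mono h, h3.mono h⟩

theorem pr_Arm {p j n : ℤ} (hn : 1 ≤ n) {S : Finset Edg} (hS : HE p j n ⊆ S) :
    P2 S (Arm p j n) = HH n := by
  have e1 : P2 S (Arm p j n) = P2 (HE p j n) (Arm p j n) :=
    Pr_local hS (A := Arm p j n) (fun F _ => Arm_local (Finset.Subset.refl (HE p j n)))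
  rw [e1]
  have e2 := arm_shift (p, j) (HB 1 0 n) n
  rw [ES_HB] at e2
  unfold HH
  rw [← e2]
  apply Pr_congr
  intro F hF
  constructor
  · rintro ⟨v, h1, h2⟩
    have h3 : Reach (F : Set Edg) (p, j) v := h2.mono Set.inter_subset_left
    refine ⟨v, ?_, ?_, h3⟩
    · refine reach_mem (T := shift (p, j) (HB 1 0 n)) (F := (F : Set Edg)) ?_ ?_ h3
      · intro e he
        rw [ES_HB]
        exact hF (Finset.mem_coe.mp he)
      · rw [mem_shift, mem_HB]
        simp only [sub_self, Int.cast_zero, mul_zero, add_zero, le_refl, and_true]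
        omega
    · unfold onBX
      unfold onH at h1
      simp only
      omega
  · rintro ⟨v, h1, h2, h3⟩
    refine ⟨v, ?_, h3.mono ?_⟩
    · rw [mem_shift, mem_HB] at h1
      simp only [one_mul, zero_mul, add_zero, Int.cast_nonpos] at h1
      unfold onBX at h2
      unfold onH
      simp only at h2
      omega
    · intro e he
      exact ⟨he, Finset.mem_coe.mpr (hF (Finset.mem_coe.mp he))⟩

theorem pr_SC {p j r : ℤ} (hr : 2 ≤ r) {S : Finset Edg} (hS : HE p j (2 * r) ⊆ S) :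
    dlt ^ 3 ≤ P2 S (SC p j r (2 * r)) := by
  obtain ⟨m, hm0, hm1, hm2⟩ : ∃ m : ℤ, 0 < m ∧ 2 * m ≤ r ∧ r ≤ 2 * m + 1 :=
    ⟨r / 2, by omega, by omega, by omega⟩
  have hd := dlt_pos
  have e1 : dlt ≤ P2 S (LRc (p - 2 * r) p (j + r) (j + 2 * r)) := by
    unfold P2
    rw [pr_LRc (1/2) (LRE_subset_RE.trans (Finset.Subset.trans
      (RE_subset (by omega) le_rfl (by omega) (by omega)) hS))]
    exact rswL hm0 (by omega) (by omega) (by omega)
  have e2 : dlt ≤ P2 S (LRc (p - 2 * r) p (j - 2 * r) (j - r)) := by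
    unfold P2
    rw [pr_LRc (1/2) (LRE_subset_RE.trans (Finset.Subset.trans
      (RE_subset (by omega) le_rfl (by omega) (by omega)) hS))]
    exact rswL hm0 (by omega) (by omega) (by omega)
  have e3 : dlt ≤ P2 S (TBc (p - 2 * r) (p - r) (j - 2 * r) (j + 2 * r)) := by
    unfold P2
    rw [pr_TBc (1/2) (TBE_subset_RE.trans (Finset.Subset.trans
      (RE_subset (by omega) (by omega) (by omega) (by omega)) hS))]
    exact rswL hm0 (by omega) (by omega) (by omega)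
  have h23 := hmul (LRc_incr S _ _ _ _) (TBc_incr S _ _ _ _) hd.le e2 e3
  have h123 := hmul (LRc_incr S _ _ _ _) (A := LRc (p - 2 * r) p (j + r) (j + 2 * r))
    (B := fun F => LRc (p - 2 * r) p (j - 2 * r) (j - r) F ∧
      TBc (p - 2 * r) (p - r) (j - 2 * r) (j + 2 * r) F)
    (fun F G h _ hF => ⟨hF.1.mono h, hF.2.mono h⟩) (by positivity) e1 h23
  calc dlt ^ 3 = dlt * (dlt * dlt) := by ring
    _ ≤ _ := h123

/-- Gluing: an arm, a half circuit and a crossing give a longer arm. -/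
theorem glue_up {p j r n : ℤ} (hr : 2 ≤ r) (hn : 2 * r ≤ n) {F : Finset Edg}
    (h1 : Arm p j (2 * r) F) (h2 : SC p j r (2 * r) F) (h3 : Crs p j r n F) : Arm p j n F := by
  obtain ⟨v1, hv1, hR1⟩ := h1
  obtain ⟨u, v, hu, hv, hR⟩ := h3
  obtain ⟨z, hz⟩ := semi_meet (by omega) (by omega) h2
  have k1 : Reach (↑F ∩ ↑(HE p j (2 * r))) (p, j) z := by
    refine hz (p, j) v1 ?_ hv1 hR1
    unfold inH inR
    simp only
    omega
  have hG : ∀ e ∈ ((↑F ∩ ↑(HE p j n) : Set Edg)), (src e).1 ≤ p ∧ (tgt e).1 ≤ p := by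
    rintro e ⟨_, he⟩
    exact HE_ends (Finset.mem_coe.mp he)
  have hu2 : inH p j (2 * r) u := by
    unfold inH inR at hu ⊢
    omega
  obtain ⟨w, hw1, hw2, hw3⟩ := hexit (r := 2 * r) hG hu2 hR (by unfold onH at hv; omega)
  have k2 : Reach (↑F ∩ ↑(HE p j (2 * r))) u z := by
    refine hz u w hu hw2 (hw3.mono ?_)
    rintro e ⟨⟨he1, _⟩, he2⟩
    exact ⟨he1, he2⟩
  have hs : (↑F ∩ ↑(HE p j (2 * r)) : Set Edg) ⊆ ↑F ∩ ↑(HE p j n) :=
    Set.inter_subset_inter_right _ (by exact_mod_cast HE_mono hn)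
  exact ⟨v, hv, (k1.mono hs).trans ((k2.symm.mono hs).trans hR)⟩

theorem pr_Crs_le {p j r n : ℤ} (hr : 2 ≤ r) (hn : 2 * r ≤ n) {S : Finset Edg}
    (hS : HE p j n ⊆ S) : HH (2 * r) * dlt ^ 3 * P2 S (Crs p j r n) ≤ HH n := by
  have hd := dlt_pos
  have hS2 : HE p j (2 * r) ⊆ S := (HE_mono hn).trans hS
  have h1 := pr_Arm (by omega) hS2
  have h2 := pr_SC hr hS2
  have h12 := hmul (Arm_incr S p j (2 * r)) (SC_incr S p j r (2 * r)) (by positivity) h1.ge h2
  have h123 := hmul (A := fun F => Arm p j (2 * r) F ∧ SC p j r (2 * r) F)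
    (B := Crs p j r n) (S := S)
    (fun F G h hG hF => ⟨Arm_incr S _ _ _ F G h hG hF.1, SC_incr S _ _ _ _ F G h hG hF.2⟩)
    (Crs_incr S _ _ _ _) (Pr_nonneg okhalf _ _) h12 le_rfl
  refine h123.trans ?_
  rw [← pr_Arm (by omega : 1 ≤ n) hS]
  apply Pr_mono okhalf
  rintro F _ ⟨⟨k1, k2⟩, k3⟩
  exact glue_up hr hn k1 k2 k3

/-- last exit from a half box -/
theorem last_exit {G : Set Edg} {p j r : ℤ} {u v : Vtx} (hu : inH p j r u) (h : Reach G u v) :
    ∃ w, inH p j r w ∧ Reach (G \ ↑(HE p j r)) w v := by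
  induction h with
  | refl => exact ⟨u, hu, Reach.refl _ _⟩
  | @tail b c _ hs ih =>
    obtain ⟨w, hw1, hw2⟩ := ih
    by_cases hc : inH p j r c
    · exact ⟨c, hc, Reach.refl _ _⟩
    · obtain ⟨e, he, hcs⟩ := hs
      refine ⟨w, hw1, hw2.tail ⟨e, ⟨he, ?_⟩, hcs⟩⟩
      intro he2
      apply hc
      have := mem_RE_ends (Finset.mem_coe.mp he2)
      unfold inH
      rcases hcs with ⟨_, k⟩ | ⟨k, _⟩
      · rw [← k]; exact this.2
      · rw [← k]; exact this.1

theorem HH_le_mul {p j r n : ℤ} (hr : 1 ≤ r) (hn : r ≤ n) {S : Finset Edg}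
    (hS : HE p j n ⊆ S) : HH n ≤ HH r * P2 S (Crs p j r n) := by
  have hS1 : HE p j r ⊆ S := (HE_mono hn).trans hS
  set S2 : Finset Edg := S \ HE p j r with hS2
  have hd : Disjoint (HE p j r) S2 := Finset.disjoint_sdiff
  have i1 : P2 S (Arm p j n) ≤ P2 S (fun F => Arm p j r (F ∩ HE p j r) ∧
      Crs p j r n (F ∩ S2)) := by
    apply Pr_mono okhalf
    rintro F hF ⟨v, hv, hR⟩
    have hG : ∀ e ∈ ((↑F ∩ ↑(HE p j n) : Set Edg)), (src e).1 ≤ p ∧ (tgt e).1 ≤ p := by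
      rintro e ⟨_, he⟩
      exact HE_ends (Finset.mem_coe.mp he)
    have h0 : inH p j r (p, j) := by unfold inH inR; simp only; omega
    constructor
    · obtain ⟨w, hw1, hw2, hw3⟩ := hexit (r := r) hG h0 hR (by unfold onH at hv; omega)
      refine ⟨w, hw2, hw3.mono ?_⟩
      rintro e ⟨⟨he1, _⟩, he2⟩
      refine ⟨?_, he2⟩
      rw [Finset.mem_coe, Finset.mem_inter]
      exact ⟨he1, he2⟩
    · obtain ⟨w, hw1, hw2⟩ := last_exit h0 hR
      refine ⟨w, v, hw1, hv, hw2.mono ?_⟩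
      rintro e ⟨⟨he1, he2⟩, he3⟩
      refine ⟨?_, he2⟩
      rw [Finset.mem_coe, Finset.mem_inter, hS2, Finset.mem_sdiff]
      exact ⟨he1, hS (Finset.mem_coe.mp he2), he3⟩
  rw [pr_Arm (by omega) hS] at i1
  have i2 := Pr_indep' hS1 (Finset.sdiff_subset : S2 ⊆ S) hd (Arm p j r) (Crs p j r n)
  unfold P2 at i1
  rw [i2] at i1
  have i3 : Pr (fun _ => (1/2 : ℝ)) (HE p j r) (Arm p j r) = HH r :=
    pr_Arm (by omega) (Finset.Subset.refl _)
  rw [i3] at i1
  refine i1.trans (mul_le_mul_of_nonneg_left ?_ (HH_nonneg _))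
  exact Pr_mono_set okhalf Finset.sdiff_subset (Crs_incr _ _ _ _ _)

end H985BT
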