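import Pool.Agent.H985R2.BT2

/-!
# Hitting an interval of the right side of a rectangle: two-sided bounds
-/

set_option autoImplicit false
set_option maxHeartbeats 400000

namespace H985BT

open H974 H973 Finset

/-- all the edges of a finite set are open -/
theorem pr_open (S : Finset Edg) (U : Finset Edg) (hU : U ⊆ S) :
    (1/2 : ℝ) ^ U.card ≤ P2 S (fun F => U ⊆ F) := by
  induction U using Finset.induction_on with
  | empty =>
    simp only [Finset.card_empty, pow_zero, Finset.empty_subset]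
    exact (Pr_true S (fun _ _ => trivial)).ge
  | insert a U ha ih =>
    have ih' := ih ((Finset.subset_insert a U).trans hU)
    have haS : a ∈ S := hU (Finset.mem_insert_self a U)
    have i2 : P2 S (fun F => a ∈ F) = 1/2 := by
      have hs : ({a} : Finset Edg) ⊆ S := by simpa using haS
      have := Pr_restrict hs (fun F => a ∈ F)
      have e1 : Pr (fun _ => (1/2 : ℝ)) S (fun F => a ∈ F ∩ {a}) =
          Pr (fun _ => (1/2 : ℝ)) S (fun F => a ∈ F) := by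
        apply Pr_congr
        intro F _
        simp
      unfold P2
      rw [← e1, this]
      unfold Pr
      rw [← insert_empty_eq a, Ex_insert _ (Finset.notMem_empty _), Ex_empty, Ex_empty]
      simp only [Finset.insert_empty, Finset.mem_singleton, Finset.notMem_empty]
      rw [ind_of trivial, ind_not_of (fun h => h)]
      norm_num
    rw [Finset.card_insert_of_notMem ha, pow_succ, mul_comm]
    refine (hmul (A := fun F => a ∈ F) (B := fun F => U ⊆ F) (S := S) ?_ ?_ (by positivity)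
      i2.ge ih').trans ?_
    · intro F G h _ hF
      exact h hF
    · intro F G h _ hF
      exact hF.trans h
    · apply Pr_mono okhalf
      rintro F _ ⟨h1, h2⟩
      exact Finset.insert_subset h1 h2

/-- the event: some vertex `(m, y')`, `y ≤ y' < y + r`, is connected inside the rectangle
`[0, m] × [0, k]` to its left or lower side -/
def Hit (m k y r : ℤ) (F : Finset Edg) : Prop :=
  ∃ y' : ℤ, (y ≤ y' ∧ y' < y + r) ∧ ∃ u : Vtx, (u.1 ≤ 0 ∨ u.2 ≤ 0) ∧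
    Reach (↑F ∩ ↑(RE 0 m 0 k)) (m, y') u

theorem Hit_incr (S : Finset Edg) (m k y r : ℤ) : IncrE S (Hit m k y r) := by
  rintro F G h _ ⟨y', h1, u, h2, h3⟩
  exact ⟨y', h1, u, h2, h3.mono (Set.inter_subset_inter_left _ (by exact_mod_cast h))⟩

theorem Hit_mono {m k y r r' : ℤ} (h : r ≤ r') {F : Finset Edg} (hF : Hit m k y r F) :
    Hit m k y r' F := by
  obtain ⟨y', h1, h2⟩ := hF
  exact ⟨y', by omega, h2⟩

theorem HE_sub {m k y n : ℤ} (h1 : n ≤ y) (h2 : y ≤ m) (h3 : y + n ≤ k) :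
    HE m y n ⊆ RE 0 m 0 k := by
  unfold HE
  exact RE_subset (by omega) le_rfl (by omega) (by omega)

/-- A hit produces a crossing. -/
theorem Hit_Crs {m k y r q n : ℤ} (hrq : r ≤ q + 1) (hq : q ≤ n) (hn : n ≤ y)
    (hm : n ≤ m) {F : Finset Edg} (h : Hit m k y r F) : Crs m y q n F := by
  obtain ⟨y', h1, u, h2, h3⟩ := h
  have hG : ∀ e ∈ ((↑F ∩ ↑(RE 0 m 0 k) : Set Edg)), (src e).1 ≤ m ∧ (tgt e).1 ≤ m := by
    rintro e ⟨_, he⟩
    have := mem_RE_ends (Finset.mem_coe.mp he)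
    unfold inR at this
    omega
  have hu : inH m y n (m, y') := by unfold inH inR; simp only; omega
  obtain ⟨w, hw1, hw2, hw3⟩ := hexit (r := n) hG hu h3 (by omega)
  refine ⟨(m, y'), w, ?_, hw2, hw3.mono ?_⟩
  · unfold inH inR; simp only; omega
  · rintro e ⟨⟨he1, _⟩, he2⟩
    exact ⟨he1, he2⟩

/-- The vertical path below the half circuit of radii `t, 2t` leads to the lower side. -/
theorem down_path {m k y t : ℤ} (ht : 2 ≤ t) (hty : 2 * t ≤ y) (hym : y ≤ m) (hyk : 2 * y ≤ k)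
    {F : Finset Edg} (h2 : SC m y t (2 * t) F) (h3 : TBc (m - t) m 0 y F) {u v : Vtx}
    (hu : inH m y t u) (hv : onH m y (2 * t) v) (h : Reach (↑F ∩ ↑(HE m y (2 * t))) u v) :
    ∃ w : Vtx, w.2 = 0 ∧ Reach (↑F ∩ ↑(RE 0 m 0 k)) u w := by
  obtain ⟨z, hz⟩ := semi_meet (by omega) (by omega) h2
  have k1 := hz u v hu hv h
  obtain ⟨x, x', hx, hx', hR⟩ := h3
  have hR' : Reach (↑F ∩ ↑(RE (m - t) m 0 y)) (x, 0) (x', y) :=
    hR.mono (Set.inter_subset_inter_right (↑F)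
      (by exact_mod_cast TBE_subset_RE : (↑(TBE (m - t) m 0 y) : Set Edg) ⊆ _))
  have hG : ∀ e ∈ ((↑F ∩ ↑(RE (m - t) m 0 y) : Set Edg)), (src e).1 ≤ m ∧ (tgt e).1 ≤ m := by
    rintro e ⟨_, he⟩
    have := mem_RE_ends (Finset.mem_coe.mp he)
    unfold inR at this
    omega
  have hu2 : inH m y (2 * t) (x', y) := by unfold inH inR; simp only; omega
  obtain ⟨w, hw1, hw2, hw3⟩ := hexit (r := 2 * t) hG hu2 hR'.symm (by simp only; omega)
  have k2 : Reach (↑F ∩ ↑(HE m y (2 * t))) (x', y) z := by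
    refine hz (x', y) w ?_ hw2 (hw3.mono ?_)
    · unfold inH inR; simp only; omega
    · rintro e ⟨⟨he1, _⟩, he2⟩
      exact ⟨he1, he2⟩
  have s1 : (↑F ∩ ↑(HE m y (2 * t)) : Set Edg) ⊆ ↑F ∩ ↑(RE 0 m 0 k) :=
    Set.inter_subset_inter_right _ (by exact_mod_cast HE_sub (by omega) hym (by omega))
  have s2 : (↑F ∩ ↑(RE (m - t) m 0 y) : Set Edg) ⊆ ↑F ∩ ↑(RE 0 m 0 k) :=
    Set.inter_subset_inter_right _
      (by exact_mod_cast RE_subset (by omega) le_rfl le_rfl (by omega))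
  exact ⟨(x, 0), rfl, (k1.mono s1).trans ((k2.symm.mono s1).trans (hR'.symm.mono s2))⟩

/-- Lower bound, single vertex. -/
theorem Hit_of_arm {m k y t : ℤ} (ht : 2 ≤ t) (hty : 2 * t ≤ y) (hym : y ≤ m) (hyk : 2 * y ≤ k)
    {F : Finset Edg} (h1 : Arm m y (2 * t) F) (h2 : SC m y t (2 * t) F)
    (h3 : TBc (m - t) m 0 y F) : Hit m k y 1 F := by
  obtain ⟨v, hv, hR⟩ := h1
  obtain ⟨w, hw, hRw⟩ := down_path ht hty hym hyk h2 h3 (u := (m, y)) (v := v)
    (by unfold inH inR; simp only; omega) hv hR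
  exact ⟨y, by omega, w, Or.inr hw.le, hRw⟩

/-- Lower bound, interval. -/
theorem Hit_of_crs {m k y s t : ℤ} (hs : 2 ≤ s) (hst : 2 * s ≤ t) (hty : 2 * t ≤ y) (hym : y ≤ m)
    (hyk : 2 * y ≤ k) {F : Finset Edg} (h0 : LRc (m - 4 * s) m y (y + s) F)
    (h1 : SC m y (2 * s) (4 * s) F) (h2 : Crs m y (2 * s) (2 * t) F)
    (h3 : SC m y t (2 * t) F) (h4 : TBc (m - t) m 0 y F) : Hit m k y (s + 1) F := by
  obtain ⟨a, b, ha, hb, hR0⟩ := h0
  obtain ⟨u, v, hu, hv, hR⟩ := h2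
  obtain ⟨z, hz⟩ := semi_meet (by omega) (by omega) h1
  -- from the interval to the inner half circuit
  have hR0' : Reach (↑F ∩ ↑(HE m y (4 * s))) (m, b) (m - 4 * s, a) := by
    refine (hR0.mono ?_).symm
    rintro e ⟨he1, he2⟩
    refine ⟨he1, ?_⟩
    have := RE_subset (a' := m - 4 * s) (b' := m) (c' := y - 4 * s) (d' := y + 4 * s) le_rfl le_rfl
      (by omega) (by omega) (LRE_subset_RE (Finset.mem_coe.mp he2))
    exact Finset.mem_coe.mpr this
  have k1 : Reach (↑F ∩ ↑(HE m y (4 * s))) (m, b) z :=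
    hz (m, b) (m - 4 * s, a) (by unfold inH inR; simp only; omega) (by unfold onH; simp) hR0'
  -- the crossing meets the inner half circuit
  have hG : ∀ e ∈ ((↑F ∩ ↑(HE m y (2 * t)) : Set Edg)), (src e).1 ≤ m ∧ (tgt e).1 ≤ m := by
    rintro e ⟨_, he⟩
    exact HE_ends (Finset.mem_coe.mp he)
  have hu4 : inH m y (4 * s) u := by unfold inH inR at hu ⊢; omega
  obtain ⟨w, hw1, hw2, hw3⟩ := hexit (r := 4 * s) hG hu4 hR (by unfold onH at hv; omega)
  have k2 : Reach (↑F ∩ ↑(HE m y (4 * s))) u z := by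
    refine hz u w hu hw2 (hw3.mono ?_)
    rintro e ⟨⟨he1, _⟩, he2⟩
    exact ⟨he1, he2⟩
  have s1 : (↑F ∩ ↑(HE m y (4 * s)) : Set Edg) ⊆ ↑F ∩ ↑(HE m y (2 * t)) :=
    Set.inter_subset_inter_right _ (by exact_mod_cast HE_mono (by omega))
  have k3 : Reach (↑F ∩ ↑(HE m y (2 * t))) (m, b) v :=
    (k1.mono s1).trans ((k2.symm.mono s1).trans hR)
  obtain ⟨w', hw', hRw⟩ := down_path (k := k) (by omega) hty hym hyk h3 h4 (u := (m, b)) (v := v)
    (by unfold inH inR; simp only; omega) hv k3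
  exact ⟨b, by omega, w', Or.inr hw'.le, hRw⟩

theorem TBc_prob {m k y t : ℤ} (ht : 2 ≤ t) (hty : 2 * t ≤ y) (hty2 : y ≤ 2 * t + 1)
    (hym : y ≤ m) (hyk : 2 * y ≤ k) : dlt ≤ P2 (RE 0 m 0 k) (TBc (m - t) m 0 y) := by
  unfold P2
  rw [pr_TBc (1/2) (TBE_subset_RE.trans (RE_subset (by omega) le_rfl le_rfl (by omega)))]
  obtain ⟨m0, hm0, hm1, hm2⟩ : ∃ m0 : ℤ, 0 < m0 ∧ 2 * m0 ≤ t ∧ t ≤ 2 * m0 + 1 :=
    ⟨t / 2, by omega, by omega, by omega⟩
  exact rswL hm0 (by omega) (by omega) (by omega)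

/-- Lower bound for a single vertex. -/
theorem low1 {m k y t : ℤ} (ht : 2 ≤ t) (hty : 2 * t ≤ y) (hty2 : y ≤ 2 * t + 1)
    (hym : y ≤ m) (hyk : 2 * y ≤ k) :
    HH (2 * t) * dlt ^ 4 ≤ P2 (RE 0 m 0 k) (Hit m k y 1) := by
  have hd := dlt_pos
  have hS : HE m y (2 * t) ⊆ RE 0 m 0 k := HE_sub (by omega) hym (by omega)
  have h1 := pr_Arm (by omega : 1 ≤ 2 * t) hS
  have h2 := pr_SC ht hS
  have h3 := TBc_prob ht hty hty2 hym hyk
  have h12 := hmul (Arm_incr _ m y (2 * t)) (SC_incr _ m y t (2 * t)) (by positivity) h1.ge h2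
  have h123 := hmul (A := fun F => Arm m y (2 * t) F ∧ SC m y t (2 * t) F)
    (B := TBc (m - t) m 0 y) (S := RE 0 m 0 k)
    (fun F G h hG hF => ⟨Arm_incr _ _ _ _ F G h hG hF.1, SC_incr _ _ _ _ _ F G h hG hF.2⟩)
    (TBc_incr _ _ _ _ _) hd.le h12 h3
  calc HH (2 * t) * dlt ^ 4 = HH (2 * t) * dlt ^ 3 * dlt := by ring
    _ ≤ _ := h123
    _ ≤ _ := by
      apply Pr_mono okhalf
      rintro F _ ⟨⟨k1, k2⟩, k3⟩
      exact Hit_of_arm ht hty hym hyk k1 k2 k3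

/-- Lower bound for an interval. -/
theorem low2 {m k y s t : ℤ} (hs : 2 ≤ s) (hst : 2 * s ≤ t) (hty : 2 * t ≤ y)
    (hty2 : y ≤ 2 * t + 1) (hym : y ≤ m) (hyk : 2 * y ≤ k) :
    P2 (RE 0 m 0 k) (Crs m y (2 * s) (2 * t)) * dlt ^ 8 ≤
      P2 (RE 0 m 0 k) (Hit m k y (s + 1)) := by
  have hd := dlt_pos
  have hS : HE m y (2 * t) ⊆ RE 0 m 0 k := HE_sub (by omega) hym (by omega)
  have h0 : dlt ≤ P2 (RE 0 m 0 k) (LRc (m - 4 * s) m y (y + s)) := by
    unfold P2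
    rw [pr_LRc (1/2) (LRE_subset_RE.trans (RE_subset (by omega) le_rfl (by omega) (by omega)))]
    obtain ⟨m0, hm0, hm1, hm2⟩ : ∃ m0 : ℤ, 0 < m0 ∧ 2 * m0 ≤ s ∧ s ≤ 2 * m0 + 1 :=
      ⟨s / 2, by omega, by omega, by omega⟩
    exact rswL hm0 (by omega) (by omega) (by omega)
  have h1 : dlt ^ 3 ≤ P2 (RE 0 m 0 k) (SC m y (2 * s) (4 * s)) := by
    have := pr_SC (p := m) (j := y) (r := 2 * s) (by omega) (S := RE 0 m 0 k)
      ((HE_mono (by omega)).trans hS)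
    rwa [show 2 * (2 * s) = 4 * s by ring] at this
  have h3 := pr_SC (p := m) (j := y) (by omega : 2 ≤ t) hS
  have h4 := TBc_prob (by omega) hty hty2 hym hyk
  have a1 := hmul (SC_incr (RE 0 m 0 k) m y t (2 * t)) (TBc_incr (RE 0 m 0 k) (m - t) m 0 y)
    hd.le h3 h4
  have a2 := hmul (A := Crs m y (2 * s) (2 * t))
    (B := fun F => SC m y t (2 * t) F ∧ TBc (m - t) m 0 y F) (S := RE 0 m 0 k)
    (Crs_incr _ _ _ _ _)
    (fun F G h hG hF => ⟨SC_incr _ _ _ _ _ F G h hG hF.1, TBc_incr _ _ _ _ _ F G h hG hF.2⟩)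
    (by positivity) le_rfl a1
  have a3 := hmul (A := SC m y (2 * s) (4 * s))
    (B := fun F => Crs m y (2 * s) (2 * t) F ∧ SC m y t (2 * t) F ∧ TBc (m - t) m 0 y F)
    (S := RE 0 m 0 k) (SC_incr _ _ _ _ _)
    (fun F G h hG hF => ⟨Crs_incr _ _ _ _ _ F G h hG hF.1,
      SC_incr _ _ _ _ _ F G h hG hF.2.1, TBc_incr _ _ _ _ _ F G h hG hF.2.2⟩)
    (mul_nonneg (Pr_nonneg okhalf _ _) (by positivity)) h1 a2
  have a4 := hmul (A := LRc (m - 4 * s) m y (y + s))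
    (B := fun F => SC m y (2 * s) (4 * s) F ∧ Crs m y (2 * s) (2 * t) F ∧
      SC m y t (2 * t) F ∧ TBc (m - t) m 0 y F)
    (S := RE 0 m 0 k) (LRc_incr _ _ _ _ _)
    (fun F G h hG hF => ⟨SC_incr _ _ _ _ _ F G h hG hF.1, Crs_incr _ _ _ _ _ F G h hG hF.2.1,
      SC_incr _ _ _ _ _ F G h hG hF.2.2.1, TBc_incr _ _ _ _ _ F G h hG hF.2.2.2⟩)
    (mul_nonneg (by positivity) (mul_nonneg (Pr_nonneg okhalf _ _) (by positivity))) h0 a3
  calc P2 (RE 0 m 0 k) (Crs m y (2 * s) (2 * t)) * dlt ^ 8 =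
      dlt * (dlt ^ 3 * (P2 (RE 0 m 0 k) (Crs m y (2 * s) (2 * t)) * (dlt ^ 3 * dlt))) := by ring
    _ ≤ _ := a4
    _ ≤ _ := by
      apply Pr_mono okhalf
      rintro F _ ⟨k1, k2, k3, k4, k5⟩
      exact Hit_of_crs hs hst hty hym hyk k1 k2 k3 k4 k5

/-- Lower bound for small `y`. -/
theorem low0 {m k y : ℤ} (hy : 1 ≤ y) (hym : y ≤ m) (hyk : 2 * y ≤ k) :
    (1/2 : ℝ) ^ y.toNat ≤ P2 (RE 0 m 0 k) (Hit m k y 1) := by
  set U : Finset Edg := (Finset.Ico 0 y).image (fun i : ℤ => ((m, i, false) : Edg)) with hU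
  have hc : U.card = y.toNat := by
    rw [hU, Finset.card_image_of_injective, Int.card_Ico, sub_zero]
    intro a b h
    simpa using h
  have hUS : U ⊆ RE 0 m 0 k := by
    intro e he
    rw [hU, Finset.mem_image] at he
    obtain ⟨i, hi, rfl⟩ := he
    rw [Finset.mem_Ico] at hi
    rw [mem_RE_false]
    omega
  rw [← hc]
  refine (pr_open _ U hUS).trans ?_
  apply Pr_mono okhalf
  intro F _ hF
  refine ⟨y, by omega, (m, 0), Or.inr le_rfl, ?_⟩
  have key : ∀ n : ℕ, (n : ℤ) ≤ y → Reach (↑F ∩ ↑(RE 0 m 0 k)) (m, (n : ℤ)) (m, 0) := by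
    intro n
    induction n with
    | zero => intro _; simpa using Reach.refl _ _
    | succ n ih =>
      intro hn
      have h1 := ih (by push_cast at hn; omega)
      have he : ((m, (n : ℤ), false) : Edg) ∈ U := by
        rw [hU, Finset.mem_image]
        exact ⟨n, by rw [Finset.mem_Ico]; push_cast at hn; omega, rfl⟩
      have hadj : Adj (↑F ∩ ↑(RE 0 m 0 k)) (m, ((n + 1 : ℕ) : ℤ)) (m, (n : ℤ)) := by
        refine ⟨(m, (n : ℤ), false), ⟨Finset.mem_coe.mpr (hF he),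
          Finset.mem_coe.mpr (hUS he)⟩, Or.inr ⟨?_, ?_⟩⟩
        · simp
        · simp
      exact hadj.reach.trans h1
  have h2 := key y.toNat (by omega)
  rwa [show ((y.toNat : ℕ) : ℤ) = y by omega] at h2

end H985BT
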