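import Pool.Agent.H985R2.BT3

/-!
# Two-sided bounds with the exponent `1/3`
-/

set_option autoImplicit false
set_option maxHeartbeats 400000

namespace H985BT

open H974 H973 Finset

/-- cube root -/
noncomputable def cr (x : ℝ) : ℝ := x ^ ((1 : ℝ) / 3)

theorem cr_nonneg {x : ℝ} (hx : 0 ≤ x) : 0 ≤ cr x := Real.rpow_nonneg hx _
theorem cr_pos {x : ℝ} (hx : 0 < x) : 0 < cr x := Real.rpow_pos_of_pos hx _
theorem cr_mono {x y : ℝ} (hx : 0 ≤ x) (h : x ≤ y) : cr x ≤ cr y :=
  Real.rpow_le_rpow hx h (by norm_num)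
theorem cr_mul {x y : ℝ} (hx : 0 ≤ x) (hy : 0 ≤ y) : cr (x * y) = cr x * cr y :=
  Real.mul_rpow hx hy
theorem cr_div {x y : ℝ} (hx : 0 ≤ x) (hy : 0 ≤ y) : cr (x / y) = cr x / cr y :=
  Real.div_rpow hx hy _
theorem cr_one : cr 1 = 1 := Real.one_rpow _
theorem cr_cube {x : ℝ} (hx : 0 ≤ x) : cr (x ^ 3) = x := by
  unfold cr
  rw [← Real.rpow_natCast, ← Real.rpow_mul hx]
  norm_num
theorem cr_pow {x : ℝ} (hx : 0 ≤ x) : cr x ^ 3 = x := by
  unfold cr
  rw [← Real.rpow_natCast, ← Real.rpow_mul hx]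
  norm_num
theorem cr_le_self {x : ℝ} (hx : 1 ≤ x) : cr x ≤ x := by
  have h1 : x ≤ x ^ 3 := by nlinarith [sq_nonneg (x - 1), sq_nonneg (x + 1), mul_nonneg (by linarith : (0:ℝ) ≤ x) (by nlinarith : (0:ℝ) ≤ x ^ 2 - 1)]
  calc cr x ≤ cr (x ^ 3) := cr_mono (by linarith) h1
    _ = x := cr_cube (by linarith)
theorem le_cr_self {x : ℝ} (h0 : 0 ≤ x) (hx : x ≤ 1) : x ≤ cr x := by
  have h1 : x ^ 3 ≤ x := by
    have : x ^ 3 = x * (x * x) := by ring
    rw [this]
    have h2 : x * x ≤ 1 := by nlinarith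
    nlinarith
  calc x = cr (x ^ 3) := (cr_cube h0).symm
    _ ≤ cr x := cr_mono (by positivity) h1

theorem HH_bounds : ∃ c C : ℝ, 0 < c ∧ 0 < C ∧ ∀ n : ℤ, 1 ≤ n →
    c / cr n ≤ HH n ∧ HH n ≤ C / cr n := by
  obtain ⟨c, C, hc, hC, h⟩ := exponents
  refine ⟨c, C, hc, hC, ?_⟩
  intro n hn
  obtain ⟨N, rfl⟩ : ∃ N : ℕ, n = (N : ℤ) := ⟨n.toNat, by omega⟩
  have hN : 1 ≤ N := by omega
  obtain ⟨h1, h2⟩ := (h N hN).2 1 0 (Or.inl one_ne_zero)
  have hp : 0 < cr ((N : ℤ) : ℝ) := cr_pos (by exact_mod_cast (by omega : 0 < (N : ℤ)))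
  unfold HH
  have e : cr ((N : ℤ) : ℝ) = (N : ℝ) ^ ((1 : ℝ) / 3) := by unfold cr; push_cast; rfl
  constructor
  · rw [div_le_iff₀ hp, e]; linarith
  · rw [le_div_iff₀ hp, e]; linarith

theorem Crs_inner {p j r r' n : ℤ} (h : r ≤ r') {F : Finset Edg} (hF : Crs p j r n F) :
    Crs p j r' n F := by
  obtain ⟨u, v, h1, h2, h3⟩ := hF
  refine ⟨u, v, ?_, h2, h3⟩
  unfold inH inR at h1 ⊢
  omega

/-- Crossing probabilities of half annuli. -/
theorem Crs_bounds : ∃ c C : ℝ, 0 < c ∧ 0 < C ∧ ∀ (p j r n : ℤ) (S : Finset Edg), 1 ≤ r → r ≤ n →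
    HE p j n ⊆ S → c * cr ((r : ℝ) / n) ≤ P2 S (Crs p j r n) ∧
      P2 S (Crs p j r n) ≤ C * cr ((r : ℝ) / n) := by
  obtain ⟨c, C, hc, hC, h⟩ := HH_bounds
  have hd := dlt_pos
  have hd3 : 0 < dlt ^ 3 := pow_pos hd 3
  refine ⟨c / C, max (2 * C / (c * dlt ^ 3)) 2, by positivity, lt_max_of_lt_right (by norm_num), ?_⟩
  intro p j r n S hr hrn hS
  have hrR : (1 : ℝ) ≤ r := by exact_mod_cast hr
  have hrnR : (r : ℝ) ≤ n := by exact_mod_cast hrn
  have hcr : 0 < cr (r : ℝ) := cr_pos (by linarith)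
  have hcn : 0 < cr (n : ℝ) := cr_pos (by linarith)
  rw [cr_div (by linarith) (by linarith)]
  constructor
  · have h1 := HH_le_mul hr hrn hS
    have h2 := (h n (by omega)).1
    have h3 := (h r hr).2
    have h4 : c / cr n ≤ C / cr r * P2 S (Crs p j r n) :=
      h2.trans (h1.trans (mul_le_mul_of_nonneg_right h3 (Pr_nonneg okhalf _ _)))
    have h5 : c / C * (cr r / cr n) = (cr r / C) * (c / cr n) := by field_simp
    rw [h5]
    calc (cr r / C) * (c / cr n) ≤ (cr r / C) * (C / cr r * P2 S (Crs p j r n)) :=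
          mul_le_mul_of_nonneg_left h4 (by positivity)
      _ = P2 S (Crs p j r n) := by field_simp
  · set q : ℤ := max r 2 with hq
    have hq2 : 2 ≤ q := le_max_right _ _
    have hqr : q ≤ 2 * r := by omega
    have hmono : P2 S (Crs p j r n) ≤ P2 S (Crs p j q n) := by
      apply Pr_mono okhalf
      intro F _ hF
      exact Crs_inner (le_max_left _ _) hF
    by_cases hb : 2 * q ≤ n
    · have h1 := pr_Crs_le hq2 hb hS
      have h2 := (h n (by omega)).2
      have h3 := (h (2 * q) (by omega)).1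
      have hq0 : 0 < cr ((2 * q : ℤ) : ℝ) := cr_pos (by exact_mod_cast (by omega : 0 < 2 * q))
      have h4 : c / cr ((2 * q : ℤ) : ℝ) * dlt ^ 3 * P2 S (Crs p j q n) ≤ C / cr n :=
        (mul_le_mul_of_nonneg_right (mul_le_mul_of_nonneg_right h3 hd3.le)
          (Pr_nonneg okhalf _ _)).trans (h1.trans h2)
      have h5 : P2 S (Crs p j q n) ≤ C / (c * dlt ^ 3) * (cr ((2 * q : ℤ) : ℝ) / cr n) := by
        have h6 : C / (c * dlt ^ 3) * (cr ((2 * q : ℤ) : ℝ) / cr n) =
            (cr ((2 * q : ℤ) : ℝ) / (c * dlt ^ 3)) * (C / cr n) := by field_simp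
        rw [h6]
        calc P2 S (Crs p j q n) = (cr ((2 * q : ℤ) : ℝ) / (c * dlt ^ 3)) *
              (c / cr ((2 * q : ℤ) : ℝ) * dlt ^ 3 * P2 S (Crs p j q n)) := by field_simp
          _ ≤ _ := mul_le_mul_of_nonneg_left h4 (by positivity)
      have h7 : cr ((2 * q : ℤ) : ℝ) ≤ 2 * cr r := by
        have h8 : ((2 * q : ℤ) : ℝ) ≤ 2 ^ 3 * r := by
          have : (q : ℝ) ≤ 2 * r := by exact_mod_cast hqr
          push_cast
          linarith
        calc cr ((2 * q : ℤ) : ℝ) ≤ cr (2 ^ 3 * r) :=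
              cr_mono (by exact_mod_cast (by omega : (0 : ℤ) ≤ 2 * q)) h8
          _ = 2 * cr r := by rw [cr_mul (by norm_num) (by linarith), cr_cube (by norm_num)]
      calc P2 S (Crs p j r n) ≤ P2 S (Crs p j q n) := hmono
        _ ≤ C / (c * dlt ^ 3) * (cr ((2 * q : ℤ) : ℝ) / cr n) := h5
        _ ≤ C / (c * dlt ^ 3) * ((2 * cr r) / cr n) := by
            refine mul_le_mul_of_nonneg_left ?_ (by positivity)
            exact div_le_div_of_nonneg_right h7 hcn.le
        _ = 2 * C / (c * dlt ^ 3) * (cr r / cr n) := by ring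
        _ ≤ _ := mul_le_mul_of_nonneg_right (le_max_left _ _) (by positivity)
    · push Not at hb
      have h1 : (n : ℝ) ≤ 2 ^ 3 * r := by
        have : n ≤ 4 * r := by omega
        have : (n : ℝ) ≤ 4 * r := by exact_mod_cast this
        linarith
      have h2 : cr n ≤ 2 * cr r := by
        calc cr (n : ℝ) ≤ cr (2 ^ 3 * r) := cr_mono (by linarith) h1
          _ = 2 * cr r := by rw [cr_mul (by norm_num) (by linarith), cr_cube (by norm_num)]
      have h3 : 1 ≤ 2 * (cr r / cr n) := by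
        rw [← mul_div_assoc, le_div_iff₀ hcn]
        linarith
      calc P2 S (Crs p j r n) ≤ 1 := Pr_le_one okhalf _ _
        _ ≤ 2 * (cr r / cr n) := h3
        _ ≤ _ := mul_le_mul_of_nonneg_right (le_max_right _ _) (by positivity)

/-- **Main estimate.** -/
theorem Hit_bounds : ∃ c C : ℝ, 0 < c ∧ 0 < C ∧ ∀ m k y r : ℤ, 1 ≤ r → r ≤ y → y ≤ m →
    2 * y ≤ k → c * cr ((r : ℝ) / y) ≤ P2 (RE 0 m 0 k) (Hit m k y r) ∧
      P2 (RE 0 m 0 k) (Hit m k y r) ≤ C * cr ((r : ℝ) / y) := by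
  obtain ⟨c, C, hc, hC, h⟩ := Crs_bounds
  obtain ⟨c', C', hc', hC', h'⟩ := HH_bounds
  have hd := dlt_pos
  refine ⟨min (min ((1/2) ^ 8) (c' * dlt ^ 4 / 2)) (c * dlt ^ 8 / 3), C, ?_, hC, ?_⟩
  · refine lt_min (lt_min (by positivity) (by positivity)) (by positivity)
  intro m k y r hr hry hym hyk
  have hrR : (1 : ℝ) ≤ r := by exact_mod_cast hr
  have hryR : (r : ℝ) ≤ y := by exact_mod_cast hry
  have hle1 : cr ((r : ℝ) / y) ≤ 1 := by
    rw [← cr_one]
    exact cr_mono (div_nonneg (by linarith) (by linarith))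
      (by rw [div_le_one (by linarith)]; exact hryR)
  have hnn : 0 ≤ cr ((r : ℝ) / y) := cr_nonneg (div_nonneg (by linarith) (by linarith))
  have hcy : 0 < cr (y : ℝ) := cr_pos (by linarith)
  have hcr : 0 < cr (r : ℝ) := cr_pos (by linarith)
  have hmono1 : P2 (RE 0 m 0 k) (Hit m k y 1) ≤ P2 (RE 0 m 0 k) (Hit m k y r) := by
    apply Pr_mono okhalf
    intro F _ hF
    exact Hit_mono hr hF
  constructor
  · by_cases hy8 : y < 8
    · -- small `y`
      have h1 := low0 (by omega : 1 ≤ y) hym hyk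
      have h2 : (1/2 : ℝ) ^ 8 ≤ (1/2 : ℝ) ^ y.toNat :=
        pow_le_pow_of_le_one (by norm_num) (by norm_num) (by omega)
      calc min (min ((1/2) ^ 8) (c' * dlt ^ 4 / 2)) (c * dlt ^ 8 / 3) * cr ((r : ℝ) / y)
          ≤ (1/2) ^ 8 * 1 := by
            refine mul_le_mul ?_ hle1 hnn (by positivity)
            exact (min_le_left _ _).trans (min_le_left _ _)
        _ ≤ (1/2 : ℝ) ^ y.toNat := by rw [mul_one]; exact h2
        _ ≤ _ := h1.trans hmono1
    · push Not at hy8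
      obtain ⟨t, ht1, ht2⟩ : ∃ t : ℤ, 2 * t ≤ y ∧ y ≤ 2 * t + 1 := ⟨y / 2, by omega, by omega⟩
      by_cases hr3 : r < 3
      · -- short intervals
        have h1 := low1 (by omega : 2 ≤ t) ht1 ht2 hym hyk
        have h2 := (h' (2 * t) (by omega)).1
        have h3 : cr ((2 * t : ℤ) : ℝ) ≤ cr y := cr_mono
          (by exact_mod_cast (by omega : (0 : ℤ) ≤ 2 * t)) (by exact_mod_cast ht1)
        have h4 : c' / cr y ≤ c' / cr ((2 * t : ℤ) : ℝ) :=
          div_le_div_of_nonneg_left hc'.le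
            (cr_pos (by exact_mod_cast (by omega : (0 : ℤ) < 2 * t))) h3
        have h5 : cr r ≤ 2 := by
          have h6 : (r : ℝ) ≤ 2 ^ 3 := by
            have : (r : ℝ) ≤ 2 := by exact_mod_cast (by omega : r ≤ 2)
            linarith
          calc cr (r : ℝ) ≤ cr (2 ^ 3) := cr_mono (by linarith) h6
            _ = 2 := cr_cube (by norm_num)
        calc min (min ((1/2) ^ 8) (c' * dlt ^ 4 / 2)) (c * dlt ^ 8 / 3) * cr ((r : ℝ) / y)
            ≤ (c' * dlt ^ 4 / 2) * (2 / cr y) := by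
              refine mul_le_mul ((min_le_left _ _).trans (min_le_right _ _)) ?_ hnn
                (by positivity)
              rw [cr_div (by linarith) (by linarith)]
              exact div_le_div_of_nonneg_right h5 hcy.le
          _ = c' / cr y * dlt ^ 4 := by ring
          _ ≤ HH (2 * t) * dlt ^ 4 :=
              mul_le_mul_of_nonneg_right (h4.trans h2) (by positivity)
          _ ≤ _ := h1.trans hmono1
      · push Not at hr3
        set s : ℤ := min (r - 1) (t / 2) with hs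
        have hs2 : 2 ≤ s := by omega
        have hst : 2 * s ≤ t := by omega
        have hsr : s + 1 ≤ r := by omega
        have h9 : r ≤ 9 * s := by omega
        have h1 := low2 (m := m) (k := k) hs2 hst ht1 ht2 hym hyk
        have h2 := (h m y (2 * s) (2 * t) (RE 0 m 0 k) (by omega) (by omega)
          (HE_sub (by omega) hym (by omega))).1
        have h3 : P2 (RE 0 m 0 k) (Hit m k y (s + 1)) ≤ P2 (RE 0 m 0 k) (Hit m k y r) := by
          apply Pr_mono okhalf
          intro F _ hF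
          exact Hit_mono hsr hF
        have h4 : cr ((r : ℝ) / y) ≤ 3 * cr (((2 * s : ℤ) : ℝ) / ((2 * t : ℤ) : ℝ)) := by
          have h5 : (3 : ℝ) = cr (3 ^ 3) := (cr_cube (by norm_num)).symm
          have hsR : (2 : ℝ) ≤ s := by exact_mod_cast hs2
          have htR : (4 : ℝ) ≤ t := by exact_mod_cast (by omega : (4 : ℤ) ≤ t)
          rw [h5, ← cr_mul (by norm_num) (by push_cast; positivity)]
          refine cr_mono (by positivity) ?_
          push_cast
          rw [← mul_div_assoc, div_le_div_iff₀ (by linarith) (by linarith)]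
          have h6 : (r : ℝ) ≤ 9 * s := by exact_mod_cast h9
          have h7 : 2 * (t : ℝ) ≤ y := by exact_mod_cast ht1
          have h8 : (0 : ℝ) ≤ y := by linarith
          calc (r : ℝ) * (2 * t) ≤ (9 * s) * y :=
                mul_le_mul h6 h7 (by linarith) (by linarith)
            _ ≤ 3 ^ 3 * (2 * s) * y := by nlinarith
        calc min (min ((1/2) ^ 8) (c' * dlt ^ 4 / 2)) (c * dlt ^ 8 / 3) * cr ((r : ℝ) / y)
            ≤ (c * dlt ^ 8 / 3) * (3 * cr (((2 * s : ℤ) : ℝ) / ((2 * t : ℤ) : ℝ))) :=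
              mul_le_mul (min_le_right _ _) h4 hnn (by positivity)
          _ = c * cr (((2 * s : ℤ) : ℝ) / ((2 * t : ℤ) : ℝ)) * dlt ^ 8 := by ring
          _ ≤ P2 (RE 0 m 0 k) (Crs m y (2 * s) (2 * t)) * dlt ^ 8 :=
              mul_le_mul_of_nonneg_right h2 (by positivity)
          _ ≤ _ := h1.trans h3
  · have h1 := (h m y r y (RE 0 m 0 k) hr hry (HE_sub le_rfl hym (by omega))).2
    refine le_trans ?_ h1
    apply Pr_mono okhalf
    intro F _ hF
    exact Hit_Crs (by omega) hry le_rfl hym hF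

end H985BT
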