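import Pool.Agent.H985R2.BT4

/-!
# Second moment of the number of intervals hit
-/

set_option autoImplicit false
set_option maxHeartbeats 400000

namespace H985BT

open H974 H973 Finset

/-- crossing of the half annulus which avoids the inner half box -/
def CrsO (p j r n : ℤ) (F : Finset Edg) : Prop :=
  ∃ u v, inH p j r u ∧ onH p j n v ∧ Reach ((↑F ∩ ↑(HE p j n)) \ ↑(HE p j r)) u v

theorem CrsO_incr (S : Finset Edg) (p j r n : ℤ) : IncrE S (CrsO p j r n) := by
  rintro F G h _ ⟨u, v, h1, h2, h3⟩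
  refine ⟨u, v, h1, h2, h3.mono ?_⟩
  rintro e ⟨⟨h4, h5⟩, h6⟩
  exact ⟨⟨Finset.mem_coe.mpr (h (Finset.mem_coe.mp h4)), h5⟩, h6⟩

theorem CrsO_local {p j r n : ℤ} {F S : Finset Edg} (hS : HE p j n \ HE p j r ⊆ S)
    (h : CrsO p j r n F) : CrsO p j r n (F ∩ S) := by
  obtain ⟨u, v, h1, h2, h3⟩ := h
  refine ⟨u, v, h1, h2, h3.mono ?_⟩
  rintro e ⟨⟨h4, h5⟩, h6⟩
  refine ⟨⟨?_, h5⟩, h6⟩
  rw [Finset.mem_coe, Finset.mem_inter]
  exact ⟨h4, hS (Finset.mem_sdiff.mpr ⟨h5, h6⟩)⟩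

theorem CrsO_Crs {p j r n : ℤ} {F : Finset Edg} (h : CrsO p j r n F) : Crs p j r n F := by
  obtain ⟨u, v, h1, h2, h3⟩ := h
  exact ⟨u, v, h1, h2, h3.mono Set.diff_subset⟩

theorem Crs_CrsO {p j r n : ℤ} {F : Finset Edg} (h : Crs p j r n F) : CrsO p j r n F := by
  obtain ⟨u, v, h1, h2, h3⟩ := h
  obtain ⟨w, hw1, hw2⟩ := last_exit h1 h3
  exact ⟨w, v, hw1, h2, hw2⟩

/-- Two disjoint half boxes. -/
theorem HE_disj {m y y' n : ℤ} (h : 2 * n < |y' - y|) : Disjoint (HE m y n) (HE m y' n) := by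
  rw [Finset.disjoint_left]
  intro e h1 h2
  have k1 := (mem_RE_ends h1).1
  have k2 := (mem_RE_ends h2).1
  unfold inR at k1 k2
  rcases abs_cases (y' - y) with ⟨h3, _⟩ | ⟨h3, _⟩ <;> omega

theorem pair_two {m k y y' r n : ℤ} (hr : 1 ≤ r) (hrn : r ≤ n) (hny : n ≤ y) (hny' : n ≤ y')
    (hym : y ≤ m) (hym' : y' ≤ m) (hyk : 2 * y ≤ k) (hyk' : 2 * y' ≤ k)
    (hd : 2 * n < |y' - y|) :
    P2 (RE 0 m 0 k) (fun F => Hit m k y r F ∧ Hit m k y' r F) ≤
      P2 (HE m y n) (Crs m y r n) * P2 (HE m y' n) (Crs m y' r n) := by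
  have hS1 : HE m y n ⊆ RE 0 m 0 k := HE_sub hny hym (by omega)
  have hS2 : HE m y' n ⊆ RE 0 m 0 k := HE_sub hny' hym' (by omega)
  have h1 := Pr_indep' hS1 hS2 (HE_disj hd) (Crs m y r n) (Crs m y' r n)
  unfold P2
  rw [← h1]
  apply Pr_mono okhalf
  rintro F _ ⟨k1, k2⟩
  exact ⟨(Crs_local (Finset.Subset.refl _)).mp (Hit_Crs (by omega) hrn hny (by omega) k1),
    (Crs_local (Finset.Subset.refl _)).mp (Hit_Crs (by omega) hrn hny' (by omega) k2)⟩

theorem pair_three {m k y y' r n R N : ℤ} (hr : 1 ≤ r) (hrn : r ≤ n) (hny : n ≤ y)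
    (hny' : n ≤ y') (hym : y ≤ m) (hym' : y' ≤ m) (hyk : 2 * y ≤ k) (hyk' : 2 * y' ≤ k)
    (hd : 2 * n < |y' - y|) (hR : n + |y' - y| ≤ R) (hRN : R ≤ N) (hNy : N ≤ y) :
    P2 (RE 0 m 0 k) (fun F => Hit m k y r F ∧ Hit m k y' r F) ≤
      P2 (HE m y n) (Crs m y r n) * P2 (HE m y' n) (Crs m y' r n) *
        P2 (RE 0 m 0 k) (Crs m y R N) := by
  set S : Finset Edg := RE 0 m 0 k with hS
  have hS1 : HE m y n ⊆ S := HE_sub hny hym (by omega)
  have hS2 : HE m y' n ⊆ S := HE_sub hny' hym' (by omega)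
  have hSN : HE m y N ⊆ S := HE_sub hNy hym (by omega)
  set T : Finset Edg := HE m y n ∪ HE m y' n with hT
  have hTS : T ⊆ S := Finset.union_subset hS1 hS2
  set U : Finset Edg := S \ HE m y R with hU
  have hTR : T ⊆ HE m y R := by
    intro e he
    rw [hT, Finset.mem_union] at he
    have hab : 0 ≤ |y' - y| := abs_nonneg _
    rcases he with he | he
    · exact HE_mono (by omega) he
    · have k1 := mem_RE_ends he
      unfold inR at k1
      unfold HE
      rcases abs_cases (y' - y) with ⟨h3, _⟩ | ⟨h3, _⟩ <;>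
        exact mem_RE_of_ends (by unfold inR; omega) (by unfold inR; omega)
  have hdis : Disjoint T U := by
    rw [Finset.disjoint_left]
    intro e h1 h2
    rw [hU, Finset.mem_sdiff] at h2
    exact h2.2 (hTR h1)
  have i1 : P2 S (fun F => Hit m k y r F ∧ Hit m k y' r F) ≤
      P2 S (fun F => (Crs m y r n ((F ∩ T) ∩ HE m y n) ∧ Crs m y' r n ((F ∩ T) ∩ HE m y' n)) ∧
        CrsO m y R N (F ∩ U)) := by
    apply Pr_mono okhalf
    rintro F hF ⟨k1, k2⟩
    have e1 : (F ∩ T) ∩ HE m y n = F ∩ HE m y n := by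
      rw [Finset.inter_assoc, Finset.inter_eq_right.mpr Finset.subset_union_left]
    have e2 : (F ∩ T) ∩ HE m y' n = F ∩ HE m y' n := by
      rw [Finset.inter_assoc, Finset.inter_eq_right.mpr Finset.subset_union_right]
    rw [e1, e2]
    refine ⟨⟨(Crs_local (Finset.Subset.refl _)).mp (Hit_Crs (by omega) hrn hny (by omega) k1),
      (Crs_local (Finset.Subset.refl _)).mp (Hit_Crs (by omega) hrn hny' (by omega) k2)⟩, ?_⟩
    have hab : 0 ≤ |y' - y| := abs_nonneg _
    have h3 : Crs m y R N F := Hit_Crs (q := R) (by omega) hRN hNy (by omega) k1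
    refine CrsO_local ?_ (Crs_CrsO h3)
    intro e he
    rw [Finset.mem_sdiff] at he
    rw [hU, Finset.mem_sdiff]
    exact ⟨hSN he.1, he.2⟩
  have i2 := Pr_indep' hTS (Finset.sdiff_subset : U ⊆ S) hdis
    (fun G => Crs m y r n (G ∩ HE m y n) ∧ Crs m y' r n (G ∩ HE m y' n)) (CrsO m y R N)
  have i3 := Pr_indep' (U := T) (S := HE m y n) (T := HE m y' n) Finset.subset_union_left
    Finset.subset_union_right (HE_disj hd) (Crs m y r n) (Crs m y' r n)
  unfold P2 at i1 ⊢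
  rw [i2, i3] at i1
  refine i1.trans (mul_le_mul_of_nonneg_left ?_
    (mul_nonneg (Pr_nonneg okhalf _ _) (Pr_nonneg okhalf _ _)))
  refine (Pr_mono_set okhalf (Finset.sdiff_subset : U ⊆ S) (CrsO_incr S m y R N)).trans ?_
  apply Pr_mono okhalf
  intro F _ hF
  exact CrsO_Crs hF

theorem cr_le_two {x : ℝ} (hx : 0 ≤ x) (h : x ≤ 8) : cr x ≤ 2 := by
  calc cr x ≤ cr (2 ^ 3) := cr_mono hx (by linarith)
    _ = 2 := cr_cube (by norm_num)

theorem cr_two_le {x y : ℝ} (hx : 0 ≤ x) (hy : 0 ≤ y) (h : x ≤ 8 * y) : cr x ≤ 2 * cr y := by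
  calc cr x ≤ cr (2 ^ 3 * y) := cr_mono hx (by linarith)
    _ = 2 * cr y := by rw [cr_mul (by norm_num) hy, cr_cube (by norm_num)]

/-- Two intervals. -/
theorem pair_bound : ∃ K : ℝ, 0 < K ∧ ∀ m k q r i i' : ℤ, 1 ≤ r → 2 * (q * r) ≤ m →
    4 * (q * r) ≤ k → 1 ≤ q → q ≤ i → i < i' → i' < 2 * q →
    P2 (RE 0 m 0 k) (fun F => Hit m k (i * r) r F ∧ Hit m k (i' * r) r F) ≤
      K * cr (1 / ((i' - i : ℤ) : ℝ)) * cr (1 / (q : ℝ)) := by
  obtain ⟨c, C, hc, hC, h⟩ := Crs_bounds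
  obtain ⟨c', C', hc', hC', h'⟩ := Hit_bounds
  refine ⟨max (2 * C') (max (8 * C ^ 3) (8 * C ^ 2)), lt_max_of_lt_left (by positivity), ?_⟩
  intro m k q r i i' hr hm hk hq hqi hii hi2
  obtain ⟨d, hd⟩ : ∃ d : ℤ, i' - i = d := ⟨_, rfl⟩
  rw [hd]
  have hd1 : 1 ≤ d := by omega
  have hqR : (1 : ℝ) ≤ q := by exact_mod_cast hq
  have hdR : (1 : ℝ) ≤ d := by exact_mod_cast hd1
  have hrR : (1 : ℝ) ≤ r := by exact_mod_cast hr
  have hiR : (q : ℝ) ≤ i := by exact_mod_cast hqi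
  have hcd : 0 ≤ cr (1 / (d : ℝ)) := cr_nonneg (by positivity)
  have hcq : 0 ≤ cr (1 / (q : ℝ)) := cr_nonneg (by positivity)
  have a1 : q * r ≤ i * r := mul_le_mul_of_nonneg_right hqi (by omega)
  have a2 : i * r ≤ 2 * (q * r) := by
    have : i * r ≤ (2 * q) * r := mul_le_mul_of_nonneg_right (by omega) (by omega)
    linarith
  have a3 : i' * r ≤ 2 * (q * r) := by
    have : i' * r ≤ (2 * q) * r := mul_le_mul_of_nonneg_right (by omega) (by omega)
    linarith
  have a4 : i' * r - i * r = d * r := by rw [← hd]; ring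
  have a5 : r ≤ q * r := le_mul_of_one_le_left (by omega) hq
  have a6 : |i' * r - i * r| = d * r := by
    rw [a4, abs_of_nonneg (mul_nonneg (by omega) (by omega))]
  by_cases h8 : d < 8
  · have h1 := (h' m k (i * r) r hr (by omega) (by omega) (by omega)).2
    have h2 : cr ((r : ℝ) / ((i * r : ℤ) : ℝ)) ≤ cr (1 / (q : ℝ)) := by
      refine cr_mono (div_nonneg (by linarith) (by push_cast; nlinarith)) ?_
      push_cast
      rw [div_le_div_iff₀ (by nlinarith) (by linarith)]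
      nlinarith
    have h3 : 1 ≤ 2 * cr (1 / (d : ℝ)) := by
      have h4 : cr 1 ≤ 2 * cr (1 / (d : ℝ)) := by
        refine cr_two_le (by norm_num) (by positivity) ?_
        have : (d : ℝ) ≤ 8 := by exact_mod_cast (by omega : d ≤ 8)
        rw [← mul_div_assoc, le_div_iff₀ (by linarith)]
        linarith
      rwa [cr_one] at h4
    calc P2 (RE 0 m 0 k) (fun F => Hit m k (i * r) r F ∧ Hit m k (i' * r) r F)
        ≤ P2 (RE 0 m 0 k) (Hit m k (i * r) r) := Pr_mono okhalf (fun F _ hF => hF.1)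
      _ ≤ C' * cr ((r : ℝ) / ((i * r : ℤ) : ℝ)) := h1
      _ ≤ C' * cr (1 / (q : ℝ)) := mul_le_mul_of_nonneg_left h2 hC'.le
      _ ≤ C' * cr (1 / (q : ℝ)) * (2 * cr (1 / (d : ℝ))) :=
          le_mul_of_one_le_right (by positivity) h3
      _ = 2 * C' * cr (1 / (d : ℝ)) * cr (1 / (q : ℝ)) := by ring
      _ ≤ _ := by
          refine mul_le_mul_of_nonneg_right (mul_le_mul_of_nonneg_right (le_max_left _ _) hcd) hcq
  · push Not at h8
    obtain ⟨e, he1, he2, he3⟩ : ∃ e : ℤ, 2 ≤ e ∧ 4 * e ≤ d ∧ d ≤ 8 * e :=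
      ⟨d / 4, by omega, by omega, by omega⟩
    have heR : (2 : ℝ) ≤ e := by exact_mod_cast he1
    have b1 : r ≤ e * r := le_mul_of_one_le_left (by omega) (by omega)
    have b2 : 4 * (e * r) ≤ d * r := by
      have : (4 * e) * r ≤ d * r := mul_le_mul_of_nonneg_right he2 (by omega)
      linarith
    have b3 : e * r ≤ q * r := mul_le_mul_of_nonneg_right (by omega) (by omega)
    have b4 : 0 < e * r := by positivity
    have hne : cr ((r : ℝ) / ((e * r : ℤ) : ℝ)) ≤ 2 * cr (1 / (d : ℝ)) := by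
      refine cr_two_le (div_nonneg (by linarith) (by push_cast; nlinarith)) (by positivity) ?_
      push_cast
      rw [← mul_div_assoc, div_le_div_iff₀ (by nlinarith) (by linarith)]
      have : (d : ℝ) ≤ 8 * e := by exact_mod_cast he3
      nlinarith
    have hne0 : 0 ≤ cr ((r : ℝ) / ((e * r : ℤ) : ℝ)) :=
      cr_nonneg (div_nonneg (by linarith) (by push_cast; nlinarith))
    have g1 := (h m (i * r) r (e * r) (HE m (i * r) (e * r)) hr b1 (Finset.Subset.refl _)).2
    have g2 := (h m (i' * r) r (e * r) (HE m (i' * r) (e * r)) hr b1 (Finset.Subset.refl _)).2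
    have g12 : P2 (HE m (i * r) (e * r)) (Crs m (i * r) r (e * r)) *
        P2 (HE m (i' * r) (e * r)) (Crs m (i' * r) r (e * r)) ≤
        (C * (2 * cr (1 / (d : ℝ)))) * (C * (2 * cr (1 / (d : ℝ)))) :=
      mul_le_mul (g1.trans (mul_le_mul_of_nonneg_left hne hC.le))
        (g2.trans (mul_le_mul_of_nonneg_left hne hC.le)) (Pr_nonneg okhalf _ _) (by positivity)
    by_cases h2d : 2 * d ≤ q
    · have b5 : 2 * (d * r) ≤ q * r := by
        have : (2 * d) * r ≤ q * r := mul_le_mul_of_nonneg_right h2d (by omega)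
        linarith
      have h1 := pair_three (m := m) (k := k) (y := i * r) (y' := i' * r) (r := r) (n := e * r)
        (R := 2 * (d * r)) (N := q * r) hr b1 (by omega) (by omega) (by omega) (by omega)
        (by omega) (by omega) (by rw [a6]; omega) (by rw [a6]; omega) b5 a1
      have g3 := (h m (i * r) (2 * (d * r)) (q * r) (RE 0 m 0 k) (by omega) b5
        (HE_sub a1 (by omega) (by omega))).2
      have hg3 : cr (((2 * (d * r) : ℤ) : ℝ) / ((q * r : ℤ) : ℝ)) ≤ 2 * cr ((d : ℝ) / q) := by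
        refine cr_two_le (div_nonneg (by push_cast; nlinarith) (by push_cast; nlinarith))
          (by positivity) ?_
        push_cast
        rw [← mul_div_assoc, div_le_div_iff₀ (by nlinarith) (by linarith)]
        nlinarith [mul_nonneg (mul_nonneg (by linarith : (0:ℝ) ≤ d) (by linarith : (0:ℝ) ≤ r))
          (by linarith : (0:ℝ) ≤ q)]
      have hprod : cr (1 / (d : ℝ)) * cr ((d : ℝ) / q) = cr (1 / (q : ℝ)) := by
        rw [← cr_mul (by positivity) (by positivity)]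
        congr 1
        field_simp
      calc P2 (RE 0 m 0 k) (fun F => Hit m k (i * r) r F ∧ Hit m k (i' * r) r F)
          ≤ _ := h1
        _ ≤ ((C * (2 * cr (1 / (d : ℝ)))) * (C * (2 * cr (1 / (d : ℝ))))) *
            (C * (2 * cr ((d : ℝ) / q))) :=
            mul_le_mul g12 (g3.trans (mul_le_mul_of_nonneg_left hg3 hC.le))
              (Pr_nonneg okhalf _ _) (by positivity)
        _ = 8 * C ^ 3 * cr (1 / (d : ℝ)) * (cr (1 / (d : ℝ)) * cr ((d : ℝ) / q)) := by ring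
        _ = 8 * C ^ 3 * cr (1 / (d : ℝ)) * cr (1 / (q : ℝ)) := by rw [hprod]
        _ ≤ _ := by
            refine mul_le_mul_of_nonneg_right (mul_le_mul_of_nonneg_right ?_ hcd) hcq
            exact (le_max_left _ _).trans (le_max_right _ _)
    · push Not at h2d
      have h1 := pair_two (m := m) (k := k) (y := i * r) (y' := i' * r) (r := r) (n := e * r)
        hr b1 (by omega) (by omega) (by omega) (by omega) (by omega) (by omega)
        (by rw [a6]; omega)
      have h3 : cr (1 / (d : ℝ)) ≤ 2 * cr (1 / (q : ℝ)) := by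
        refine cr_two_le (by positivity) (by positivity) ?_
        rw [← mul_div_assoc, div_le_div_iff₀ (by linarith) (by linarith)]
        have : (q : ℝ) ≤ 2 * d := by exact_mod_cast h2d.le
        linarith
      calc P2 (RE 0 m 0 k) (fun F => Hit m k (i * r) r F ∧ Hit m k (i' * r) r F)
          ≤ _ := h1
        _ ≤ (C * (2 * cr (1 / (d : ℝ)))) * (C * (2 * cr (1 / (d : ℝ)))) := g12
        _ = 4 * C ^ 2 * cr (1 / (d : ℝ)) * cr (1 / (d : ℝ)) := by ring
        _ ≤ 4 * C ^ 2 * cr (1 / (d : ℝ)) * (2 * cr (1 / (q : ℝ))) :=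
            mul_le_mul_of_nonneg_left h3 (by positivity)
        _ = 8 * C ^ 2 * cr (1 / (d : ℝ)) * cr (1 / (q : ℝ)) := by ring
        _ ≤ _ := by
            refine mul_le_mul_of_nonneg_right (mul_le_mul_of_nonneg_right ?_ hcd) hcq
            exact (le_max_right _ _).trans (le_max_right _ _)

end H985BT
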