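import Pool.Agent.H985R2.BT5

/-!
# The number of intervals hit: order `q ^ (2/3)` with positive probability
-/

set_option autoImplicit false
set_option maxHeartbeats 400000

namespace H985BT

open H974 H973 Finset

/-- expectation for fair edges -/
noncomputable abbrev E2 (S : Finset Edg) (f : Finset Edg → ℝ) : ℝ :=
  Ex (fun _ => (1/2 : ℝ)) S f

/-- Second moment method. -/
theorem paley (S : Finset Edg) (f : Finset Edg → ℝ) {M V : ℝ} (hM : 0 < M)
    (hM1 : M ≤ E2 S f) (hV : E2 S (fun F => f F ^ 2) ≤ V) (hV0 : 0 < V) :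
    M ^ 2 / (4 * V) ≤ P2 S (fun F => M / 2 ≤ f F) := by
  obtain ⟨t, ht⟩ : ∃ t : ℝ, M / (2 * V) = t := ⟨_, rfl⟩
  have ht0 : 0 < t := by rw [← ht]; positivity
  have hpt : ∀ F, F ⊆ S → f F ≤ M / 2 + (t / 2 * f F ^ 2 + 1 / (2 * t) * ind (M / 2 ≤ f F)) := by
    intro F _
    by_cases h : M / 2 ≤ f F
    · rw [ind_of h, mul_one]
      have h1 : f F ≤ t / 2 * f F ^ 2 + 1 / (2 * t) := by
        have h2 : t / 2 * f F ^ 2 + 1 / (2 * t) - f F = (t * f F - 1) ^ 2 / (2 * t) := by
          field_simp; ring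
        have h3 : 0 ≤ (t * f F - 1) ^ 2 / (2 * t) := by positivity
        linarith
      linarith
    · rw [ind_not_of h, mul_zero, add_zero]
      push Not at h
      have : 0 ≤ t / 2 * f F ^ 2 := by positivity
      linarith
  have h1 := Ex_mono okhalf hpt
  rw [Ex_add, Ex_const, Ex_add, Ex_mul_left, Ex_mul_left] at h1
  have h2 : M ≤ M / 2 + (t / 2 * V + 1 / (2 * t) * P2 S (fun F => M / 2 ≤ f F)) := by
    refine hM1.trans (h1.trans ?_)
    have h3 : t / 2 * Ex (fun _ => (1/2 : ℝ)) S (fun F => f F ^ 2) ≤ t / 2 * V :=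
      mul_le_mul_of_nonneg_left hV (by positivity)
    unfold P2 Pr
    linarith
  generalize hp : P2 S (fun F => M / 2 ≤ f F) = p at h2 ⊢
  have h3 : t * M - t ^ 2 * V ≤ p := by
    have h4 : M / 2 - t / 2 * V ≤ 1 / (2 * t) * p := by linarith
    have h5 : 2 * t * (M / 2 - t / 2 * V) ≤ 2 * t * (1 / (2 * t) * p) :=
      mul_le_mul_of_nonneg_left h4 (by positivity)
    have h6 : 2 * t * (1 / (2 * t) * p) = p := by field_simp
    have h7 : 2 * t * (M / 2 - t / 2 * V) = t * M - t ^ 2 * V := by ring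
    linarith
  have h4 : t * M - t ^ 2 * V = M ^ 2 / (4 * V) := by
    rw [← ht]
    field_simp
    ring
  linarith

theorem markov (S : Finset Edg) (f : Finset Edg → ℝ) (hf : ∀ F, 0 ≤ f F) {L M : ℝ} (hL : 0 < L)
    (hM1 : E2 S f ≤ M) : P2 S (fun F => L < f F) ≤ M / L := by
  rw [le_div_iff₀ hL]
  refine le_trans ?_ hM1
  have hpt : ∀ F, F ⊆ S → L * ind (L < f F) ≤ f F := by
    intro F _
    by_cases h : L < f F
    · rw [ind_of h, mul_one]; exact h.le
    · rw [ind_not_of h, mul_zero]; exact hf F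
  have h1 := Ex_mono okhalf hpt
  rw [Ex_mul_left] at h1
  unfold P2 Pr
  linarith

theorem sum_cr (q : ℕ) : ∑ d ∈ Icc 1 q, cr (1 / (d : ℝ)) ≤ 2 * cr (q : ℝ) ^ 2 := by
  induction q with
  | zero => simp; positivity
  | succ n ih =>
    rw [Finset.sum_Icc_succ_top (by omega)]
    have hn : (0 : ℝ) ≤ n := Nat.cast_nonneg n
    have h1 : cr (1 / ((n + 1 : ℕ) : ℝ)) = 1 / cr ((n + 1 : ℕ) : ℝ) := by
      rw [cr_div (by norm_num) (by positivity), cr_one]
    rw [h1]
    have ha3 := cr_pow (x := ((n + 1 : ℕ) : ℝ)) (by positivity)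
    have hb3 := cr_pow (x := (n : ℝ)) hn
    have ha : 0 < cr ((n + 1 : ℕ) : ℝ) := cr_pos (by positivity)
    have hb : 0 ≤ cr (n : ℝ) := cr_nonneg hn
    have hab : cr (n : ℝ) ≤ cr ((n + 1 : ℕ) : ℝ) := cr_mono hn (by push_cast; linarith)
    generalize cr ((n + 1 : ℕ) : ℝ) = a at *
    generalize cr (n : ℝ) = b at *
    have hdiff : a ^ 3 - b ^ 3 = 1 := by rw [ha3, hb3]; push_cast; ring
    have key : 1 / a ≤ 2 * a ^ 2 - 2 * b ^ 2 := by
      rw [div_le_iff₀ ha]
      have h2 : (2 * a ^ 2 - 2 * b ^ 2) * a - (a ^ 3 - b ^ 3) = (a - b) * (a ^ 2 + a * b - b ^ 2) := by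
        ring
      have h3 : 0 ≤ (a - b) * (a ^ 2 + a * b - b ^ 2) := by
        refine mul_nonneg (by linarith) ?_
        nlinarith
      linarith
    linarith

/-- the number of intervals `[i r, (i+1) r)`, `q ≤ i < 2 q`, of the right side which are hit -/
noncomputable def NH (m k q r : ℤ) (F : Finset Edg) : ℝ :=
  ∑ i ∈ Finset.Ico q (2 * q), ind (Hit m k (i * r) r F)

theorem NH_nonneg (m k q r : ℤ) (F : Finset Edg) : 0 ≤ NH m k q r F :=
  Finset.sum_nonneg fun _ _ => ind_nonneg _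

theorem E_NH (m k q r : ℤ) (S : Finset Edg) :
    E2 S (NH m k q r) = ∑ i ∈ Finset.Ico q (2 * q), P2 S (Hit m k (i * r) r) := by
  unfold E2 P2 Pr
  rw [← Ex_sum]
  rfl

theorem E_NH_sq (m k q r : ℤ) (S : Finset Edg) :
    E2 S (fun F => NH m k q r F ^ 2) = ∑ i ∈ Finset.Ico q (2 * q), ∑ i' ∈ Finset.Ico q (2 * q),
      P2 S (fun F => Hit m k (i * r) r F ∧ Hit m k (i' * r) r F) := by
  have h1 : ∀ F, F ⊆ S → NH m k q r F ^ 2 = ∑ i ∈ Finset.Ico q (2 * q),
      ∑ i' ∈ Finset.Ico q (2 * q), ind (Hit m k (i * r) r F ∧ Hit m k (i' * r) r F) := by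
    intro F _
    unfold NH
    rw [pow_two, Finset.sum_mul_sum]
    refine Finset.sum_congr rfl fun i _ => Finset.sum_congr rfl fun i' _ => ?_
    rw [ind_and]
  unfold E2
  rw [Ex_congr h1, Ex_sum]
  refine Finset.sum_congr rfl fun i _ => ?_
  rw [Ex_sum]
  rfl

theorem card_Ico_int (q : ℤ) (hq : 1 ≤ q) : ((Finset.Ico q (2 * q)).card : ℝ) = q := by
  rw [Int.card_Ico]
  have h : ((2 * q - q).toNat : ℤ) = q := by omega
  have h' : (((2 * q - q).toNat : ℤ) : ℝ) = (q : ℝ) := by rw [h]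
  exact_mod_cast h'

/-- **Second main estimate.** -/
theorem count_bounds : ∃ c C δ : ℝ, 0 < c ∧ 0 < C ∧ 0 < δ ∧ ∀ m k q r : ℤ, 1 ≤ q → 1 ≤ r →
    2 * (q * r) ≤ m → 4 * (q * r) ≤ k →
    δ ≤ P2 (RE 0 m 0 k) (fun F => c * cr q ^ 2 ≤ NH m k q r F ∧ NH m k q r F ≤ C * cr q ^ 2) := by
  obtain ⟨c, C, hc, hC, h⟩ := Hit_bounds
  obtain ⟨K, hK, hpair⟩ := pair_bound
  set V0 : ℝ := C + 4 * K with hV0
  have hV0p : 0 < V0 := by rw [hV0]; positivity
  set δ0 : ℝ := (c / 2) ^ 2 / (4 * V0) with hδ0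
  have hδ0p : 0 < δ0 := by rw [hδ0]; positivity
  refine ⟨c / 4, 2 * C / δ0, δ0 / 2, by positivity, by positivity, by positivity, ?_⟩
  intro m k q r hq hr hm hk
  have hqR : (1 : ℝ) ≤ q := by exact_mod_cast hq
  have hrR : (1 : ℝ) ≤ r := by exact_mod_cast hr
  have hq0 : (0 : ℝ) < q := by linarith
  have ha : 0 < cr (q : ℝ) := cr_pos hq0
  have ha3 := cr_pow hq0.le
  have ha1 : 1 ≤ cr (q : ℝ) := by
    rw [← cr_one]; exact cr_mono (by norm_num) hqR
  have hinv : cr (1 / (q : ℝ)) = 1 / cr (q : ℝ) := by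
    rw [cr_div (by norm_num) hq0.le, cr_one]
  obtain ⟨a, hadef⟩ : ∃ a, cr (q : ℝ) = a := ⟨_, rfl⟩
  rw [hadef] at ha ha3 ha1 hinv ⊢
  -- bounds for one interval
  have hone : ∀ i ∈ Finset.Ico q (2 * q), c / 2 / a ≤ P2 (RE 0 m 0 k) (Hit m k (i * r) r) ∧
      P2 (RE 0 m 0 k) (Hit m k (i * r) r) ≤ C / a := by
    intro i hi
    rw [Finset.mem_Ico] at hi
    have hiR : (q : ℝ) ≤ i := by exact_mod_cast hi.1
    have hiR2 : (i : ℝ) ≤ 2 * q := by exact_mod_cast hi.2.le
    have a1 : r ≤ i * r := le_mul_of_one_le_left (by omega) (by omega)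
    have a2 : i * r ≤ 2 * (q * r) := by
      have : i * r ≤ (2 * q) * r := mul_le_mul_of_nonneg_right (by omega) (by omega)
      linarith
    obtain ⟨h1, h2⟩ := h m k (i * r) r hr a1 (by omega) (by omega)
    have e1 : (r : ℝ) / ((i * r : ℤ) : ℝ) = 1 / i := by
      push_cast
      field_simp
    rw [e1] at h1 h2
    constructor
    · refine le_trans ?_ h1
      have h3 : cr (1 / (q : ℝ)) ≤ 2 * cr (1 / (i : ℝ)) := by
        refine cr_two_le (by positivity) (one_div_nonneg.mpr (by linarith)) ?_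
        rw [← mul_div_assoc, div_le_div_iff₀ hq0 (by linarith)]
        linarith
      rw [hinv] at h3
      calc c / 2 / a = c * ((1 / a) / 2) := by ring
        _ ≤ c * cr (1 / (i : ℝ)) := mul_le_mul_of_nonneg_left (by linarith) hc.le
    · refine h2.trans ?_
      have h3 : cr (1 / (i : ℝ)) ≤ cr (1 / (q : ℝ)) := by
        refine cr_mono (one_div_nonneg.mpr (by linarith)) ?_
        rw [div_le_div_iff₀ (by linarith) hq0]
        linarith
      rw [hinv] at h3
      calc C * cr (1 / (i : ℝ)) ≤ C * (1 / a) := mul_le_mul_of_nonneg_left h3 hC.le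
        _ = C / a := by ring
  have hsum1 : c / 2 * a ^ 2 ≤ E2 (RE 0 m 0 k) (NH m k q r) := by
    rw [E_NH]
    have h1 : ∑ _i ∈ Finset.Ico q (2 * q), c / 2 / a ≤
        ∑ i ∈ Finset.Ico q (2 * q), P2 (RE 0 m 0 k) (Hit m k (i * r) r) :=
      Finset.sum_le_sum fun i hi => (hone i hi).1
    rw [Finset.sum_const, nsmul_eq_mul, card_Ico_int q hq] at h1
    refine le_trans (le_of_eq ?_) h1
    rw [← ha3]
    field_simp
  have hsum2 : E2 (RE 0 m 0 k) (NH m k q r) ≤ C * a ^ 2 := by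
    rw [E_NH]
    have h1 : ∑ i ∈ Finset.Ico q (2 * q), P2 (RE 0 m 0 k) (Hit m k (i * r) r) ≤
        ∑ _i ∈ Finset.Ico q (2 * q), C / a :=
      Finset.sum_le_sum fun i hi => (hone i hi).2
    rw [Finset.sum_const, nsmul_eq_mul, card_Ico_int q hq] at h1
    refine h1.trans (le_of_eq ?_)
    rw [← ha3]
    field_simp
  have hsq : E2 (RE 0 m 0 k) (fun F => NH m k q r F ^ 2) ≤ V0 * a ^ 4 := by
    rw [E_NH_sq]
    have hrow : ∀ i ∈ Finset.Ico q (2 * q), ∑ i' ∈ Finset.Ico q (2 * q),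
        P2 (RE 0 m 0 k) (fun F => Hit m k (i * r) r F ∧ Hit m k (i' * r) r F) ≤
        C / a + ∑ i' ∈ Finset.Ico q (2 * q),
          (if i' = i then 0 else K * cr (1 / |((i' - i : ℤ) : ℝ)|) * (1 / a)) := by
      intro i hi
      have h1 : ∀ i' ∈ Finset.Ico q (2 * q),
          P2 (RE 0 m 0 k) (fun F => Hit m k (i * r) r F ∧ Hit m k (i' * r) r F) ≤
          (if i' = i then C / a else 0) +
          (if i' = i then 0 else K * cr (1 / |((i' - i : ℤ) : ℝ)|) * (1 / a)) := by
        intro i' hi'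
        rw [Finset.mem_Ico] at hi'
        have hi2 := Finset.mem_Ico.mp hi
        rcases lt_trichotomy i i' with hlt | heq | hgt
        · rw [if_neg (by omega), if_neg (by omega), zero_add]
          have h2 := hpair m k q r i i' hr hm hk hq hi2.1 hlt hi'.2
          rw [hinv] at h2
          have h3 : |((i' - i : ℤ) : ℝ)| = ((i' - i : ℤ) : ℝ) :=
            abs_of_nonneg (by exact_mod_cast (by omega : 0 ≤ i' - i))
          rw [h3]
          exact h2
        · subst heq
          rw [if_pos rfl, if_pos rfl, add_zero]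
          refine le_trans ?_ (hone i hi).2
          exact Pr_mono okhalf (fun F _ hF => hF.1)
        · rw [if_neg (by omega), if_neg (by omega), zero_add]
          have h2 := hpair m k q r i' i hr hm hk hq hi'.1 hgt hi2.2
          rw [hinv] at h2
          have h3 : |((i' - i : ℤ) : ℝ)| = ((i - i' : ℤ) : ℝ) := by
            rw [abs_of_nonpos (by exact_mod_cast (by omega : i' - i ≤ 0))]
            push_cast; ring
          rw [h3]
          refine le_trans ?_ h2
          exact Pr_mono okhalf (fun F _ hF => ⟨hF.2, hF.1⟩)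
      refine (Finset.sum_le_sum h1).trans ?_
      rw [Finset.sum_add_distrib, Finset.sum_ite_eq' (Finset.Ico q (2 * q)) i, if_pos hi]
    have hrow2 : ∀ i ∈ Finset.Ico q (2 * q), ∑ i' ∈ Finset.Ico q (2 * q),
          (if i' = i then 0 else K * cr (1 / |((i' - i : ℤ) : ℝ)|) * (1 / a)) ≤
        4 * K * a := by
      intro i hi
      have hi2 := Finset.mem_Ico.mp hi
      obtain ⟨Q, hQ⟩ : ∃ Q : ℕ, q = (Q : ℤ) := ⟨q.toNat, by omega⟩
      have hb : ∑ i' ∈ Finset.Ico q (2 * q),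
          (if i' = i then 0 else K * cr (1 / |((i' - i : ℤ) : ℝ)|) * (1 / a)) ≤
          ∑ d ∈ Icc 1 Q, 2 * (K * cr (1 / (d : ℝ)) * (1 / a)) := by
        have hsplit : ∑ i' ∈ Finset.Ico q (2 * q),
            (if i' = i then 0 else K * cr (1 / |((i' - i : ℤ) : ℝ)|) * (1 / a)) =
            ∑ i' ∈ (Finset.Ico q (2 * q)).filter (fun i' => ¬ i' = i),
              K * cr (1 / |((i' - i : ℤ) : ℝ)|) * (1 / a) := by
          rw [Finset.sum_filter]
          refine Finset.sum_congr rfl fun i' _ => ?_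
          by_cases hh : i' = i
          · rw [if_pos hh, if_neg (not_not.mpr hh)]
          · rw [if_neg hh, if_pos hh]
        rw [hsplit]
        have hmaps : ∀ i' ∈ (Finset.Ico q (2 * q)).filter (fun i' => ¬ i' = i),
            (i' - i).natAbs ∈ Icc 1 Q := by
          intro i' hi'
          rw [Finset.mem_filter, Finset.mem_Ico] at hi'
          rw [Finset.mem_Icc]
          omega
        rw [← Finset.sum_fiberwise_of_maps_to hmaps]
        refine Finset.sum_le_sum fun d hd => ?_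
        have hval : ∀ i' ∈ ((Finset.Ico q (2 * q)).filter (fun i' => ¬ i' = i)).filter
            (fun i' => (i' - i).natAbs = d),
            K * cr (1 / |((i' - i : ℤ) : ℝ)|) * (1 / a) = K * cr (1 / (d : ℝ)) * (1 / a) := by
          intro i' hi'
          rw [Finset.mem_filter] at hi'
          have : |((i' - i : ℤ) : ℝ)| = (d : ℝ) := by
            rw [← hi'.2, Nat.cast_natAbs]
            push_cast
            rfl
          rw [this]
        rw [Finset.sum_congr rfl hval, Finset.sum_const, nsmul_eq_mul]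
        refine mul_le_mul_of_nonneg_right ?_ ?_
        · have hcard : (((Finset.Ico q (2 * q)).filter (fun i' => ¬ i' = i)).filter
              (fun i' => (i' - i).natAbs = d)).card ≤ 2 := by
            refine (Finset.card_le_card (t := {i + d, i - d}) ?_).trans Finset.card_le_two
            intro i' hi'
            rw [Finset.mem_filter] at hi'
            rw [Finset.mem_insert, Finset.mem_singleton]
            omega
          exact_mod_cast hcard
        · have : 0 ≤ cr (1 / (d : ℝ)) := cr_nonneg (by positivity)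
          positivity
      refine hb.trans ?_
      rw [← Finset.mul_sum]
      have e1 : ∑ d ∈ Icc 1 Q, K * cr (1 / (d : ℝ)) * (1 / a) =
          K * (1 / a) * ∑ d ∈ Icc 1 Q, cr (1 / (d : ℝ)) := by
        rw [Finset.mul_sum]
        refine Finset.sum_congr rfl fun d _ => by ring
      rw [e1]
      have h5 := sum_cr Q
      have h6 : cr (Q : ℝ) = a := by rw [← hadef, hQ]; push_cast; rfl
      rw [h6] at h5
      calc 2 * (K * (1 / a) * ∑ d ∈ Icc 1 Q, cr (1 / (d : ℝ)))
          ≤ 2 * (K * (1 / a) * (2 * a ^ 2)) := by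
            refine mul_le_mul_of_nonneg_left (mul_le_mul_of_nonneg_left h5 (by positivity))
              (by norm_num)
        _ = 4 * K * a := by field_simp; ring
    have htot : ∑ i ∈ Finset.Ico q (2 * q), ∑ i' ∈ Finset.Ico q (2 * q),
        P2 (RE 0 m 0 k) (fun F => Hit m k (i * r) r F ∧ Hit m k (i' * r) r F) ≤
        ∑ _i ∈ Finset.Ico q (2 * q), (C / a + 4 * K * a) := by
      refine Finset.sum_le_sum fun i hi => (hrow i hi).trans ?_
      have := hrow2 i hi
      linarith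
    rw [Finset.sum_const, nsmul_eq_mul, card_Ico_int q hq] at htot
    refine htot.trans ?_
    rw [← ha3]
    have h7 : C / a ≤ C * a := by
      rw [div_le_iff₀ ha]
      have : 1 ≤ a * a := by nlinarith
      nlinarith
    calc a ^ 3 * (C / a + 4 * K * a) ≤ a ^ 3 * (C * a + 4 * K * a) :=
          mul_le_mul_of_nonneg_left (by linarith) (by positivity)
      _ = V0 * a ^ 4 := by rw [hV0]; ring
  have hP := paley (RE 0 m 0 k) (NH m k q r) (M := c / 2 * a ^ 2)
    (V := V0 * a ^ 4) (by positivity) hsum1 hsq (by positivity)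
  have hP2 : δ0 ≤ P2 (RE 0 m 0 k) (fun F => c / 4 * a ^ 2 ≤ NH m k q r F) := by
    have e1 : (c / 2 * a ^ 2) ^ 2 / (4 * (V0 * a ^ 4)) = δ0 := by
      rw [hδ0]; field_simp
    have e2 : c / 2 * a ^ 2 / 2 = c / 4 * a ^ 2 := by ring
    rw [e1, e2] at hP
    exact hP
  have hM := markov (RE 0 m 0 k) (NH m k q r) (NH_nonneg m k q r) (L := 2 * C / δ0 * a ^ 2)
    (M := C * a ^ 2) (by positivity) hsum2
  have hM2 : C * a ^ 2 / (2 * C / δ0 * a ^ 2) = δ0 / 2 := by field_simp
  rw [hM2] at hM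
  have hor := Pr_or_le okhalf (RE 0 m 0 k)
    (fun F => c / 4 * a ^ 2 ≤ NH m k q r F ∧ NH m k q r F ≤ 2 * C / δ0 * a ^ 2)
    (fun F => 2 * C / δ0 * a ^ 2 < NH m k q r F)
  have hcov : P2 (RE 0 m 0 k) (fun F => c / 4 * a ^ 2 ≤ NH m k q r F) ≤
      P2 (RE 0 m 0 k) (fun F =>
        (c / 4 * a ^ 2 ≤ NH m k q r F ∧ NH m k q r F ≤ 2 * C / δ0 * a ^ 2) ∨
        2 * C / δ0 * a ^ 2 < NH m k q r F) := by
    apply Pr_mono okhalf
    intro F _ hF
    rcases le_or_gt (NH m k q r F) (2 * C / δ0 * a ^ 2) with h1 | h1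
    · exact Or.inl ⟨hF, h1⟩
    · exact Or.inr h1
  unfold P2 at *
  linarith

end H985BT
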