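import Pool.Agent.H985R2.BTDefs
import Pool.Agent.H985R2.BT6

/-!
# The interface and the hitting events
-/

set_option autoImplicit false
set_option maxHeartbeats 400000

namespace H985BT

open H974 H973 Finset

theorem mem_wired {m k : ℕ} {e : Edg} : e ∈ wired m k ↔
    (e.2.2 = true ∧ 0 ≤ e.1 ∧ e.1 < m ∧ e.2.1 = 0) ∨
      (e.2.2 = false ∧ e.1 = 0 ∧ 0 ≤ e.2.1 ∧ e.2.1 < k) := by
  obtain ⟨x, y, b⟩ := e
  unfold wired
  simp only [Finset.mem_union, Finset.mem_image, Finset.mem_Ico, Prod.mk.injEq]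
  constructor
  · rintro (⟨a, ⟨h1, h2⟩, rfl, rfl, rfl⟩ | ⟨a, ⟨h1, h2⟩, rfl, rfl, rfl⟩)
    · left; exact ⟨rfl, h1, h2, rfl⟩
    · right; exact ⟨rfl, rfl, h1, h2⟩
  · rintro (⟨h1, h2, h3, h4⟩ | ⟨h1, h2, h3, h4⟩)
    · left; exact ⟨x, ⟨h2, h3⟩, rfl, h4.symm, h1.symm⟩
    · right; exact ⟨y, ⟨h3, h4⟩, h2.symm, rfl, h1.symm⟩

theorem mem_cut {m k : ℕ} {e : Edg} : e ∈ cut m k ↔
    (e.2.2 = true ∧ e.1 = m ∧ 1 ≤ e.2.1 ∧ e.2.1 ≤ k) ∨
      (e.2.2 = false ∧ e.2.1 = k ∧ 1 ≤ e.1 ∧ e.1 ≤ m) := by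
  obtain ⟨x, y, b⟩ := e
  unfold cut
  simp only [Finset.mem_union, Finset.mem_image, Finset.mem_Icc, Prod.mk.injEq]
  constructor
  · rintro (⟨a, ⟨h1, h2⟩, rfl, rfl, rfl⟩ | ⟨a, ⟨h1, h2⟩, rfl, rfl, rfl⟩)
    · left; exact ⟨rfl, rfl, h1, h2⟩
    · right; exact ⟨rfl, rfl, h1, h2⟩
  · rintro (⟨h1, h2, h3, h4⟩ | ⟨h1, h2, h3, h4⟩)
    · left; exact ⟨y, ⟨h3, h4⟩, h2.symm, rfl, h1.symm⟩
    · right; exact ⟨x, ⟨h3, h4⟩, rfl, h2.symm, h1.symm⟩

theorem mem_bulk {m k : ℕ} {e : Edg} : e ∈ bulk m k ↔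
    (e.2.2 = true ∧ (0 ≤ e.1 ∧ e.1 < m) ∧ (1 ≤ e.2.1 ∧ e.2.1 ≤ k)) ∨
      (e.2.2 = false ∧ (1 ≤ e.1 ∧ e.1 ≤ m) ∧ (0 ≤ e.2.1 ∧ e.2.1 < k)) := by
  obtain ⟨x, y, b⟩ := e
  unfold bulk
  simp only [Finset.mem_union, Finset.mem_image, Finset.mem_product, Finset.mem_Icc,
    Finset.mem_Ico, Prod.mk.injEq, Prod.exists]
  constructor
  · rintro (⟨a, c, ⟨h1, h2⟩, rfl, rfl, rfl⟩ | ⟨a, c, ⟨h1, h2⟩, rfl, rfl, rfl⟩)
    · left; exact ⟨rfl, h1, h2⟩
    · right; exact ⟨rfl, h1, h2⟩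
  · rintro (⟨h1, h2, h3⟩ | ⟨h1, h2, h3⟩)
    · left; exact ⟨x, y, ⟨h2, h3⟩, rfl, rfl, h1.symm⟩
    · right; exact ⟨x, y, ⟨h2, h3⟩, rfl, rfl, h1.symm⟩

theorem bulk_sub (m k : ℕ) : bulk m k ⊆ RE 0 m 0 k := by
  rintro ⟨x, y, _ | _⟩ h
  · rw [mem_bulk] at h
    simp only [Bool.false_eq_true, false_and, false_or, true_and] at h
    rw [mem_RE_false]
    omega
  · rw [mem_bulk] at h
    simp only [Bool.true_eq_false, false_and, or_false, true_and] at h
    rw [mem_RE_true]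
    omega

/-- an edge of the rectangle with an endpoint off the wired sides is in the bulk -/
theorem bulk_of {m k : ℕ} {e : Edg} (h : e ∈ RE 0 m 0 k)
    (h' : (0 < (src e).1 ∧ 0 < (src e).2) ∨ (0 < (tgt e).1 ∧ 0 < (tgt e).2)) : e ∈ bulk m k := by
  obtain ⟨x, y, _ | _⟩ := e
  · rw [mem_RE_false] at h
    simp only [src_mk, tgt_false] at h'
    rw [mem_bulk]
    simp only [Bool.false_eq_true, false_and, false_or, true_and]
    omega
  · rw [mem_RE_true] at h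
    simp only [src_mk, tgt_true] at h'
    rw [mem_bulk]
    simp only [Bool.true_eq_false, false_and, or_false, true_and]
    omega

/-- A path to the wired sides can be stopped when it first reaches them: it then uses bulk edges
only. -/
theorem first_side {m k : ℕ} {G : Set Edg} (hG : ∀ e ∈ G, e ∈ RE 0 m 0 k) {u v : Vtx}
    (h : Reach G u v) (hv : v.1 ≤ 0 ∨ v.2 ≤ 0) :
    ∃ w : Vtx, (w.1 ≤ 0 ∨ w.2 ≤ 0) ∧ Reach (G ∩ ↑(bulk m k)) u w := by
  have key : ∀ w, Reach G u w → (∃ w : Vtx, (w.1 ≤ 0 ∨ w.2 ≤ 0) ∧ Reach (G ∩ ↑(bulk m k)) u w) ∨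
      ((0 < w.1 ∧ 0 < w.2) ∧ Reach (G ∩ ↑(bulk m k)) u w) := by
    intro w hw
    induction hw with
    | refl =>
      by_cases hb : u.1 ≤ 0 ∨ u.2 ≤ 0
      · exact Or.inl ⟨u, hb, Reach.refl _ _⟩
      · exact Or.inr ⟨by omega, Reach.refl _ _⟩
    | @tail b c _ hs ih =>
      rcases ih with ih | ⟨ih1, ih2⟩
      · exact Or.inl ih
      · obtain ⟨e, he, hcs⟩ := hs
        have hb : e ∈ bulk m k := by
          refine bulk_of (hG e he) ?_
          rcases hcs with ⟨k1, _⟩ | ⟨_, k1⟩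
          · left; rw [k1]; exact ih1
          · right; rw [k1]; exact ih1
        have hr : Reach (G ∩ ↑(bulk m k)) u c :=
          ih2.tail ⟨e, ⟨he, Finset.mem_coe.mpr hb⟩, hcs⟩
        by_cases hc : c.1 ≤ 0 ∨ c.2 ≤ 0
        · exact Or.inl ⟨c, hc, hr⟩
        · exact Or.inr ⟨by omega, hr⟩
  rcases key v h with h1 | ⟨h1, _⟩
  · exact h1
  · omega

theorem Hit_bulk {m k : ℕ} {y r : ℤ} {F : Finset Edg} :
    Hit m k y r F ↔ Hit m k y r (F ∩ bulk m k) := by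
  constructor
  · rintro ⟨y', h1, u, h2, h3⟩
    obtain ⟨w, hw, hR⟩ := first_side (m := m) (k := k)
      (G := ↑F ∩ ↑(RE 0 m 0 k)) (fun e he => Finset.mem_coe.mp he.2) h3 h2
    refine ⟨y', h1, w, hw, hR.mono ?_⟩
    rintro e ⟨⟨he1, he2⟩, he3⟩
    refine ⟨?_, he2⟩
    rw [Finset.mem_coe, Finset.mem_inter]
    exact ⟨he1, he3⟩
  · rintro ⟨y', h1, u, h2, h3⟩
    refine ⟨y', h1, u, h2, h3.mono ?_⟩
    rintro e ⟨he1, he2⟩
    rw [Finset.mem_coe, Finset.mem_inter] at he1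
    exact ⟨he1.1, he2⟩

/-- every vertex of the wired sides is in the wired cluster -/
theorem wired_line {m k : ℕ} {v : Vtx} (hv : (0 ≤ v.1 ∧ v.1 ≤ m) ∧ (0 ≤ v.2 ∧ v.2 ≤ k))
    (hs : v.1 ≤ 0 ∨ v.2 ≤ 0) : Reach (↑(wired m k) : Set Edg) (0, 0) v := by
  have hx : ∀ n : ℕ, (n : ℤ) ≤ m → Reach (↑(wired m k) : Set Edg) (0, 0) ((n : ℤ), 0) := by
    intro n
    induction n with
    | zero => intro _; exact Reach.refl _ _
    | succ n ih =>
      intro hn
      have h1 := ih (by push_cast at hn ⊢; omega)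
      have hadj : Adj (↑(wired m k) : Set Edg) ((n : ℤ), 0) (((n + 1 : ℕ) : ℤ), 0) := by
        refine ⟨((n : ℤ), 0, true), ?_, Or.inl ⟨?_, ?_⟩⟩
        · rw [Finset.mem_coe, mem_wired]
          left
          push_cast at hn
          exact ⟨rfl, by omega, by omega, rfl⟩
        · simp
        · simp
      exact h1.trans hadj.reach
  have hy : ∀ n : ℕ, (n : ℤ) ≤ k → Reach (↑(wired m k) : Set Edg) (0, 0) (0, (n : ℤ)) := by
    intro n
    induction n with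
    | zero => intro _; exact Reach.refl _ _
    | succ n ih =>
      intro hn
      have h1 := ih (by push_cast at hn ⊢; omega)
      have hadj : Adj (↑(wired m k) : Set Edg) (0, (n : ℤ)) (0, ((n + 1 : ℕ) : ℤ)) := by
        refine ⟨(0, (n : ℤ), false), ?_, Or.inl ⟨?_, ?_⟩⟩
        · rw [Finset.mem_coe, mem_wired]
          right
          push_cast at hn
          refine ⟨rfl, rfl, ?_, ?_⟩
          · show (0 : ℤ) ≤ (n : ℤ); omega
          · show (n : ℤ) < (k : ℤ); omega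
        · simp
        · simp
      exact h1.trans hadj.reach
  obtain ⟨x, y⟩ := v
  simp only at hv hs
  rcases hs with h | h
  · have h0 : x = 0 := by omega
    subst h0
    have := hy y.toNat (by omega)
    rwa [show ((y.toNat : ℕ) : ℤ) = y by omega] at this
  · have h0 : y = 0 := by omega
    subst h0
    have := hx x.toNat (by omega)
    rwa [show ((x.toNat : ℕ) : ℤ) = x by omega] at this

theorem wired_sub (m k : ℕ) : wired m k ⊆ RE 0 m 0 k := by
  rintro ⟨x, y, _ | _⟩ h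
  · rw [mem_wired] at h
    simp only [Bool.false_eq_true, false_and, false_or, true_and] at h
    rw [mem_RE_false]
    omega
  · rw [mem_wired] at h
    simp only [Bool.true_eq_false, false_and, or_false, true_and] at h
    rw [mem_RE_true]
    omega

theorem wired_bulk {m k : ℕ} {e : Edg} (h : e ∈ wired m k) : e ∉ bulk m k := by
  obtain ⟨x, y, _ | _⟩ := e
  · rw [mem_wired] at h
    simp only [Bool.false_eq_true, false_and, false_or, true_and] at h
    rw [mem_bulk]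
    simp only [Bool.false_eq_true, false_and, false_or, true_and]
    omega
  · rw [mem_wired] at h
    simp only [Bool.true_eq_false, false_and, or_false, true_and] at h
    rw [mem_bulk]
    simp only [Bool.true_eq_false, false_and, or_false, true_and]
    omega

/-- membership of the wired cluster -/
theorem InWired_iff {m k : ℕ} {ω : Finset Edg} (hω : ω ⊆ bulk m k) {v : Vtx}
    (hv : (0 ≤ v.1 ∧ v.1 ≤ m) ∧ (0 ≤ v.2 ∧ v.2 ≤ k)) : InWired m k ω v ↔
      ∃ u : Vtx, (u.1 ≤ 0 ∨ u.2 ≤ 0) ∧ Reach (↑ω ∩ ↑(RE 0 m 0 k)) v u := by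
  constructor
  · intro h
    obtain ⟨w, hw, hR⟩ := first_side (m := m) (k := k) (G := ↑ω ∪ ↑(wired m k)) (by
      rintro e (he | he)
      · exact bulk_sub m k (hω (Finset.mem_coe.mp he))
      · exact wired_sub m k (Finset.mem_coe.mp he)) h.symm (Or.inl le_rfl)
    refine ⟨w, hw, hR.mono ?_⟩
    rintro e ⟨he1, he2⟩
    rcases he1 with he1 | he1
    · exact ⟨he1, Finset.mem_coe.mpr (bulk_sub m k (Finset.mem_coe.mp he2))⟩
    · exact absurd (Finset.mem_coe.mp he2) (wired_bulk (Finset.mem_coe.mp he1))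
  · rintro ⟨u, hu, hR⟩
    have hu2 : (0 ≤ u.1 ∧ u.1 ≤ m) ∧ (0 ≤ u.2 ∧ u.2 ≤ k) := by
      have key : ∀ w, Reach (↑ω ∩ ↑(RE 0 m 0 k)) v w →
          (0 ≤ w.1 ∧ w.1 ≤ m) ∧ (0 ≤ w.2 ∧ w.2 ≤ k) := by
        intro w hw
        induction hw with
        | refl => exact hv
        | tail _ hs _ =>
          obtain ⟨e, ⟨_, he⟩, hc⟩ := hs
          have := mem_RE_ends (Finset.mem_coe.mp he)
          unfold inR at this
          rcases hc with ⟨_, k2⟩ | ⟨k1, _⟩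
          · rw [← k2]; exact this.2
          · rw [← k1]; exact this.1
      exact key u hR
    have h1 := wired_line hu2 hu
    exact (h1.mono Set.subset_union_right).trans
      ((hR.mono (Set.inter_subset_left.trans Set.subset_union_left)).symm)

/-- the dual vertices of the right side are in the free cluster -/
theorem free_right {m k : ℕ} (ω : Finset Edg) {y : ℕ} (hy : y ≤ k) :
    InFree m k ω ((m : ℤ), (y : ℤ)) := by
  obtain ⟨n, rfl⟩ := Nat.exists_eq_add_of_le hy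
  induction n generalizing y with
  | zero => exact DReach.refl _ _
  | succ n ih =>
    have h1 : InFree m (y + (n + 1)) ω ((m : ℤ), ((y + 1 : ℕ) : ℤ)) := by
      have := ih (y := y + 1) (by omega)
      rwa [show y + 1 + n = y + (n + 1) by ring] at this
    refine h1.trans (DAdj.reach ⟨((m : ℤ), ((y + 1 : ℕ) : ℤ), true), Or.inr ?_, Or.inr ⟨?_, ?_⟩⟩)
    · rw [Finset.mem_coe, mem_cut]
      left
      refine ⟨rfl, rfl, ?_, ?_⟩
      · push_cast; omega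
      · push_cast; omega
    · simp
    · simp

theorem touch_iff {m k : ℕ} {ω : Finset Edg} (hω : ω ⊆ bulk m k) {y : ℕ} (hy : y ≤ k) :
    TouchRight m k ω y ↔ ∃ u : Vtx, (u.1 ≤ 0 ∨ u.2 ≤ 0) ∧
      Reach (↑ω ∩ ↑(RE 0 m 0 k)) ((m : ℤ), (y : ℤ)) u := by
  have hv : (0 ≤ ((m : ℤ), (y : ℤ)).1 ∧ ((m : ℤ), (y : ℤ)).1 ≤ m) ∧
      (0 ≤ ((m : ℤ), (y : ℤ)).2 ∧ ((m : ℤ), (y : ℤ)).2 ≤ k) := by
    simp only
    omega
  rw [← InWired_iff hω hv]
  constructor
  · rintro ⟨f, _, _, _, h, _⟩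
    exact h
  · intro h
    exact ⟨((m : ℤ), (y : ℤ)), rfl, Or.inl rfl, Or.inl rfl, h, free_right ω hy⟩

theorem touch_Hit {m k : ℕ} {ω : Finset Edg} (hω : ω ⊆ bulk m k) {y r : ℕ} (hy : y + r ≤ k + 1) :
    (∃ h : ℕ, y ≤ h ∧ h < y + r ∧ TouchRight m k ω h) ↔ Hit m k y r ω := by
  constructor
  · rintro ⟨h, h1, h2, h3⟩
    rw [touch_iff hω (by omega)] at h3
    exact ⟨(h : ℤ), by omega, h3⟩
  · rintro ⟨y', h1, h3⟩
    obtain ⟨h, rfl⟩ : ∃ h : ℕ, y' = (h : ℤ) := ⟨y'.toNat, by omega⟩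
    refine ⟨h, by omega, by omega, ?_⟩
    rw [touch_iff hω (by omega)]
    exact h3

/-- the case `q = 1` of the random-cluster model -/
theorem rcP_one (m k : ℕ) (A : Finset Edg → Prop) : rcP 1 m k A = P2 (bulk m k) A := by
  classical
  have hw : ∀ ω, weight 1 m k ω = 1 := by
    intro ω
    unfold weight
    rw [Real.sqrt_one, one_pow, one_pow, one_mul]
  unfold rcP P2 Pr Ex
  simp only [hw, Finset.sum_const, nsmul_eq_mul, mul_one]
  have h1 : ∀ F ∈ (bulk m k).powerset, (∏ _e ∈ F, (1/2 : ℝ)) * (∏ _e ∈ bulk m k \ F, (1 - 1/2 : ℝ)) *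
      ind (A F) = (1/2 : ℝ) ^ (bulk m k).card * ind (A F) := by
    intro F hF
    rw [Finset.mem_powerset] at hF
    rw [Finset.prod_const, Finset.prod_const, Finset.card_sdiff_of_subset hF]
    have h2 : (1 - 1/2 : ℝ) = 1/2 := by norm_num
    rw [h2, ← pow_add, Nat.add_sub_cancel' (Finset.card_le_card hF)]
  rw [Finset.sum_congr rfl h1, ← Finset.mul_sum, Finset.card_powerset]
  have h3 : ∑ F ∈ (bulk m k).powerset, ind (A F) = (((bulk m k).powerset.filter A).card : ℝ) := by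
    rw [Finset.card_eq_sum_ones, Nat.cast_sum, Finset.sum_filter]
    refine Finset.sum_congr rfl fun F _ => ?_
    unfold ind
    split_ifs <;> simp
  rw [h3]
  push_cast
  rw [div_eq_mul_inv, mul_comm]
  congr 1
  rw [one_div, inv_pow]

theorem rcP_touch (m k y r : ℕ) (hy : y + r ≤ k + 1) :
    rcP 1 m k (fun ω => ∃ h : ℕ, y ≤ h ∧ h < y + r ∧ TouchRight m k ω h) =
      P2 (RE 0 m 0 k) (Hit m k y r) := by
  rw [rcP_one]
  unfold P2
  rw [Pr_local (bulk_sub m k) (A := Hit m k y r) (fun F _ => Hit_bulk)]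
  exact Pr_congr fun ω hω => touch_Hit hω hy

end H985BT
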