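import Pool.Agent.H985R2.BT7

/-!
# Duality: the lower side of the `m × k` rectangle is the right side of the `k × m` rectangle
-/

set_option autoImplicit false
set_option maxHeartbeats 400000

namespace H985BT

open H974 H973 Finset

/-- edge map: dual edges of the `m × k` rectangle to edges of the `k × m` rectangle -/
def phi (m k : ℕ) (e : Edg) : Edg := ((k : ℤ) - e.2.1, (m : ℤ) - e.1, e.2.2)

/-- dual vertices to vertices -/
def vphi (m k : ℕ) (f : Vtx) : Vtx := ((k : ℤ) - f.2, (m : ℤ) - f.1)

theorem phi_phi (m k : ℕ) (e : Edg) : phi k m (phi m k e) = e := by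
  obtain ⟨x, y, b⟩ := e
  simp only [phi, Prod.mk.injEq, and_true]
  omega

theorem vphi_vphi (m k : ℕ) (e : Vtx) : vphi k m (vphi m k e) = e := by
  obtain ⟨x, y⟩ := e
  simp only [vphi, Prod.mk.injEq]
  omega

theorem phi_bulk {m k : ℕ} {e : Edg} : phi m k e ∈ bulk k m ↔ e ∈ bulk m k := by
  obtain ⟨x, y, _ | _⟩ := e
  · rw [mem_bulk, mem_bulk]
    simp only [phi, Bool.false_eq_true, false_and, false_or, true_and]
    omega
  · rw [mem_bulk, mem_bulk]
    simp only [phi, Bool.true_eq_false, false_and, or_false, true_and]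
    omega

theorem phi_cut {m k : ℕ} {e : Edg} : phi m k e ∈ wired k m ↔ e ∈ cut m k := by
  obtain ⟨x, y, _ | _⟩ := e
  · rw [mem_wired, mem_cut]
    simp only [phi, Bool.false_eq_true, false_and, false_or, true_and]
    omega
  · rw [mem_wired, mem_cut]
    simp only [phi, Bool.true_eq_false, false_and, or_false, true_and]
    omega

/-- the dual configuration -/
noncomputable def dualC (m k : ℕ) (ω : Finset Edg) : Finset Edg :=
  (bulk m k \ ω).image (phi m k)

theorem mem_dualC {m k : ℕ} {ω : Finset Edg} {e : Edg} :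
    phi m k e ∈ dualC m k ω ↔ e ∈ bulk m k ∧ e ∉ ω := by
  unfold dualC
  rw [Finset.mem_image]
  constructor
  · rintro ⟨a, ha, h⟩
    have : a = e := by
      have := congrArg (phi k m) h
      rwa [phi_phi, phi_phi] at this
    subst this
    rwa [Finset.mem_sdiff] at ha
  · intro h
    exact ⟨e, Finset.mem_sdiff.mpr h, rfl⟩

theorem dualC_sub (m k : ℕ) (ω : Finset Edg) : dualC m k ω ⊆ bulk k m := by
  intro e he
  have h : phi m k (phi k m e) ∈ dualC m k ω := by rwa [phi_phi]
  rw [mem_dualC] at h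
  have := phi_bulk.mpr h.1
  rwa [phi_phi] at this

theorem dualC_dualC {m k : ℕ} {ω : Finset Edg} (hω : ω ⊆ bulk m k) :
    dualC k m (dualC m k ω) = ω := by
  ext e
  have h : e ∈ dualC k m (dualC m k ω) ↔ phi k m (phi m k e) ∈ dualC k m (dualC m k ω) := by
    rw [phi_phi]
  rw [h, mem_dualC, mem_dualC, phi_bulk]
  constructor
  · rintro ⟨h1, h2⟩
    by_contra h3
    exact h2 ⟨h1, h3⟩
  · intro h1
    exact ⟨hω h1, fun h2 => h2.2 h1⟩

theorem dadj_adj {m k : ℕ} {ω : Finset Edg} {f g : Vtx}
    (h : DAdj (↑(bulk m k \ ω) ∪ ↑(cut m k)) f g) :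
    Adj (↑(dualC m k ω) ∪ ↑(wired k m)) (vphi m k f) (vphi m k g) := by
  obtain ⟨e, he, hfg⟩ := h
  refine ⟨phi m k e, ?_, ?_⟩
  · rcases he with he | he
    · left
      rw [Finset.mem_coe, Finset.mem_sdiff] at he
      rw [Finset.mem_coe, mem_dualC]
      exact he
    · right
      rw [Finset.mem_coe, phi_cut]
      exact Finset.mem_coe.mp he
  · obtain ⟨x, y, _ | _⟩ := e
    · rcases hfg with ⟨h1, h2⟩ | ⟨h1, h2⟩
      · right
        rw [← h1, ← h2]
        simp only [phi, vphi, dsrc_false, dtgt_mk, src_mk, tgt_false, Prod.mk.injEq, true_and, and_true]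
        omega
      · left
        rw [← h1, ← h2]
        simp only [phi, vphi, dsrc_false, dtgt_mk, src_mk, tgt_false, Prod.mk.injEq, true_and, and_true]
        omega
    · rcases hfg with ⟨h1, h2⟩ | ⟨h1, h2⟩
      · right
        rw [← h1, ← h2]
        simp only [phi, vphi, dsrc_true, dtgt_mk, src_mk, tgt_true, Prod.mk.injEq, true_and, and_true]
        omega
      · left
        rw [← h1, ← h2]
        simp only [phi, vphi, dsrc_true, dtgt_mk, src_mk, tgt_true, Prod.mk.injEq, true_and, and_true]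
        omega

theorem adj_dadj {m k : ℕ} {ω : Finset Edg} {u v : Vtx}
    (h : Adj (↑(dualC m k ω) ∪ ↑(wired k m)) u v) :
    DAdj (↑(bulk m k \ ω) ∪ ↑(cut m k)) (vphi k m u) (vphi k m v) := by
  obtain ⟨e, he, hfg⟩ := h
  obtain ⟨e', rfl⟩ : ∃ e', e = phi m k e' := ⟨phi k m e, (phi_phi k m e).symm⟩
  refine ⟨e', ?_, ?_⟩
  · rcases he with he | he
    · left
      rw [Finset.mem_coe, mem_dualC] at he
      rw [Finset.mem_coe, Finset.mem_sdiff]
      exact he
    · right
      rw [Finset.mem_coe, phi_cut] at he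
      exact Finset.mem_coe.mpr he
  · obtain ⟨x, y, _ | _⟩ := e'
    · rcases hfg with ⟨h1, h2⟩ | ⟨h1, h2⟩
      · right
        rw [← h1, ← h2]
        simp only [phi, vphi, dsrc_false, dtgt_mk, src_mk, tgt_false, Prod.mk.injEq]
        omega
      · left
        rw [← h1, ← h2]
        simp only [phi, vphi, dsrc_false, dtgt_mk, src_mk, tgt_false, Prod.mk.injEq]
        omega
    · rcases hfg with ⟨h1, h2⟩ | ⟨h1, h2⟩
      · right
        rw [← h1, ← h2]
        simp only [phi, vphi, dsrc_true, dtgt_mk, src_mk, tgt_true, Prod.mk.injEq]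
        omega
      · left
        rw [← h1, ← h2]
        simp only [phi, vphi, dsrc_true, dtgt_mk, src_mk, tgt_true, Prod.mk.injEq]
        omega

theorem free_iff {m k : ℕ} {ω : Finset Edg} {f : Vtx} :
    InFree m k ω f ↔ InWired k m (dualC m k ω) (vphi m k f) := by
  have h0 : vphi m k ((m : ℤ), (k : ℤ)) = (0, 0) := by
    simp only [vphi, sub_self]
  have h0' : vphi k m (0, 0) = ((m : ℤ), (k : ℤ)) := by
    simp only [vphi, sub_zero]
  constructor
  · intro h
    unfold InWired
    rw [← h0]
    unfold InFree at h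
    induction h with
    | refl => exact Reach.refl _ _
    | tail _ hs ih => exact ih.trans (dadj_adj hs).reach
  · intro h
    have key : ∀ u, Reach (↑(dualC m k ω) ∪ ↑(wired k m)) (0, 0) u →
        DReach (↑(bulk m k \ ω) ∪ ↑(cut m k)) ((m : ℤ), (k : ℤ)) (vphi k m u) := by
      intro u hu
      rw [← h0']
      induction hu with
      | refl => exact DReach.refl _ _
      | tail _ hs ih => exact ih.trans (adj_dadj hs).reach
    have := key _ h
    rwa [vphi_vphi] at this

theorem lower_iff {m k : ℕ} {ω : Finset Edg} (hω : ω ⊆ bulk m k) {h : ℕ} (hh : h ≤ m) :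
    TouchLower m k ω h ↔ TouchRight k m (dualC m k ω) h := by
  have hv : vphi m k ((m : ℤ) - h, 0) = ((k : ℤ), (h : ℤ)) := by
    simp only [vphi, Prod.mk.injEq]
    omega
  have h1 : InWired k m (dualC m k ω) ((k : ℤ), (h : ℤ)) ↔
      TouchRight k m (dualC m k ω) h := by
    have hv : (0 ≤ ((k : ℤ), (h : ℤ)).1 ∧ ((k : ℤ), (h : ℤ)).1 ≤ k) ∧
        (0 ≤ ((k : ℤ), (h : ℤ)).2 ∧ ((k : ℤ), (h : ℤ)).2 ≤ m) := by
      simp only
      omega
    rw [touch_iff (dualC_sub m k ω) hh, InWired_iff (dualC_sub m k ω) hv]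
  rw [← h1, ← hv, ← free_iff]
  constructor
  · rintro ⟨v, _, _, _, _, h2⟩
    exact h2
  · intro h2
    refine ⟨((m : ℤ) - h, 0), rfl, Or.inl rfl, Or.inl rfl, ?_, h2⟩
    exact (wired_line (v := ((m : ℤ) - h, 0)) (by simp only; omega) (Or.inr le_rfl)).mono
      Set.subset_union_right

/-- probability as a proportion -/
theorem rcP_card (m k : ℕ) (A : Finset Edg → Prop) [DecidablePred A] :
    rcP 1 m k A = (((bulk m k).powerset.filter A).card : ℝ) / ((bulk m k).powerset.card : ℝ) := by
  have hw : ∀ ω, weight 1 m k ω = 1 := by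
    intro ω
    unfold weight
    rw [Real.sqrt_one, one_pow, one_pow, one_mul]
  unfold rcP
  simp only [hw, Finset.sum_const, nsmul_eq_mul, mul_one]
  congr 3
  exact Finset.filter_congr_decidable _ _ _

theorem rcP_dual (m k : ℕ) (A : Finset Edg → Prop) :
    rcP 1 m k (fun ω => A (dualC m k ω)) = rcP 1 k m A := by
  classical
  rw [rcP_card, rcP_card]
  have h1 : ((bulk m k).powerset.filter (fun ω => A (dualC m k ω))).card =
      ((bulk k m).powerset.filter A).card := by
    refine Finset.card_bij' (fun ω _ => dualC m k ω) (fun ω _ => dualC k m ω) ?_ ?_ ?_ ?_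
    · intro ω hω
      rw [Finset.mem_filter, Finset.mem_powerset] at hω ⊢
      exact ⟨dualC_sub m k ω, hω.2⟩
    · intro ω hω
      rw [Finset.mem_filter, Finset.mem_powerset] at hω ⊢
      refine ⟨dualC_sub k m ω, ?_⟩
      rw [dualC_dualC hω.1]
      exact hω.2
    · intro ω hω
      rw [Finset.mem_filter, Finset.mem_powerset] at hω
      exact dualC_dualC hω.1
    · intro ω hω
      rw [Finset.mem_filter, Finset.mem_powerset] at hω
      exact dualC_dualC hω.1
  have h2 : ((bulk m k).powerset).card = ((bulk k m).powerset).card := by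
    refine Finset.card_bij' (fun ω _ => dualC m k ω) (fun ω _ => dualC k m ω) ?_ ?_ ?_ ?_
    · intro ω hω
      rw [Finset.mem_powerset] at hω ⊢
      exact dualC_sub m k ω
    · intro ω hω
      rw [Finset.mem_powerset] at hω ⊢
      exact dualC_sub k m ω
    · intro ω hω
      rw [Finset.mem_powerset] at hω
      exact dualC_dualC hω
    · intro ω hω
      rw [Finset.mem_powerset] at hω
      exact dualC_dualC hω
  rw [h1, h2]

end H985BT
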