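import Pool.Agent.H985R2.BT8

/-!
# The touching estimates for the interface
-/

set_option autoImplicit false
set_option maxHeartbeats 400000

namespace H985BT

open H974 H973 Finset

theorem NH_bulk {m k : ℕ} {n r : ℤ} (F : Finset Edg) :
    NH m k n r (F ∩ bulk m k) = NH m k n r F := by
  unfold NH
  refine Finset.sum_congr rfl fun i _ => ?_
  unfold ind
  have := Hit_bulk (m := m) (k := k) (y := i * r) (r := r) (F := F)
  by_cases h : Hit m k (i * r) r F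
  · rw [if_pos h, if_pos (this.mp h)]
  · rw [if_neg h, if_neg (fun h' => h (this.mpr h'))]

theorem blocks_NH {m k : ℕ} {ω : Finset Edg} (hω : ω ⊆ bulk m k) {n r : ℕ}
    (hk : 2 * (n * r) ≤ k) : (blocksRight m k ω n r : ℝ) = NH m k n r ω := by
  classical
  have hset : {i : ℕ | n ≤ i ∧ i < 2 * n ∧ ∃ h : ℕ, i * r ≤ h ∧ h < (i + 1) * r ∧
      TouchRight m k ω h} =
      (↑((Finset.Ico n (2 * n)).filter (fun i : ℕ => Hit m k ((i : ℤ) * r) r ω)) : Set ℕ) := by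
    ext i
    rw [Finset.mem_coe, Finset.mem_filter, Finset.mem_Ico, Set.mem_ofPred_eq]
    constructor
    · rintro ⟨h1, h2, h, h3, h4, h5⟩
      refine ⟨⟨h1, h2⟩, ?_⟩
      have hle : (i + 1) * r ≤ 2 * (n * r) := by
        have : (i + 1) * r ≤ (2 * n) * r := Nat.mul_le_mul_right r (by omega)
        calc (i + 1) * r ≤ (2 * n) * r := this
          _ = 2 * (n * r) := by ring
      have := (touch_Hit (m := m) (k := k) hω (y := i * r) (r := r) (by
        have : (i + 1) * r = i * r + r := by ring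
        omega)).mp ⟨h, h3, by rw [show (i + 1) * r = i * r + r by ring] at h4; exact h4, h5⟩
      push_cast at this
      exact this
    · rintro ⟨⟨h1, h2⟩, h3⟩
      have hle : (i + 1) * r ≤ 2 * (n * r) := by
        have : (i + 1) * r ≤ (2 * n) * r := Nat.mul_le_mul_right r (by omega)
        calc (i + 1) * r ≤ (2 * n) * r := this
          _ = 2 * (n * r) := by ring
      have := (touch_Hit (m := m) (k := k) hω (y := i * r) (r := r) (by
        have : (i + 1) * r = i * r + r := by ring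
        omega)).mpr (by push_cast; exact h3)
      obtain ⟨h, h4, h5, h6⟩ := this
      exact ⟨h1, h2, h, h4, by rw [show (i + 1) * r = i * r + r by ring]; exact h5, h6⟩
  unfold blocksRight
  rw [hset, Set.ncard_coe_finset, Finset.card_filter]
  push_cast
  unfold NH
  refine Finset.sum_bij (fun i _ => (i : ℤ)) ?_ ?_ ?_ ?_
  · intro i hi
    rw [Finset.mem_Ico] at hi ⊢
    omega
  · intro i _ j _ h
    exact_mod_cast h
  · intro j hj
    rw [Finset.mem_Ico] at hj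
    refine ⟨j.toNat, ?_, by omega⟩
    rw [Finset.mem_Ico]
    omega
  · intro i _
    unfold ind
    rfl

theorem rcP_blocks (m k n r : ℕ) (hk : 2 * (n * r) ≤ k) (a b : ℝ) :
    rcP 1 m k (fun ω => a ≤ blocksRight m k ω n r ∧ (blocksRight m k ω n r : ℝ) ≤ b) =
      P2 (RE 0 m 0 k) (fun F => a ≤ NH m k n r F ∧ NH m k n r F ≤ b) := by
  rw [rcP_one]
  unfold P2
  rw [Pr_local (bulk_sub m k) (A := fun F => a ≤ NH m k n r F ∧ NH m k n r F ≤ b)
    (fun F _ => by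
      rw [NH_bulk])]
  refine Pr_congr fun ω hω => ?_
  rw [blocks_NH hω hk]

theorem rcP_mono_iff {m k : ℕ} {q : ℝ} {A B : Finset Edg → Prop} (h : ∀ ω, ω ⊆ bulk m k → (A ω ↔ B ω)) :
    rcP q m k A = rcP q m k B := by
  classical
  unfold rcP
  congr 1
  refine Finset.sum_congr ?_ fun _ _ => rfl
  ext ω
  rw [Finset.mem_filter, Finset.mem_filter, Finset.mem_powerset]
  constructor
  · rintro ⟨h1, h2⟩; exact ⟨h1, (h ω h1).mp h2⟩
  · rintro ⟨h1, h2⟩; exact ⟨h1, (h ω h1).mpr h2⟩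

theorem rcP_touch_lower (m k y r : ℕ) (hy : y + r ≤ m + 1) :
    rcP 1 m k (fun ω => ∃ h : ℕ, y ≤ h ∧ h < y + r ∧ TouchLower m k ω h) =
      rcP 1 k m (fun ω => ∃ h : ℕ, y ≤ h ∧ h < y + r ∧ TouchRight k m ω h) := by
  rw [← rcP_dual m k]
  refine rcP_mono_iff fun ω hω => ?_
  constructor
  · rintro ⟨h, h1, h2, h3⟩
    exact ⟨h, h1, h2, (lower_iff hω (by omega)).mp h3⟩
  · rintro ⟨h, h1, h2, h3⟩
    exact ⟨h, h1, h2, (lower_iff hω (by omega)).mpr h3⟩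

theorem blocksLower_eq {m k : ℕ} {ω : Finset Edg} (hω : ω ⊆ bulk m k) {n r : ℕ}
    (hm : 2 * (n * r) ≤ m) : blocksLower m k ω n r = blocksRight k m (dualC m k ω) n r := by
  unfold blocksLower blocksRight
  congr 1
  ext i
  rw [Set.mem_ofPred_eq, Set.mem_ofPred_eq]
  have hle : i < 2 * n → (i + 1) * r ≤ 2 * (n * r) := by
    intro hi
    have : (i + 1) * r ≤ (2 * n) * r := Nat.mul_le_mul_right r (by omega)
    calc (i + 1) * r ≤ (2 * n) * r := this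
      _ = 2 * (n * r) := by ring
  constructor
  · rintro ⟨h1, h2, h, h3, h4, h5⟩
    have := hle h2
    exact ⟨h1, h2, h, h3, h4, (lower_iff hω (by omega)).mp h5⟩
  · rintro ⟨h1, h2, h, h3, h4, h5⟩
    have := hle h2
    exact ⟨h1, h2, h, h3, h4, (lower_iff hω (by omega)).mpr h5⟩

theorem rcP_blocks_lower (m k n r : ℕ) (hm : 2 * (n * r) ≤ m) (a b : ℝ) :
    rcP 1 m k (fun ω => a ≤ blocksLower m k ω n r ∧ (blocksLower m k ω n r : ℝ) ≤ b) =
      rcP 1 k m (fun ω => a ≤ blocksRight k m ω n r ∧ (blocksRight k m ω n r : ℝ) ≤ b) := by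
  rw [← rcP_dual m k]
  refine rcP_mono_iff fun ω hω => ?_
  rw [blocksLower_eq hω hm]

theorem touching : ∃ c C δ : ℝ, 0 < c ∧ 0 < C ∧ 0 < δ ∧
    (∀ m k y r : ℕ, 1 ≤ r → r ≤ y → y ≤ m → 2 * y ≤ k →
      c * ((r : ℝ) / y) ^ ((1 : ℝ) / 3) ≤
          rcP 1 m k (fun ω => ∃ h : ℕ, y ≤ h ∧ h < y + r ∧ TouchRight m k ω h) ∧
        rcP 1 m k (fun ω => ∃ h : ℕ, y ≤ h ∧ h < y + r ∧ TouchRight m k ω h) ≤
          C * ((r : ℝ) / y) ^ ((1 : ℝ) / 3)) ∧
    (∀ m k y r : ℕ, 1 ≤ r → r ≤ y → y ≤ k → 2 * y ≤ m →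
      c * ((r : ℝ) / y) ^ ((1 : ℝ) / 3) ≤
          rcP 1 m k (fun ω => ∃ h : ℕ, y ≤ h ∧ h < y + r ∧ TouchLower m k ω h) ∧
        rcP 1 m k (fun ω => ∃ h : ℕ, y ≤ h ∧ h < y + r ∧ TouchLower m k ω h) ≤
          C * ((r : ℝ) / y) ^ ((1 : ℝ) / 3)) ∧
    (∀ m k n r : ℕ, 1 ≤ n → 1 ≤ r → 2 * (n * r) ≤ m → 4 * (n * r) ≤ k →
      δ ≤ rcP 1 m k (fun ω => c * (n : ℝ) ^ ((2 : ℝ) / 3) ≤ blocksRight m k ω n r ∧
        (blocksRight m k ω n r : ℝ) ≤ C * (n : ℝ) ^ ((2 : ℝ) / 3))) ∧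
    (∀ m k n r : ℕ, 1 ≤ n → 1 ≤ r → 4 * (n * r) ≤ m → 2 * (n * r) ≤ k →
      δ ≤ rcP 1 m k (fun ω => c * (n : ℝ) ^ ((2 : ℝ) / 3) ≤ blocksLower m k ω n r ∧
        (blocksLower m k ω n r : ℝ) ≤ C * (n : ℝ) ^ ((2 : ℝ) / 3))) := by
  obtain ⟨c1, C1, hc1, hC1, h1⟩ := Hit_bounds
  obtain ⟨c2, C2, δ, hc2, hC2, hδ, h2⟩ := count_bounds
  have hA : ∀ m k y r : ℕ, 1 ≤ r → r ≤ y → y ≤ m → 2 * y ≤ k →
      min c1 c2 * ((r : ℝ) / y) ^ ((1 : ℝ) / 3) ≤
          rcP 1 m k (fun ω => ∃ h : ℕ, y ≤ h ∧ h < y + r ∧ TouchRight m k ω h) ∧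
        rcP 1 m k (fun ω => ∃ h : ℕ, y ≤ h ∧ h < y + r ∧ TouchRight m k ω h) ≤
          max C1 C2 * ((r : ℝ) / y) ^ ((1 : ℝ) / 3) := by
    intro m k y r hr hry hym hyk
    rw [rcP_touch m k y r (by omega)]
    have := h1 m k y r (by exact_mod_cast hr) (by exact_mod_cast hry) (by exact_mod_cast hym)
      (by exact_mod_cast hyk)
    unfold cr at this
    push_cast at this
    have h0 : (0 : ℝ) ≤ ((r : ℝ) / y) ^ ((1 : ℝ) / 3) := Real.rpow_nonneg (by positivity) _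
    exact ⟨(mul_le_mul_of_nonneg_right (min_le_left _ _) h0).trans this.1,
      this.2.trans (mul_le_mul_of_nonneg_right (le_max_left _ _) h0)⟩
  have hcr2 : ∀ n : ℕ, cr ((n : ℤ) : ℝ) ^ 2 = (n : ℝ) ^ ((2 : ℝ) / 3) := by
    intro n
    unfold cr
    rw [Int.cast_natCast, ← Real.rpow_natCast, ← Real.rpow_mul (Nat.cast_nonneg n)]
    norm_num
  have hB : ∀ m k n r : ℕ, 1 ≤ n → 1 ≤ r → 2 * (n * r) ≤ m → 4 * (n * r) ≤ k →
      δ ≤ rcP 1 m k (fun ω => min c1 c2 * (n : ℝ) ^ ((2 : ℝ) / 3) ≤ blocksRight m k ω n r ∧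
        (blocksRight m k ω n r : ℝ) ≤ max C1 C2 * (n : ℝ) ^ ((2 : ℝ) / 3)) := by
    intro m k n r hn hr hm hk
    rw [rcP_blocks m k n r (by omega)]
    have := h2 m k n r (by exact_mod_cast hn) (by exact_mod_cast hr) (by exact_mod_cast hm)
      (by exact_mod_cast hk)
    rw [hcr2] at this
    have h0 : (0 : ℝ) ≤ (n : ℝ) ^ ((2 : ℝ) / 3) := Real.rpow_nonneg (by positivity) _
    refine this.trans (Pr_mono okhalf fun F _ h => ?_)
    exact ⟨(mul_le_mul_of_nonneg_right (min_le_right _ _) h0).trans h.1,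
      h.2.trans (mul_le_mul_of_nonneg_right (le_max_right _ _) h0)⟩
  refine ⟨min c1 c2, max C1 C2, δ, lt_min hc1 hc2, lt_max_of_lt_left hC1, hδ, hA, ?_, hB, ?_⟩
  · intro m k y r hr hry hyk hym
    rw [rcP_touch_lower m k y r (by omega)]
    exact hA k m y r hr hry hyk hym
  · intro m k n r hn hr hm hk
    rw [rcP_blocks_lower m k n r (by omega)]
    exact hB k m n r hn hr hk hm

end H985BT
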