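import Pool.Agent.H974R2.Lattice

/-!
# The random-cluster model and its interface in a rectangle

`H974.Vtx = ℤ × ℤ`, `H974.Edg = ℤ × ℤ × Bool`: the edge `(x, y, true)` joins `(x, y)` and
`(x + 1, y)`, the edge `(x, y, false)` joins `(x, y)` and `(x, y + 1)`.  A dual vertex `(a, b)`
stands for the point `(a + 1/2, b + 1/2)`, and the dual edge of `e` joins the dual vertices
`dsrc e` and `dtgt e`.  `Reach F u v`: the vertices `u` and `v` are connected by edges of `F`.
`DReach F f g`: the dual vertices `f` and `g` are connected by dual edges of edges of `F`.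

The rectangle (in lattice units) is `R = [0, m + 1/2] × [0, k + 1/2]`: its lower left corner is a
primal vertex and its upper right corner the dual vertex `(m, k)`.
-/

set_option autoImplicit false

namespace H985BT

open H974 Finset

/-- the edges lying in the left or lower side of `R` (they are open) -/
noncomputable def wired (m k : ℕ) : Finset Edg :=
  (Finset.Ico (0 : ℤ) m).image (fun x => ((x, 0, true) : Edg)) ∪
    (Finset.Ico (0 : ℤ) k).image (fun y => ((0, y, false) : Edg))

/-- the edges crossing the right or the upper side of `R` (they are closed) -/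
noncomputable def cut (m k : ℕ) : Finset Edg :=
  (Finset.Icc (1 : ℤ) k).image (fun y => ((m, y, true) : Edg)) ∪
    (Finset.Icc (1 : ℤ) m).image (fun x => ((x, k, false) : Edg))

/-- the remaining edges of `R`, which are open or closed at random -/
noncomputable def bulk (m k : ℕ) : Finset Edg :=
  (Finset.Ico (0 : ℤ) m ×ˢ Finset.Icc (1 : ℤ) k).image (fun p => ((p.1, p.2, true) : Edg)) ∪
    (Finset.Icc (1 : ℤ) m ×ˢ Finset.Ico (0 : ℤ) k).image (fun p => ((p.1, p.2, false) : Edg))

/-- number of clusters (connected components of the open edges) of the rectangle; `ω` is the set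
of open edges of `bulk m k` -/
noncomputable def clusters (m k : ℕ) (ω : Finset Edg) : ℕ :=
  Set.ncard {C : Set Vtx | ∃ v : Vtx, (0 ≤ v.1 ∧ v.1 ≤ m) ∧ (0 ≤ v.2 ∧ v.2 ≤ k) ∧
    C = {w | Reach (↑ω ∪ ↑(wired m k)) v w}}

/-- critical random-cluster weight `x ^ b(ω) q ^ k(ω)`, `x = √q` -/
noncomputable def weight (q : ℝ) (m k : ℕ) (ω : Finset Edg) : ℝ :=
  Real.sqrt q ^ (ω ∪ wired m k).card * q ^ clusters m k ω

open Classical in
/-- critical random-cluster probability of an event -/
noncomputable def rcP (q : ℝ) (m k : ℕ) (A : Finset Edg → Prop) : ℝ :=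
  (∑ ω ∈ (bulk m k).powerset.filter A, weight q m k ω) /
    ∑ ω ∈ (bulk m k).powerset, weight q m k ω

/-- `v` belongs to the wired boundary cluster -/
def InWired (m k : ℕ) (ω : Finset Edg) (v : Vtx) : Prop :=
  Reach (↑ω ∪ ↑(wired m k)) (0, 0) v

/-- the dual vertex `f` belongs to the dual cluster of the free sides -/
def InFree (m k : ℕ) (ω : Finset Edg) (f : Vtx) : Prop :=
  DReach (↑(bulk m k \ ω) ∪ ↑(cut m k)) (m, k) f

/-- The interface, as a set of medial edges: the pair `(v, f)` is the medial edge passing between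
the primal vertex `v` and the dual vertex `f`, two points at distance `(1/2, 1/2)`.  It belongs to
the interface when `v` is in the wired boundary cluster and `f` in the dual cluster of the free
sides. -/
def Interface (m k : ℕ) (ω : Finset Edg) : Set (Vtx × Vtx) :=
  {p | (p.2.1 = p.1.1 ∨ p.2.1 = p.1.1 - 1) ∧ (p.2.2 = p.1.2 ∨ p.2.2 = p.1.2 - 1) ∧
    InWired m k ω p.1 ∧ InFree m k ω p.2}

/-- the interface touches the right side of `R` at height `y`: it passes between the primal vertex
`(m, y)` and a dual vertex of the right side -/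
def TouchRight (m k : ℕ) (ω : Finset Edg) (y : ℕ) : Prop :=
  ∃ f : Vtx, f.1 = m ∧ (((m : ℤ), (y : ℤ)), f) ∈ Interface m k ω

/-- the interface touches the lower side of `R` at distance `h` from its right end: it passes
between the dual vertex `(m - h, 0)` and a primal vertex of the lower side -/
def TouchLower (m k : ℕ) (ω : Finset Edg) (h : ℕ) : Prop :=
  ∃ v : Vtx, v.2 = 0 ∧ (v, ((m : ℤ) - h, (0 : ℤ))) ∈ Interface m k ω

/-- the number of the blocks of heights `[i r, (i + 1) r)`, `n ≤ i < 2 n`, in which the interface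
touches the right side -/
noncomputable def blocksRight (m k : ℕ) (ω : Finset Edg) (n r : ℕ) : ℕ :=
  Set.ncard {i : ℕ | n ≤ i ∧ i < 2 * n ∧ ∃ h : ℕ, i * r ≤ h ∧ h < (i + 1) * r ∧
    TouchRight m k ω h}

/-- the number of the blocks of distances `[i r, (i + 1) r)`, `n ≤ i < 2 n`, in which the interface
touches the lower side -/
noncomputable def blocksLower (m k : ℕ) (ω : Finset Edg) (n r : ℕ) : ℕ :=
  Set.ncard {i : ℕ | n ≤ i ∧ i < 2 * n ∧ ∃ h : ℕ, i * r ≤ h ∧ h < (i + 1) * r ∧
    TouchLower m k ω h}

end H985BT
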