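import Mathlib

set_option autoImplicit false

namespace Pool.Agent.H985R2.Block

open Finset

section counting

variable {I X : Type*} [Fintype I] [DecidableEq I] [Fintype X] [DecidableEq X]

/-- sum over all configurations of a product of functions of the rows -/
lemma sum_prod_rows (h : I → (X → Bool) → ℝ) :
    ∑ ω : I → X → Bool, ∏ i, h i (ω i) = ∏ i, ∑ f : X → Bool, h i f := by
  rw [Finset.prod_univ_sum]
  simp

lemma sum_prod_row (g : X → Bool → ℝ) :
    ∑ f : X → Bool, ∏ x, g x (f x) = ∏ x, (g x true + g x false) := by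
  have h := Finset.prod_univ_sum (fun _ : X => (Finset.univ : Finset Bool)) (fun x b => g x b)
  simp only [Fintype.piFinset_univ] at h
  rw [← h]
  simp

/-- weight of a configuration on `E` -/
def wt (E : Finset (I × X)) (ω : I → X → Bool) : ℕ :=
  (E.filter (fun e => ω e.1 e.2 = true)).card

lemma exp_wt (E : Finset (I × X)) (ω : I → X → Bool) :
    Real.exp (-(wt E ω : ℝ)) =
      ∏ i, ∏ x, (if (i, x) ∈ E ∧ ω i x = true then Real.exp (-1) else 1) := by
  rw [← Fintype.prod_prod_type' (fun i x => (if (i, x) ∈ E ∧ ω i x = true then Real.exp (-1) else 1))]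
  rw [Finset.prod_ite]
  simp only [Finset.prod_const, one_pow, mul_one, wt]
  rw [← Real.exp_nat_mul]
  congr 1
  have : (Finset.univ.filter fun e : I × X => (e.1, e.2) ∈ E ∧ ω e.1 e.2 = true) =
      E.filter (fun e => ω e.1 e.2 = true) := by
    ext e; simp
  rw [this]
  ring

lemma exp_const : (1 + Real.exp (-1)) / 2 ≤ Real.exp (-(1 / 4)) := by
  have h1 : Real.exp (-1) ≤ 0.3679 := by
    rw [Real.exp_neg]
    have := Real.exp_one_gt_d9
    rw [inv_le_comm₀ (Real.exp_pos 1) (by norm_num)]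
    linarith
  have h2 : (1 : ℝ) - 1 / 4 ≤ Real.exp (-(1 / 4)) := by
    have := Real.add_one_le_exp (-(1 / 4 : ℝ))
    linarith
  linarith

lemma low_weight (E : Finset (I × X)) (M : ℝ) :
    ((Finset.univ.filter (fun ω : I → X → Bool => (wt E ω : ℝ) ≤ M)).card : ℝ) ≤
      2 ^ (Fintype.card I * Fintype.card X) * Real.exp (M - E.card / 4) := by
  have h1 : ((Finset.univ.filter (fun ω : I → X → Bool => (wt E ω : ℝ) ≤ M)).card : ℝ) ≤
      ∑ ω : I → X → Bool, Real.exp M * Real.exp (-(wt E ω : ℝ)) := by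
    rw [Finset.card_filter]
    push_cast
    apply Finset.sum_le_sum
    intro ω _
    split_ifs with h
    · rw [← Real.exp_add]
      apply Real.one_le_exp
      linarith
    · positivity
  refine h1.trans ?_
  rw [← Finset.mul_sum]
  have h2 : ∑ ω : I → X → Bool, Real.exp (-(wt E ω : ℝ)) =
      2 ^ (Fintype.card I * Fintype.card X) * ((1 + Real.exp (-1)) / 2) ^ E.card := by
    calc ∑ ω : I → X → Bool, Real.exp (-(wt E ω : ℝ))
        = ∑ ω : I → X → Bool, ∏ i, ∏ x, (if (i, x) ∈ E ∧ ω i x = true then Real.exp (-1) else 1) :=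
          Finset.sum_congr rfl fun ω _ => exp_wt E ω
      _ = ∏ i, ∑ f : X → Bool, ∏ x, (if (i, x) ∈ E ∧ f x = true then Real.exp (-1) else 1) :=
          sum_prod_rows (fun i f => ∏ x, (if (i, x) ∈ E ∧ f x = true then Real.exp (-1) else 1))
      _ = ∏ i : I, ∏ x : X, (2 * (if (i, x) ∈ E then (1 + Real.exp (-1)) / 2 else 1)) := by
          refine Finset.prod_congr rfl fun i _ => ?_
          rw [sum_prod_row (fun x b => (if (i, x) ∈ E ∧ b = true then Real.exp (-1) else 1))]
          refine Finset.prod_congr rfl fun x _ => ?_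
          by_cases hE : (i, x) ∈ E
          · simp [hE]; ring
          · simp [hE]; norm_num
      _ = ∏ e : I × X, (2 * (if e ∈ E then (1 + Real.exp (-1)) / 2 else 1)) := by
          rw [← Fintype.prod_prod_type' (fun i x => (2 * (if (i, x) ∈ E then (1 + Real.exp (-1)) / 2 else 1)))]
      _ = _ := by
          rw [Finset.prod_mul_distrib, Finset.prod_const, Finset.card_univ, Fintype.card_prod,
            Finset.prod_ite]
          simp [div_pow]
  rw [h2]
  have h3 : ((1 + Real.exp (-1)) / 2) ^ E.card ≤ Real.exp (-(1 / 4) * E.card) := by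
    calc ((1 + Real.exp (-1)) / 2) ^ E.card ≤ (Real.exp (-(1 / 4))) ^ E.card := by
          apply pow_le_pow_left₀ (by positivity) exp_const
      _ = Real.exp (-(1 / 4) * E.card) := by
          rw [← Real.exp_nat_mul]; ring_nf
  calc Real.exp M * (2 ^ (Fintype.card I * Fintype.card X) * ((1 + Real.exp (-1)) / 2) ^ E.card)
      ≤ Real.exp M * (2 ^ (Fintype.card I * Fintype.card X) * Real.exp (-(1 / 4) * E.card)) := by
        gcongr
    _ = 2 ^ (Fintype.card I * Fintype.card X) * Real.exp (M - E.card / 4) := by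
        rw [mul_left_comm, ← Real.exp_add]
        ring_nf

/-- number of configurations which hit `E` in every row -/
lemma hit_all (E : Finset (I × X)) :
    ((Finset.univ.filter (fun ω : I → X → Bool => ∀ i, ∃ x, (i, x) ∈ E ∧ ω i x = true)).card : ℝ) ≤
      2 ^ (Fintype.card I * Fintype.card X) *
        Real.exp (-∑ i : I, (1 / 2 : ℝ) ^ (Finset.univ.filter (fun x => (i, x) ∈ E)).card) := by
  have h1 : ((Finset.univ.filter
      (fun ω : I → X → Bool => ∀ i, ∃ x, (i, x) ∈ E ∧ ω i x = true)).card : ℝ) ≤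
      ∑ ω : I → X → Bool, ∏ i, (1 - ∏ x, (if (i, x) ∈ E ∧ ω i x = true then (0 : ℝ) else 1)) := by
    rw [Finset.card_filter]
    push_cast
    apply Finset.sum_le_sum
    intro ω _
    have hp : ∀ i, (∏ x, (if (i, x) ∈ E ∧ ω i x = true then (0 : ℝ) else 1)) ≤ 1 := by
      intro i
      apply Finset.prod_le_one
      · intro x _; split_ifs <;> norm_num
      · intro x _; split_ifs <;> norm_num
    split_ifs with h
    · rw [Finset.prod_eq_one]
      intro i _
      obtain ⟨x, hx⟩ := h i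
      have : (∏ x, (if (i, x) ∈ E ∧ ω i x = true then (0 : ℝ) else 1)) = 0 :=
        Finset.prod_eq_zero (Finset.mem_univ x) (by rw [if_pos hx])
      rw [this]; ring
    · apply Finset.prod_nonneg
      intro i _
      linarith [hp i]
  refine h1.trans ?_
  rw [sum_prod_rows (fun i f => (1 - ∏ x, (if (i, x) ∈ E ∧ f x = true then (0 : ℝ) else 1)))]
  have h2 : ∀ i : I, ∑ f : X → Bool, (1 - ∏ x, (if (i, x) ∈ E ∧ f x = true then (0 : ℝ) else 1)) =
      2 ^ Fintype.card X * (1 - (1 / 2 : ℝ) ^ (Finset.univ.filter (fun x => (i, x) ∈ E)).card) := by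
    intro i
    rw [Finset.sum_sub_distrib,
      sum_prod_row (fun x b => (if (i, x) ∈ E ∧ b = true then (0 : ℝ) else 1))]
    have : ∀ x, ((if (i, x) ∈ E ∧ true = true then (0 : ℝ) else 1) +
        (if (i, x) ∈ E ∧ false = true then (0 : ℝ) else 1)) =
        2 * (if (i, x) ∈ E then (1 / 2 : ℝ) else 1) := by
      intro x
      by_cases hE : (i, x) ∈ E
      · simp [hE]
      · simp [hE]; norm_num
    rw [Finset.prod_congr rfl (fun x _ => this x),
      Finset.prod_mul_distrib, Finset.prod_const, Finset.card_univ, Finset.prod_ite]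
    simp [mul_sub]
  simp_rw [h2]
  rw [Finset.prod_mul_distrib, Finset.prod_const, Finset.card_univ, ← pow_mul,
    mul_comm (Fintype.card X)]
  gcongr
  rw [← Finset.sum_neg_distrib, Real.exp_sum]
  apply Finset.prod_le_prod
  · intro i _
    have : (1 / 2 : ℝ) ^ (Finset.univ.filter (fun x => (i, x) ∈ E)).card ≤ 1 :=
      pow_le_one₀ (by norm_num) (by norm_num)
    linarith
  · intro i _
    have := Real.add_one_le_exp (-(1 / 2 : ℝ) ^ (Finset.univ.filter (fun x => (i, x) ∈ E)).card)
    linarith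

lemma half_pow_ge (N M : ℕ) : (1 / 2 : ℝ) ^ M * (1 - N / (M + 1)) ≤ (1 / 2 : ℝ) ^ N := by
  by_cases h : N ≤ M
  · have h1 : (1 / 2 : ℝ) ^ M ≤ (1 / 2 : ℝ) ^ N :=
      pow_le_pow_of_le_one (by norm_num) (by norm_num) h
    have h2 : (1 - (N : ℝ) / (M + 1)) ≤ 1 := by
      have : 0 ≤ (N : ℝ) / (M + 1) := by positivity
      linarith
    calc (1 / 2 : ℝ) ^ M * (1 - N / (M + 1)) ≤ (1 / 2 : ℝ) ^ M * 1 := by gcongr
      _ ≤ _ := by linarith
  · have h1 : (1 - (N : ℝ) / (M + 1)) ≤ 0 := by
      have : (1 : ℝ) ≤ (N : ℝ) / (M + 1) := by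
        rw [le_div_iff₀ (by positivity)]
        have : M + 1 ≤ N := by omega
        have : ((M + 1 : ℕ) : ℝ) ≤ N := by exact_mod_cast this
        push_cast at this
        linarith
      linarith
    have h2 : 0 < (1 / 2 : ℝ) ^ M := by positivity
    have h3 : 0 < (1 / 2 : ℝ) ^ N := by positivity
    nlinarith

end counting


section planes

variable {p : ℕ} [Fact p.Prime]

/-- incidences of the non-vertical lines with the points of `B` -/
def EB (B : Finset (ZMod p × ZMod p)) : Finset ((ZMod p × ZMod p) × ZMod p) :=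
  Finset.univ.filter (fun e => (e.2, e.1.1 * e.2 + e.1.2) ∈ B)

/-- the random part of the line `y = a x + b` -/
def Ln (ω : (ZMod p × ZMod p) → ZMod p → Bool) (i : ZMod p × ZMod p) : Finset (ZMod p × ZMod p) :=
  Finset.univ.filter (fun q => q.2 = i.1 * q.1 + i.2 ∧ ω i q.1 = true)

lemma card_EB (B : Finset (ZMod p × ZMod p)) : (EB B).card = B.card * p := by
  have : (EB B).card = (B ×ˢ (Finset.univ : Finset (ZMod p))).card := by
    apply Finset.card_nbij' (fun e => ((e.2, e.1.1 * e.2 + e.1.2), e.1.1))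
      (fun q => ((q.2, q.1.2 - q.2 * q.1.1), q.1.1))
    · intro e he
      simp only [EB, Finset.coe_filter, Finset.mem_univ, true_and, Set.mem_ofPred_eq] at he
      simp only [Finset.coe_product, Finset.coe_univ, Set.mem_prod, Set.mem_univ, and_true]
      exact he
    · intro q hq
      simp only [Finset.coe_product, Finset.coe_univ, Set.mem_prod, Set.mem_univ, and_true] at hq
      simp only [EB, Finset.coe_filter, Finset.mem_univ, true_and, Set.mem_ofPred_eq]
      have : q.2 * q.1.1 + (q.1.2 - q.2 * q.1.1) = q.1.2 := by ring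
      rw [this]
      exact hq
    · rintro ⟨⟨a, b⟩, x⟩ _
      simp
    · rintro ⟨⟨x, y⟩, a⟩ _
      simp
  rw [this, Finset.card_product, Finset.card_univ, ZMod.card]

lemma sum_rows {I X : Type*} [Fintype I] [DecidableEq I] [Fintype X] [DecidableEq X]
    (E : Finset (I × X)) :
    ∑ i : I, (Finset.univ.filter (fun x => (i, x) ∈ E)).card = E.card := by
  simp_rw [Finset.card_filter]
  rw [← Fintype.sum_prod_type' (fun i x => if (i, x) ∈ E then 1 else 0)]
  simp

lemma card_Ln_inter (ω : (ZMod p × ZMod p) → ZMod p → Bool) (i : ZMod p × ZMod p)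
    (B : Finset (ZMod p × ZMod p)) :
    (Ln ω i ∩ B).card = (Finset.univ.filter (fun x => (i, x) ∈ (EB B).filter
      (fun e => ω e.1 e.2 = true))).card := by
  apply Finset.card_nbij' (fun q => q.1) (fun x => (x, i.1 * x + i.2))
  · intro q hq
    simp only [Ln, EB, Finset.coe_inter, Finset.coe_filter, Finset.mem_univ, true_and,
      Set.mem_inter_iff, Set.mem_ofPred_eq, Finset.mem_coe, Finset.mem_filter] at hq ⊢
    obtain ⟨⟨h1, h2⟩, h3⟩ := hq
    refine ⟨?_, h2⟩
    rw [← h1]; exact h3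
  · intro x hx
    simp only [Ln, EB, Finset.coe_inter, Finset.coe_filter, Finset.mem_univ, true_and,
      Set.mem_inter_iff, Set.mem_ofPred_eq, Finset.mem_coe, Finset.mem_filter] at hx ⊢
    exact ⟨hx.2, hx.1⟩
  · intro q hq
    simp only [Ln, EB, Finset.coe_inter, Finset.coe_filter, Finset.mem_univ, true_and,
      Set.mem_inter_iff, Set.mem_ofPred_eq, Finset.mem_coe] at hq
    ext
    · rfl
    · exact hq.1.1.symm
  · intro x _
    rfl

lemma sum_card_Ln_inter (ω : (ZMod p × ZMod p) → ZMod p → Bool)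
    (B : Finset (ZMod p × ZMod p)) :
    ∑ i, (Ln ω i ∩ B).card = wt (EB B) ω := by
  simp_rw [card_Ln_inter]
  rw [sum_rows]
  rfl

lemma Ln_inter_Ln (ω : (ZMod p × ZMod p) → ZMod p → Bool) (i j : ZMod p × ZMod p) (h : i ≠ j) :
    (Ln ω i ∩ Ln ω j).card < 2 := by
  have : (Ln ω i ∩ Ln ω j).card ≤ 1 := by
    rw [Finset.card_le_one]
    intro q hq r hr
    simp only [Ln, Finset.mem_inter, Finset.mem_filter, Finset.mem_univ, true_and] at hq hr
    obtain ⟨⟨h1, _⟩, ⟨h2, _⟩⟩ := hq
    obtain ⟨⟨h3, _⟩, ⟨h4, _⟩⟩ := hr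
    have e1 : (i.1 - j.1) * (q.1 - r.1) = 0 := by
      have a1 : i.1 * q.1 + i.2 = j.1 * q.1 + j.2 := by rw [← h1, ← h2]
      have a2 : i.1 * r.1 + i.2 = j.1 * r.1 + j.2 := by rw [← h3, ← h4]
      linear_combination a1 - a2
    rcases mul_eq_zero.1 e1 with h5 | h5
    · exfalso
      have h6 : i.1 = j.1 := sub_eq_zero.1 h5
      apply h
      ext
      · exact h6
      · have a1 : i.1 * q.1 + i.2 = j.1 * q.1 + j.2 := by rw [← h1, ← h2]
        rw [h6] at a1
        exact add_left_cancel a1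
    · have h6 : q.1 = r.1 := sub_eq_zero.1 h5
      ext
      · exact h6
      · rw [h1, h3, h6]
  omega

end planes

lemma analytic (C : ℕ) : ∃ N : ℕ, ∀ p : ℕ, N ≤ p →
    (p : ℝ) ^ 2 * Real.exp (p / 8 - p / 4) +
      ((p : ℝ) ^ 2) ^ (8 * (C + 1) * p) * (Real.exp ((C + 1) * p ^ 2 - ((8 * (C + 1) * p : ℕ) : ℝ) * p / 4) +
        Real.exp (-((1 / 2 : ℝ) ^ (16 * (C + 1) - 1) * (p ^ 2 / 2)))) < 1 := by
  set δ : ℝ := (1 / 2 : ℝ) ^ (16 * (C + 1) - 1) with hδ
  have hδ0 : 0 < δ := by positivity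
  have hδ1 : δ ≤ 1 := pow_le_one₀ (by norm_num) (by norm_num)
  set K : ℝ := (C + 1 : ℝ) with hK
  have hK1 : 1 ≤ K := by rw [hK]; linarith [(Nat.cast_nonneg C : (0 : ℝ) ≤ C)]
  set ε : ℝ := δ / (64 * K) with hε
  have hε0 : 0 < ε := by positivity
  have hε1 : ε ≤ 1 / 64 := by
    rw [hε, div_le_div_iff₀ (by positivity) (by norm_num)]
    nlinarith
  have hev : ∀ᶠ n : ℕ in Filter.atTop, ‖Real.log (n : ℝ)‖ ≤ ε * ‖(n : ℝ)‖ :=
    tendsto_natCast_atTop_atTop.eventually (Real.isLittleO_log_id_atTop.bound hε0)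
  obtain ⟨N1, hN1⟩ := Filter.eventually_atTop.1 hev
  obtain ⟨N2, hN2⟩ := exists_nat_ge (8 / δ)
  refine ⟨max N1 (max N2 32), fun p hp => ?_⟩
  have hp1 : N1 ≤ p := le_trans (le_max_left _ _) hp
  have hp2 : N2 ≤ p := le_trans (le_trans (le_max_left _ _) (le_max_right _ _)) hp
  have hp3 : 32 ≤ p := le_trans (le_trans (le_max_right _ _) (le_max_right _ _)) hp
  have hpR : (32 : ℝ) ≤ p := by exact_mod_cast hp3
  have hp0 : (0 : ℝ) < p := by linarith
  have hlog : Real.log p ≤ ε * p := by
    have := hN1 p hp1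
    rw [Real.norm_of_nonneg hp0.le] at this
    exact (le_abs_self _).trans this
  have hδp : 8 ≤ δ * p := by
    have : 8 / δ ≤ p := hN2.trans (by exact_mod_cast hp2)
    rw [div_le_iff₀ hδ0] at this
    linarith
  have hpow2 : (p : ℝ) ^ 2 = Real.exp (2 * Real.log p) := by
    rw [mul_comm, Real.exp_mul, Real.exp_log hp0]; norm_cast
  have hpowt : ((p : ℝ) ^ 2) ^ (8 * (C + 1) * p) = Real.exp (16 * K * p * Real.log p) := by
    rw [hpow2, ← Real.exp_nat_mul]
    congr 1
    push_cast
    rw [hK]; ring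
  have e2 : Real.exp (-2) < 1 / 3 := by
    have h1 := Real.exp_one_gt_d9
    have h2 : Real.exp (-2) = (Real.exp 1 * Real.exp 1)⁻¹ := by
      rw [← Real.exp_add, ← Real.exp_neg]; norm_num
    rw [h2, inv_lt_comm₀ (by positivity) (by norm_num)]
    nlinarith
  have t1 : (p : ℝ) ^ 2 * Real.exp (p / 8 - p / 4) < 1 / 3 := by
    rw [hpow2, ← Real.exp_add]
    refine lt_of_le_of_lt (Real.exp_le_exp.2 ?_) e2
    nlinarith
  have t2 : ((p : ℝ) ^ 2) ^ (8 * (C + 1) * p) *
      Real.exp (K * p ^ 2 - ((8 * (C + 1) * p : ℕ) : ℝ) * p / 4) < 1 / 3 := by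
    rw [hpowt, ← Real.exp_add]
    refine lt_of_le_of_lt (Real.exp_le_exp.2 ?_) e2
    push_cast
    have h1 : 16 * K * p * Real.log p ≤ δ / 4 * p ^ 2 := by
      calc 16 * K * p * Real.log p ≤ 16 * K * p * (ε * p) := by gcongr
        _ = δ / 4 * p ^ 2 := by rw [hε]; field_simp; ring
    have h3 : δ / 4 * (p : ℝ) ^ 2 ≤ 1 / 4 * (p : ℝ) ^ 2 := by gcongr
    have h4 : (p : ℝ) ^ 2 ≤ K * (p : ℝ) ^ 2 := by
      nlinarith [sq_nonneg (p : ℝ)]
    have h5 : (32 : ℝ) ^ 2 ≤ (p : ℝ) ^ 2 := by gcongr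
    have h6 : 8 * ((C : ℝ) + 1) * p * p / 4 = 2 * (K * (p : ℝ) ^ 2) := by rw [hK]; ring
    rw [h6]
    nlinarith
  have t3 : ((p : ℝ) ^ 2) ^ (8 * (C + 1) * p) * Real.exp (-(δ * (p ^ 2 / 2))) < 1 / 3 := by
    rw [hpowt, ← Real.exp_add]
    refine lt_of_le_of_lt (Real.exp_le_exp.2 ?_) e2
    have h1 : 16 * K * p * Real.log p ≤ δ / 4 * p ^ 2 := by
      calc 16 * K * p * Real.log p ≤ 16 * K * p * (ε * p) := by gcongr
        _ = δ / 4 * p ^ 2 := by rw [hε]; field_simp; ring
    have h2 : 8 * 32 ≤ δ * p * p := by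
      have := mul_le_mul hδp hpR (by norm_num) (by positivity)
      linarith
    nlinarith
  rw [mul_add]
  linarith

theorem main : ¬ (∀ c : ℝ, 0 < c → ∃ C : ℕ, ∀ n : ℕ, ∀ F : Finset (Finset (Fin n)),
      (∀ A ∈ F, c * Real.sqrt (n : ℝ) < ((A.card : ℕ) : ℝ)) →
      (∀ A ∈ F, ∀ A' ∈ F, A ≠ A' → (A ∩ A').card < 2) →
      ∃ B : Finset (Fin n), ∀ A ∈ F, 1 ≤ (A ∩ B).card ∧ (A ∩ B).card ≤ C) := by
  intro H
  obtain ⟨C, hC⟩ := H (1 / 8) (by norm_num)
  obtain ⟨N, hN⟩ := analytic C
  obtain ⟨p, hpN, hp⟩ := Nat.exists_infinite_primes N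
  haveI : Fact p.Prime := ⟨hp⟩
  have hpa := hN p hpN
  have hp0 : 0 < p := hp.pos
  set t : ℕ := 8 * (C + 1) * p with ht
  have ht0 : 0 < t := by positivity
  set T : ℝ := 2 ^ (Fintype.card (ZMod p × ZMod p) * Fintype.card (ZMod p)) with hT
  have hT0 : 0 < T := by positivity
  -- the three kinds of bad events
  let bad1 : (ZMod p × ZMod p) → Finset ((ZMod p × ZMod p) → ZMod p → Bool) := fun i =>
    Finset.univ.filter (fun ω => (wt ((Finset.univ : Finset ((ZMod p × ZMod p) × ZMod p)).filter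
      (fun e => e.1 = i)) ω : ℝ) ≤ p / 8)
  let bad2 : (Fin t → ZMod p × ZMod p) → Finset ((ZMod p × ZMod p) → ZMod p → Bool) := fun g =>
    Finset.univ.filter (fun ω => Function.Injective g ∧
      (wt (EB (Finset.univ.image g)) ω : ℝ) ≤ (C + 1) * p ^ 2)
  let bad3 : (Fin t → ZMod p × ZMod p) → Finset ((ZMod p × ZMod p) → ZMod p → Bool) := fun g =>
    Finset.univ.filter (fun ω => ∀ i, ∃ x, (i, x) ∈ EB (Finset.univ.image g) ∧ ω i x = true)
  have hb1 : ∀ i, ((bad1 i).card : ℝ) ≤ T * Real.exp (p / 8 - p / 4) := by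
    intro i
    have h := low_weight ((Finset.univ : Finset ((ZMod p × ZMod p) × ZMod p)).filter
      (fun e => e.1 = i)) ((p : ℝ) / 8)
    have hc : ((Finset.univ : Finset ((ZMod p × ZMod p) × ZMod p)).filter
      (fun e => e.1 = i)).card = p := by
      have : ((Finset.univ : Finset ((ZMod p × ZMod p) × ZMod p)).filter (fun e => e.1 = i)) =
          Finset.univ.image (fun x : ZMod p => (i, x)) := by
        ext ⟨j, x⟩
        simp only [Finset.mem_filter, Finset.mem_univ, true_and, Finset.mem_image,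
          Prod.mk.injEq]
        constructor
        · rintro rfl
          exact ⟨x, rfl, rfl⟩
        · rintro ⟨a, h1, _⟩
          exact h1.symm
      rw [this, Finset.card_image_of_injective _ (fun x y h => (Prod.ext_iff.1 h).2),
        Finset.card_univ, ZMod.card]
    rw [hc] at h
    exact h
  have hb2 : ∀ g, ((bad2 g).card : ℝ) ≤ T * Real.exp ((C + 1) * p ^ 2 - (t : ℝ) * p / 4) := by
    intro g
    by_cases hg : Function.Injective g
    · have h := low_weight (EB (Finset.univ.image g)) (((C : ℝ) + 1) * p ^ 2)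
      rw [card_EB, Finset.card_image_of_injective _ hg, Finset.card_univ, Fintype.card_fin] at h
      have h2 : bad2 g = Finset.univ.filter (fun ω : (ZMod p × ZMod p) → ZMod p → Bool =>
          (wt (EB (Finset.univ.image g)) ω : ℝ) ≤ (C + 1) * p ^ 2) := by
        ext ω; simp [bad2, hg]
      rw [h2]
      push_cast at h ⊢
      exact h
    · have h2 : bad2 g = ∅ := by
        ext ω; simp [bad2, hg]
      rw [h2]
      simp only [Finset.card_empty, Nat.cast_zero]
      positivity
  have hb3 : ∀ g, ((bad3 g).card : ℝ) ≤ T * Real.exp (-((1 / 2 : ℝ) ^ (16 * (C + 1) - 1) * (p ^ 2 / 2))) := by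
    intro g
    refine (hit_all (EB (Finset.univ.image g))).trans ?_
    gcongr
    have h1 : ∀ i : ZMod p × ZMod p, (1 / 2 : ℝ) ^ (16 * (C + 1) - 1) *
        (1 - ((Finset.univ.filter (fun x => (i, x) ∈ EB (Finset.univ.image g))).card : ℝ) /
          (16 * (C + 1))) ≤
        (1 / 2 : ℝ) ^ (Finset.univ.filter (fun x => (i, x) ∈ EB (Finset.univ.image g))).card := by
      intro i
      have := half_pow_ge (Finset.univ.filter (fun x => (i, x) ∈ EB (Finset.univ.image g))).card
        (16 * (C + 1) - 1)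
      have e : (((16 * (C + 1) - 1 : ℕ) : ℝ) + 1) = 16 * (C + 1) := by
        have : ((16 * (C + 1) - 1 + 1 : ℕ) : ℝ) = ((16 * (C + 1) : ℕ) : ℝ) := by
          congr 1
        push_cast at this
        linarith
      rw [e] at this
      exact this
    have h2 := Finset.sum_le_sum (fun i (_ : i ∈ (Finset.univ : Finset (ZMod p × ZMod p))) => h1 i)
    refine le_trans ?_ h2
    rw [← Finset.mul_sum, Finset.sum_sub_distrib, ← Finset.sum_div, ← Nat.cast_sum, sum_rows, card_EB]
    gcongr
    simp only [Finset.sum_const, Finset.card_univ, Fintype.card_prod, ZMod.card, nsmul_eq_mul,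
      mul_one]
    have h3 : ((Finset.univ.image g).card : ℝ) ≤ 8 * (C + 1) * p := by
      have : (Finset.univ.image g).card ≤ t := by
        refine Finset.card_image_le.trans ?_
        simp
      have h5 : ((Finset.univ.image g).card : ℝ) ≤ (t : ℝ) := by exact_mod_cast this
      have h6 : (t : ℝ) = 8 * (C + 1) * p := by
        have : (t : ℝ) = ((8 * (C + 1) * p : ℕ) : ℝ) := by rw [ht]
        rw [this]; push_cast; ring
      linarith
    have h4 : (((Finset.univ.image g).card * p : ℕ) : ℝ) / (16 * (C + 1)) ≤ (p : ℝ) ^ 2 / 2 := by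
      rw [div_le_iff₀ (by positivity)]
      push_cast
      have : ((Finset.univ.image g).card : ℝ) * p ≤ 8 * (C + 1) * p * p := by gcongr
      nlinarith
    push_cast at h4 ⊢
    nlinarith
  -- a good configuration exists
  obtain ⟨ω, hω1, hω2, hω3⟩ : ∃ ω : (ZMod p × ZMod p) → ZMod p → Bool,
      (∀ i, ω ∉ bad1 i) ∧ (∀ g, ω ∉ bad2 g) ∧ (∀ g, ω ∉ bad3 g) := by
    by_contra hcon
    push Not at hcon
    have hcov : (Finset.univ : Finset ((ZMod p × ZMod p) → ZMod p → Bool)) ⊆
        (Finset.univ.biUnion bad1) ∪ ((Finset.univ.biUnion bad2) ∪ (Finset.univ.biUnion bad3)) := by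
      intro ω _
      simp only [Finset.mem_union, Finset.mem_biUnion, Finset.mem_univ, true_and]
      by_cases h1 : ∃ i, ω ∈ bad1 i
      · exact Or.inl h1
      · push Not at h1
        by_cases h2 : ∃ g, ω ∈ bad2 g
        · exact Or.inr (Or.inl h2)
        · push Not at h2
          exact Or.inr (Or.inr (hcon ω h1 h2))
    have hcard := Finset.card_le_card hcov
    have hcardR : T ≤ ∑ i, ((bad1 i).card : ℝ) + (∑ g, ((bad2 g).card : ℝ) + ∑ g, ((bad3 g).card : ℝ)) := by
      have h1 : T = ((Finset.univ : Finset ((ZMod p × ZMod p) → ZMod p → Bool)).card : ℝ) := by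
        rw [Finset.card_univ, hT]
        simp only [Fintype.card_pi, Fintype.card_bool, Finset.prod_const, Finset.card_univ]
        push_cast
        rw [← pow_mul, mul_comm (Fintype.card (ZMod p))]
      rw [h1]
      have h2 : (Finset.univ : Finset ((ZMod p × ZMod p) → ZMod p → Bool)).card ≤
          ∑ i, (bad1 i).card + (∑ g, (bad2 g).card + ∑ g, (bad3 g).card) := by
        refine hcard.trans ((Finset.card_union_le _ _).trans ?_)
        refine add_le_add Finset.card_biUnion_le ((Finset.card_union_le _ _).trans ?_)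
        exact add_le_add Finset.card_biUnion_le Finset.card_biUnion_le
      exact_mod_cast h2
    have h1 : ∑ i, ((bad1 i).card : ℝ) ≤ (p : ℝ) ^ 2 * (T * Real.exp (p / 8 - p / 4)) := by
      refine (Finset.sum_le_sum (fun i _ => hb1 i)).trans ?_
      rw [Finset.sum_const, Finset.card_univ, Fintype.card_prod, ZMod.card, nsmul_eq_mul]
      push_cast
      apply le_of_eq; ring
    have hcg : (Fintype.card (Fin t → ZMod p × ZMod p) : ℝ) = ((p : ℝ) ^ 2) ^ t := by
      rw [Fintype.card_fun, Fintype.card_prod, ZMod.card, Fintype.card_fin]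
      push_cast; ring
    have h2 : ∑ g, ((bad2 g).card : ℝ) ≤ ((p : ℝ) ^ 2) ^ t *
        (T * Real.exp ((C + 1) * p ^ 2 - (t : ℝ) * p / 4)) := by
      refine (Finset.sum_le_sum (fun i _ => hb2 i)).trans ?_
      rw [Finset.sum_const, Finset.card_univ, nsmul_eq_mul, hcg]
    have h3 : ∑ g, ((bad3 g).card : ℝ) ≤ ((p : ℝ) ^ 2) ^ t *
        (T * Real.exp (-((1 / 2 : ℝ) ^ (16 * (C + 1) - 1) * (p ^ 2 / 2)))) := by
      refine (Finset.sum_le_sum (fun i _ => hb3 i)).trans ?_
      rw [Finset.sum_const, Finset.card_univ, nsmul_eq_mul, hcg]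
    have h4 : T ≤ T * ((p : ℝ) ^ 2 * Real.exp (p / 8 - p / 4) +
      ((p : ℝ) ^ 2) ^ t * (Real.exp ((C + 1) * p ^ 2 - (t : ℝ) * p / 4) +
        Real.exp (-((1 / 2 : ℝ) ^ (16 * (C + 1) - 1) * (p ^ 2 / 2))))) := by
      refine (hcardR.trans (add_le_add h1 (add_le_add h2 h3))).trans (le_of_eq ?_)
      ring
    have h5 : T * ((p : ℝ) ^ 2 * Real.exp (p / 8 - p / 4) +
      ((p : ℝ) ^ 2) ^ t * (Real.exp ((C + 1) * p ^ 2 - (t : ℝ) * p / 4) +
        Real.exp (-((1 / 2 : ℝ) ^ (16 * (C + 1) - 1) * (p ^ 2 / 2))))) < T * 1 :=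
      mul_lt_mul_of_pos_left hpa hT0
    linarith
  -- transport to `Fin (p * p)`
  have hcardP : Fintype.card (ZMod p × ZMod p) = p * p := by
    rw [Fintype.card_prod, ZMod.card]
  let e : ZMod p × ZMod p ≃ Fin (p * p) := Fintype.equivFinOfCardEq hcardP
  let F : Finset (Finset (Fin (p * p))) := Finset.univ.image (fun i => (Ln ω i).map e.toEmbedding)
  have hLcard : ∀ i, (Ln ω i).card = wt ((Finset.univ : Finset ((ZMod p × ZMod p) × ZMod p)).filter
      (fun e => e.1 = i)) ω := by
    intro i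
    apply Finset.card_nbij' (fun q => (i, q.1)) (fun e => (e.2, i.1 * e.2 + i.2))
    · intro q hq
      simp only [Ln, Finset.coe_filter, Finset.mem_univ, true_and, Set.mem_ofPred_eq,
        Finset.mem_filter] at hq ⊢
      exact hq.2
    · rintro ⟨j, x⟩ hx
      simp only [Ln, Finset.coe_filter, Finset.mem_univ, true_and, Set.mem_ofPred_eq,
        Finset.mem_filter] at hx ⊢
      rw [← hx.1]; exact hx.2
    · intro q hq
      simp only [Ln, Finset.coe_filter, Finset.mem_univ, true_and, Set.mem_ofPred_eq] at hq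
      ext
      · rfl
      · exact hq.1.symm
    · rintro ⟨j, x⟩ hx
      simp only [Finset.coe_filter, Finset.mem_univ, true_and, Set.mem_ofPred_eq,
        Finset.mem_filter] at hx
      simp [hx.1]
  obtain ⟨B, hB⟩ := hC (p * p) F (by
    intro A hA
    simp only [F, Finset.mem_image, Finset.mem_univ, true_and] at hA
    obtain ⟨i, rfl⟩ := hA
    rw [Finset.card_map, hLcard]
    have h1 : ¬ ((wt ((Finset.univ : Finset ((ZMod p × ZMod p) × ZMod p)).filter
      (fun e => e.1 = i)) ω : ℝ) ≤ p / 8) := by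
      intro hcon
      exact hω1 i (by simp only [bad1, Finset.mem_filter, Finset.mem_univ, true_and]; exact hcon)
    push Not at h1
    have h2 : Real.sqrt (((p * p : ℕ) : ℝ)) = p := by
      push_cast
      exact Real.sqrt_mul_self (Nat.cast_nonneg p)
    rw [h2]
    linarith) (by
    intro A hA A' hA' hne
    simp only [F, Finset.mem_image, Finset.mem_univ, true_and] at hA hA'
    obtain ⟨i, rfl⟩ := hA
    obtain ⟨j, rfl⟩ := hA'
    rw [← Finset.map_inter, Finset.card_map]
    apply Ln_inter_Ln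
    rintro rfl
    exact hne rfl)
  let B0 : Finset (ZMod p × ZMod p) := B.map e.symm.toEmbedding
  have hB0 : ∀ i, 1 ≤ (Ln ω i ∩ B0).card ∧ (Ln ω i ∩ B0).card ≤ C := by
    intro i
    have h := hB ((Ln ω i).map e.toEmbedding) (by
      simp only [F, Finset.mem_image, Finset.mem_univ, true_and]
      exact ⟨i, rfl⟩)
    have h2 : (Ln ω i).map e.toEmbedding ∩ B = (Ln ω i ∩ B0).map e.toEmbedding := by
      rw [Finset.map_inter]
      congr 1
      ext x
      simp [B0]
    rw [h2, Finset.card_map] at h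
    exact h
  have hB0ne : B0.Nonempty := by
    have h := (hB0 (0, 0)).1
    obtain ⟨q, hq⟩ := Finset.card_pos.1 h
    exact ⟨q, (Finset.mem_inter.1 hq).2⟩
  by_cases hsz : B0.card ≤ t
  · -- a small set
    obtain ⟨q0, hq0⟩ := hB0ne
    have hemb : Nonempty (B0 ↪ Fin t) := by
      rw [Function.Embedding.nonempty_iff_card_le]
      simpa using hsz
    obtain ⟨f⟩ := hemb
    let g : Fin t → ZMod p × ZMod p := fun k =>
      if h : ∃ b : B0, f b = k then (h.choose : ZMod p × ZMod p) else q0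
    have hg : Finset.univ.image g = B0 := by
      ext q
      simp only [Finset.mem_image, Finset.mem_univ, true_and]
      constructor
      · rintro ⟨k, rfl⟩
        simp only [g]
        split_ifs with h
        · exact h.choose.2
        · exact hq0
      · intro hq
        refine ⟨f ⟨q, hq⟩, ?_⟩
        have h : ∃ b : B0, f b = f ⟨q, hq⟩ := ⟨_, rfl⟩
        simp only [g]
        rw [dif_pos h]
        have := f.injective h.choose_spec
        rw [this]
    apply hω3 g
    simp only [bad3, Finset.mem_filter, Finset.mem_univ, true_and]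
    intro i
    rw [hg]
    have h := (hB0 i).1
    rw [card_Ln_inter] at h
    obtain ⟨x, hx⟩ := Finset.card_pos.1 h
    simp only [Finset.mem_filter, Finset.mem_univ, true_and] at hx
    exact ⟨x, hx⟩
  · -- a large set
    push Not at hsz
    obtain ⟨B1, hB1, hB1c⟩ := Finset.exists_subset_card_eq hsz.le
    have hne : Nonempty (Fin t ≃ B1) := by
      rw [← Fintype.card_eq]
      simp [hB1c]
    obtain ⟨f⟩ := hne
    let g : Fin t → ZMod p × ZMod p := fun k => (f k : ZMod p × ZMod p)
    have hginj : Function.Injective g := fun a b h => f.injective (Subtype.ext h)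
    have hg : Finset.univ.image g = B1 := by
      ext q
      simp only [Finset.mem_image, Finset.mem_univ, true_and]
      constructor
      · rintro ⟨k, rfl⟩
        exact (f k).2
      · intro hq
        exact ⟨f.symm ⟨q, hq⟩, by simp [g]⟩
    apply hω2 g
    simp only [bad2, Finset.mem_filter, Finset.mem_univ, true_and]
    refine ⟨hginj, ?_⟩
    rw [hg, ← sum_card_Ln_inter]
    have h1 : ∑ i, (Ln ω i ∩ B1).card ≤ ∑ i : ZMod p × ZMod p, C := by
      apply Finset.sum_le_sum
      intro i _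
      exact (Finset.card_le_card (Finset.inter_subset_inter_left hB1)).trans (hB0 i).2
    rw [Finset.sum_const, Finset.card_univ, hcardP, smul_eq_mul] at h1
    have h2 : ((∑ i, (Ln ω i ∩ B1).card : ℕ) : ℝ) ≤ ((p * p * C : ℕ) : ℝ) := by exact_mod_cast h1
    push_cast at h2 ⊢
    nlinarith [sq_nonneg (p : ℝ)]

end Pool.Agent.H985R2.Block
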